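import Pool.Agent.H37.OH.Nsq
import Pool.Agent.H37.PPC.Ch
import Pool.Agent.H37.PPC.TS

/-!
PROJECT OH, Mass: the mass of the nonresidues, one range and two ranges.

`one_mass`: for `s a` no square and `(4 a) ^ 8 ≤ M ≤ z` the mass of `NR s M z a` is at least
`(log log z - log log M) / 2 - C` (`psi_TW`, `TW_sum`, `mertens_two`).
`two_mass`: both ranges `[L, U]` (from `FS s L U a ≤ 1`) and `[M, z]` together.
-/

set_option autoImplicit false

namespace Pool.Agent.H37.OH

open Finset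
open Pool.Agent.H37.PPC (pr mem_pr psi psi_TW TW_sum mertens_two TW)
open Pool.Agent.H12.FO

namespace Mass

theorem natAbs_s {s : ℤ} (hs : s = 1 ∨ s = -1) (a : ℕ) : (s * (a : ℤ)).natAbs = a := by
  rcases hs with h | h <;> simp [h]

theorem loglog_sqrt (a b : ℕ) (ha : 3 ≤ a) (hab : a ≤ b) (C : ℝ) :
    Real.exp (C + (Real.log (Real.log a) - Real.log (Real.log b)) / 2) =
      Real.exp C * Real.sqrt (Real.log a / Real.log b) := by
  have haR : (3 : ℝ) ≤ a := by exact_mod_cast ha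
  have hbR : (a : ℝ) ≤ b := by exact_mod_cast hab
  have hla : 0 < Real.log a := Real.log_pos (by linarith)
  have hlb : 0 < Real.log b := Real.log_pos (by linarith)
  rw [Real.exp_add, Real.exp_half (Real.log (Real.log a) - Real.log (Real.log b)), Real.exp_sub,
    Real.exp_log hla, Real.exp_log hlb]

theorem loglog_succ (z : ℕ) (hz : 3 ≤ z) :
    Real.log (Real.log z) ≤ Real.log (Real.log ((z + 1 : ℕ) : ℝ)) := by
  have hzR : (3 : ℝ) ≤ z := by exact_mod_cast hz
  apply Real.log_le_log (Real.log_pos (by linarith))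
  apply Real.log_le_log (by linarith)
  push_cast
  linarith

/-- the second range, with the odd number `b` as a hypothesis -/
theorem one_core : ∃ C : ℝ, 0 < C ∧ ∀ (s : ℤ) (a M z : ℕ), (s = 1 ∨ s = -1) → 1 ≤ a →
    (4 * a) ^ 8 ≤ M → M ≤ z → (∃ b : ℕ, Odd b ∧ jacobiSym (s * (a : ℤ)) b = -1) →
    -(∑ p ∈ NR s M z a, (1 : ℝ) / p) ≤
      C + (Real.log (Real.log M) - Real.log (Real.log z)) / 2 := by
  obtain ⟨C1, hC1, h1⟩ := TW_sum
  obtain ⟨C2, hC2, h2⟩ := mertens_two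
  refine ⟨(C1 + C2) / 2, by positivity, ?_⟩
  intro s a M z hs ha hM hMz hb
  have hM4 : 4 * a ≤ M := (Nat.le_self_pow (by norm_num) _).trans hM
  have h0 : s * (a : ℤ) ≠ 0 := by
    intro h
    have h3 := natAbs_s hs a
    rw [h] at h3
    simp at h3
    omega
  have htw : TW (psi (s * a)) (4 * a) := by
    have h3 := psi_TW (s * a) h0 hb
    rwa [natAbs_s hs] at h3
  have hnd : ∀ p ∈ pr M (z + 1), ¬ p ∣ a := by
    intro p hp hpa
    rw [mem_pr] at hp
    have := Nat.le_of_dvd (by omega) hpa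
    omega
  have hFS : FS s M z a = ∑ p ∈ pr M (z + 1), psi (s * a) p / p := by
    unfold FS
    apply sum_congr rfl
    intro p hp
    rw [mem_pr] at hp
    have hodd : Odd p := hp.2.odd_of_ne_two (by omega)
    unfold psi
    rw [if_pos hodd]
  have h3 := h1 (psi (s * a)) (4 * a) (by omega) htw M (z + 1) hM (by omega)
  have h4 := (abs_le.1 (h2 M (z + 1) (by omega) (by omega))).1
  have h5 := loglog_succ z (by omega)
  rw [NR_sum hs hnd, hFS]
  linarith

/-- the primes of the first range which divide `a` -/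
theorem dvd_sum (L U a : ℕ) (hL : 3 ≤ L) (ha : 1 ≤ a) (haL : a < 2 ^ L) :
    ∑ p ∈ (pr L (U + 1)).filter (fun p => p ∣ a), (1 : ℝ) / p ≤ 1 := by
  set T := (pr L (U + 1)).filter (fun p => p ∣ a) with hT
  have hTp : ∀ p ∈ T, p.Prime ∧ L ≤ p ∧ p ∣ a := by
    intro p hp
    rw [hT, mem_filter, mem_pr] at hp
    exact ⟨hp.1.2, hp.1.1.1, hp.2⟩
  have h1 : ∏ p ∈ T, p ∣ a := by
    apply Finset.prod_primes_dvd
    · intro p hp
      exact (hTp p hp).1.prime
    · intro p hp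
      exact (hTp p hp).2.2
  have h2 : 2 ^ T.card ≤ ∏ p ∈ T, p := by
    apply Finset.pow_card_le_prod
    intro p hp
    exact (hTp p hp).1.two_le
  have h3 : ∏ p ∈ T, p ≤ a := Nat.le_of_dvd (by omega) h1
  have h4 : T.card < L := by
    by_contra h
    push Not at h
    have h5 : 2 ^ L ≤ 2 ^ T.card := Nat.pow_le_pow_right (by norm_num) h
    omega
  have hLR : (0 : ℝ) < L := by exact_mod_cast (by omega : 0 < L)
  calc ∑ p ∈ T, (1 : ℝ) / p ≤ ∑ p ∈ T, (1 : ℝ) / L := by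
        apply sum_le_sum
        intro p hp
        apply one_div_le_one_div_of_le hLR
        exact_mod_cast (hTp p hp).2.1
    _ = T.card * (1 / (L : ℝ)) := by rw [sum_const, nsmul_eq_mul]
    _ ≤ L * (1 / (L : ℝ)) := by
        apply mul_le_mul_of_nonneg_right _ (by positivity)
        exact_mod_cast h4.le
    _ = 1 := by field_simp

/-- `NR_sum` with the primes dividing `a` -/
theorem NR_sum' {s : ℤ} (hs : s = 1 ∨ s = -1) (L U a : ℕ) :
    ∑ p ∈ NR s L U a, (1 : ℝ) / p =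
      (1 / 2) * (∑ p ∈ pr L (U + 1), (1 : ℝ) / p) - (1 / 2) * FS s L U a
        - (1 / 2) * ∑ p ∈ (pr L (U + 1)).filter (fun p => p ∣ a), (1 : ℝ) / p := by
  unfold NR FS
  rw [sum_filter, sum_filter, mul_sum, mul_sum, mul_sum, ← sum_sub_distrib, ← sum_sub_distrib]
  refine sum_congr rfl fun p hp => ?_
  have hpp := (mem_pr.1 hp).2
  by_cases hpa : p ∣ a
  · have h0 : jacobiSym (s * a) p = 0 := by
      have : NeZero p := ⟨hpp.pos.ne'⟩
      rw [jacobiSym.eq_zero_iff_not_coprime]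
      rw [Int.gcd, natAbs_s hs, Int.natAbs_natCast, Nat.gcd_comm]
      intro h
      exact (Nat.Prime.coprime_iff_not_dvd hpp).1 h hpa
    rw [h0, if_neg (by norm_num), if_pos hpa]
    push_cast
    ring
  · rcases jac_pm hs hpp hpa with h1 | h1
    · rw [h1, if_neg (by norm_num), if_neg hpa]
      push_cast
      ring
    · rw [h1, if_pos rfl, if_neg hpa]
      push_cast
      ring

/-- the first range -/
theorem first_core : ∃ C : ℝ, 0 < C ∧ ∀ (s : ℤ) (L U a : ℕ), (s = 1 ∨ s = -1) → 3 ≤ L → L ≤ U →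
    1 ≤ a → a < 2 ^ L → FS s L U a ≤ 1 →
    -(∑ p ∈ NR s L U a, (1 : ℝ) / p) ≤
      C + (Real.log (Real.log L) - Real.log (Real.log U)) / 2 := by
  obtain ⟨C2, hC2, h2⟩ := mertens_two
  refine ⟨C2 / 2 + 1, by positivity, ?_⟩
  intro s L U a hs hL hLU ha haL hF
  have h3 := dvd_sum L U a hL ha haL
  have h4 := (abs_le.1 (h2 L (U + 1) (by omega) (by omega))).1
  have h5 := loglog_succ U (by omega)
  rw [NR_sum' hs]
  linarith

end Mass

theorem one_mass : ∃ C : ℝ, 0 < C ∧ ∀ (s : ℤ) (a M z : ℕ), (s = 1 ∨ s = -1) → 1 ≤ a → (4 * a) ^ 8 ≤ M → M ≤ z →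
    ¬ IsSquare (s * (a : ℤ)) →
    Real.exp (-(∑ p ∈ NR s M z a, (1 : ℝ) / p)) ≤ C * Real.sqrt (Real.log M / Real.log z) := by
  obtain ⟨C, hC, h⟩ := Mass.one_core
  refine ⟨Real.exp C, Real.exp_pos _, ?_⟩
  intro s a M z hs ha hM hMz hsq
  have hM4 : 4 * a ≤ M := (Nat.le_self_pow (by norm_num) _).trans hM
  have h1 := h s a M z hs ha hM hMz (ex_nsq _ hsq)
  rw [← Mass.loglog_sqrt M z (by omega) hMz]
  exact Real.exp_le_exp.2 h1

theorem two_mass : ∃ C : ℝ, 0 < C ∧ ∀ (s : ℤ) (L U M z a : ℕ), (s = 1 ∨ s = -1) → 3 ≤ L → L ≤ U → U < M →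
    (4 * a) ^ 8 ≤ M → M ≤ z → 1 ≤ a → a < 2 ^ L → ¬ IsSquare (s * (a : ℤ)) → FS s L U a ≤ 1 →
    Real.exp (-(∑ p ∈ NR s L U a ∪ NR s M z a, (1 : ℝ) / p)) ≤
      C * (Real.sqrt (Real.log L / Real.log U) * Real.sqrt (Real.log M / Real.log z)) := by
  obtain ⟨C, hC, h⟩ := Mass.one_core
  obtain ⟨C', hC', h'⟩ := Mass.first_core
  refine ⟨Real.exp C' * Real.exp C, by positivity, ?_⟩
  intro s L U M z a hs hL hLU hUM hM hMz ha haL hsq hF
  have hM4 : 4 * a ≤ M := (Nat.le_self_pow (by norm_num) _).trans hM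
  have h1 := h s a M z hs ha hM hMz (ex_nsq _ hsq)
  have h2 := h' s L U a hs hL hLU ha haL hF
  have hdis : Disjoint (NR s L U a) (NR s M z a) := by
    rw [Finset.disjoint_left]
    intro p hp hp'
    unfold NR at hp hp'
    rw [mem_filter, mem_pr] at hp hp'
    have h3 := hp.1.1.2
    have h4 := hp'.1.1.1
    omega
  rw [sum_union hdis, neg_add, Real.exp_add]
  have h3 := Mass.loglog_sqrt L U (by omega) hLU C'
  have h4 := Mass.loglog_sqrt M z (by omega) hMz C
  calc Real.exp (-(∑ p ∈ NR s L U a, (1 : ℝ) / p)) * Real.exp (-(∑ p ∈ NR s M z a, (1 : ℝ) / p))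
      ≤ Real.exp (C' + (Real.log (Real.log L) - Real.log (Real.log U)) / 2) *
        Real.exp (C + (Real.log (Real.log M) - Real.log (Real.log z)) / 2) :=
        mul_le_mul (Real.exp_le_exp.2 h2) (Real.exp_le_exp.2 h1) (Real.exp_pos _).le
          (Real.exp_pos _).le
    _ = _ := by
        rw [h3, h4]
        ring

end Pool.Agent.H37.OH
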