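import Pool.Agent.H37.OH.One
import Pool.Agent.H37.OH.Mass

/-!
OH Blk: the bad primes in a dyadic block, from both ranges of primes.
-/

set_option autoImplicit false

namespace Pool.Agent.H37.OH.BlkP

open Finset
open Pool.Agent.H37.PPC (pr mem_pr)
open Pool.Agent.H12.FO

private theorem Cnt_monoN {N N' : ℕ} (h : N ≤ N') (Q : ℕ → ℕ → Prop) : Cnt N Q ≤ Cnt N' Q := by
  classical
  unfold Cnt
  rw [Nat.cast_le]
  refine card_le_card ?_
  intro n hn
  rw [mem_filter, mem_Ico] at hn ⊢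
  exact ⟨⟨hn.1.1, by omega⟩, hn.2⟩

private theorem sg_cases (q : ℕ) : sg q = 1 ∨ sg q = -1 := by
  unfold sg
  split_ifs
  · exact Or.inl rfl
  · exact Or.inr rfl

private theorem sg_nsq {q : ℕ} (hq : q.Prime) : ¬ IsSquare (sg q * (q : ℤ)) := by
  have hq0 : (0 : ℤ) < q := by exact_mod_cast hq.pos
  rcases sg_cases q with h | h
  · rw [h, one_mul]
    rintro ⟨r, hr⟩
    have h1 : q = r.natAbs * r.natAbs := by
      have h2 := congrArg Int.natAbs hr
      rwa [Int.natAbs_mul, Int.natAbs_natCast] at h2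
    rcases Nat.isUnit_iff.1 (hq.isUnit_or_isUnit h1 |>.elim id id) with h3
    rw [h3] at h1
    exact hq.one_lt.ne' h1
  · rw [h]
    rintro ⟨r, hr⟩
    nlinarith [mul_self_nonneg r]

/-- the two ranges together -/
private theorem two_logs {s L a i u c t : ℕ} (hs : 1 ≤ s) (hL : 3 ≤ L) (ha : 1 ≤ a) (hi : 1 ≤ i)
    (h1 : a ≤ u * 8) (h2 : c ≤ 16 * a) (h3 : i ≤ t * (2 * s)) :
    Real.sqrt (Real.log L / Real.log ((2 ^ u : ℕ) : ℝ)) *
      Real.sqrt (Real.log ((2 ^ c : ℕ) : ℝ) / Real.log ((2 ^ t : ℕ) : ℝ)) ≤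
      Real.sqrt (512 * s) * Real.sqrt (Real.log L / i) := by
  have hlL : 0 < Real.log L := Real.log_pos (by exact_mod_cast (by omega : 1 < L))
  have hl2 : (1 : ℝ) / 2 < Real.log 2 := by
    have := Real.log_two_gt_d9
    linarith
  have hl0 : 0 < Real.log 2 := by linarith
  have hlog : ∀ n : ℕ, Real.log ((2 ^ n : ℕ) : ℝ) = (n : ℝ) * Real.log 2 := by
    intro n
    push_cast
    rw [Real.log_pow]
  rw [hlog, hlog, hlog]
  have ha0 : (0 : ℝ) < a := by exact_mod_cast ha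
  have hs0 : (0 : ℝ) < s := by exact_mod_cast hs
  have hi0 : (0 : ℝ) < i := by exact_mod_cast hi
  have h1' : (a : ℝ) / 8 ≤ u := by
    rw [div_le_iff₀ (by norm_num)]
    exact_mod_cast h1
  have h2' : (c : ℝ) ≤ 16 * a := by exact_mod_cast h2
  have h3' : (i : ℝ) / (2 * s) ≤ t := by
    rw [div_le_iff₀ (by positivity)]
    exact_mod_cast h3
  have hu0 : (0 : ℝ) < u := lt_of_lt_of_le (by positivity) h1'
  have ht0 : (0 : ℝ) < t := lt_of_lt_of_le (by positivity) h3'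
  have hc0 : (0 : ℝ) ≤ c := Nat.cast_nonneg _
  rw [← Real.sqrt_mul (by positivity), ← Real.sqrt_mul (by positivity)]
  apply Real.sqrt_le_sqrt
  have e1 : Real.log L / ((u : ℝ) * Real.log 2) * ((c : ℝ) * Real.log 2 / ((t : ℝ) * Real.log 2)) =
      Real.log L * c / ((u : ℝ) * t * Real.log 2) := by
    field_simp
  rw [e1]
  have e2 : 512 * (s : ℝ) * (Real.log L / i) =
      Real.log L * (16 * a) / ((a / 8) * (i / (2 * s)) * (1 / 2)) := by
    field_simp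
    ring
  rw [e2]
  apply div_le_div₀ (by positivity) (mul_le_mul_of_nonneg_left h2' hlL.le) (by positivity)
  apply mul_le_mul (mul_le_mul h1' h3' (by positivity) hu0.le) hl2.le (by norm_num) (by positivity)

private theorem sq_ge_one {x y z : ℝ} (h : 1 < x) (hx : x = y ∨ x = z) : 1 ≤ y ^ 2 + z ^ 2 := by
  rcases hx with h1 | h1
  · rw [h1] at h
    nlinarith [sq_nonneg y, sq_nonneg z]
  · rw [h1] at h
    nlinarith [sq_nonneg y, sq_nonneg z]

theorem blk : ∃ C : ℝ, 0 < C ∧ ∃ k : ℕ, 8 ≤ k ∧ ∀ L a i : ℕ, 3 ≤ L → L ^ k ≤ 2 ^ a → a + 1 ≤ L → k * a ≤ i →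
    Cnt (2 ^ (a + i)) (fun n q => 2 ^ a ≤ q ∧ q < 2 ^ (a + 1) ∧ BadQ n q) ≤
      C * 2 ^ (a + i) * (1 / L + 1 / a * Real.sqrt (Real.log L / i)) := by
  classical
  obtain ⟨C1, hC1, hmom⟩ := mom
  obtain ⟨C2, hC2, s, hs, hone⟩ := one5
  obtain ⟨C3, hC3, hmass⟩ := two_mass
  set D : ℝ := C3 * Real.sqrt (512 * s) with hD
  have hD0 : 0 ≤ D := by positivity
  refine ⟨4 * C1 * C2 + 4 * C2 + 4 * C2 * D, by positivity, 16 * s, by omega, ?_⟩
  intro L a i hL hLa haL hi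
  have hs0 : 0 < s := by omega
  -- the parameters
  have hL8 : L ^ 8 ≤ 2 ^ a := (Nat.pow_le_pow_right (by omega) (by omega)).trans hLa
  have ha13 : 13 ≤ a := by
    by_contra hc
    have h1 : 2 ^ a ≤ 2 ^ 12 := Nat.pow_le_pow_right (by norm_num) (by omega)
    have h2 : 3 ^ 8 ≤ L ^ 8 := Nat.pow_le_pow_left hL 8
    norm_num at h1 h2
    omega
  obtain ⟨u, hu⟩ : ∃ u : ℕ, u = a / 4 := ⟨_, rfl⟩
  obtain ⟨c, hc⟩ : ∃ c : ℕ, c = 8 * (a + 3) := ⟨_, rfl⟩
  obtain ⟨t, ht⟩ : ∃ t : ℕ, t = i / s := ⟨_, rfl⟩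
  have hts : t * s ≤ i := by
    rw [ht]
    exact Nat.div_mul_le_self i s
  have hct : c ≤ t := by
    rw [ht, Nat.le_div_iff_mul_le hs0, hc]
    refine le_trans ?_ hi
    calc 8 * (a + 3) * s ≤ 16 * a * s := Nat.mul_le_mul_right s (by omega)
      _ = 16 * s * a := by ring
  have hit : i ≤ t * (2 * s) := by
    have h5 := Nat.div_add_mod i s
    have h6 := Nat.mod_lt i hs0
    rw [← ht] at h5
    have h8 : s * 1 ≤ s * t := Nat.mul_le_mul_left s (by omega)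
    rw [mul_one] at h8
    calc i = s * t + i % s := h5.symm
      _ ≤ s * t + s * t := Nat.add_le_add_left (h6.le.trans h8) _
      _ = t * (2 * s) := by ring
  have hi1 : 1 ≤ i := by
    refine le_trans ?_ hi
    calc 1 ≤ 16 * s := by omega
      _ = 16 * s * 1 := (mul_one _).symm
      _ ≤ 16 * s * a := Nat.mul_le_mul_left _ (by omega)
  have hau : a ≤ u * 8 := by omega
  have hca : c ≤ 16 * a := by omega
  have huc : u < c := by omega
  have hua : u < a := by omega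
  have h4q : ∀ q : ℕ, q < 2 ^ (a + 1) → (4 * q) ^ 8 ≤ 2 ^ c := by
    intro q hq
    have h7 : 4 * q ≤ 2 ^ (a + 3) := by
      have h8 : 2 ^ (a + 3) = 4 * 2 ^ (a + 1) := by ring
      omega
    have h8 := Nat.pow_le_pow_left h7 8
    refine h8.trans (le_of_eq ?_)
    rw [← pow_mul, hc, mul_comm]
  have hu4 : u * 4 ≤ a := by omega
  clear hc ht hu
  obtain ⟨U, hU⟩ : ∃ U : ℕ, U = 2 ^ u := ⟨_, rfl⟩
  obtain ⟨M, hM⟩ : ∃ M : ℕ, M = 2 ^ c := ⟨_, rfl⟩
  obtain ⟨z, hz⟩ : ∃ z : ℕ, z = 2 ^ t := ⟨_, rfl⟩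
  have hLU : L ≤ U := by
    have h1 : L ^ 8 ≤ U ^ 8 := by
      rw [hU, ← pow_mul]
      exact hL8.trans (Nat.pow_le_pow_right (by norm_num) hau)
    exact (Nat.pow_le_pow_iff_left (by norm_num)).1 h1
  have hU4 : U ^ 4 ≤ 2 ^ a := by
    rw [hU, ← pow_mul]
    exact Nat.pow_le_pow_right (by norm_num) hu4
  have hUM : U < M := by
    rw [hU, hM]
    exact Nat.pow_lt_pow_right (by norm_num) huc
  have hMz : M ≤ z := by
    rw [hM, hz]
    exact Nat.pow_le_pow_right (by norm_num) hct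
  have hUz : U ≤ z := hUM.le.trans hMz
  have hLz : L ≤ z := hLU.trans hUz
  have hzs : z ^ s ≤ 2 ^ i := by
    rw [hz, ← pow_mul]
    exact Nat.pow_le_pow_right (by norm_num) hts
  have hUa1 : U < 2 ^ a := by
    rw [hU]
    exact Nat.pow_lt_pow_right (by norm_num) hua
  have h7 : Real.sqrt (Real.log L / Real.log U) * Real.sqrt (Real.log M / Real.log z) ≤
      Real.sqrt (512 * s) * Real.sqrt (Real.log L / i) := by
    rw [hU, hM, hz]
    exact two_logs (by omega) hL (by omega) hi1 hau hca hit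
  have h4M : ∀ q : ℕ, q < 2 ^ (a + 1) → (4 * q) ^ 8 ≤ M := by
    rw [hM]
    exact h4q
  clear h4q hU hM hz
  have ha : 1 ≤ a := by omega
  have ha0 : (0 : ℝ) < a := by exact_mod_cast ha
  have ha1 : (1 : ℝ) ≤ a := by exact_mod_cast ha
  have hL0 : (0 : ℝ) < L := by exact_mod_cast (by omega : 0 < L)
  have hL1 : 1 / (L : ℝ) ≤ 1 := by
    rw [div_le_one hL0]
    exact_mod_cast (by omega : 1 ≤ L)
  have hpow : ((2 : ℝ) ^ (a + i)) = 2 ^ a * 2 ^ i := pow_add _ _ _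
  have hXa : (0 : ℝ) < 2 ^ a := by positivity
  have hXi : (0 : ℝ) < 2 ^ i := by positivity
  obtain ⟨T, hT⟩ : ∃ T : Finset ℕ, T = pr (2 ^ a) (2 ^ (a + 1)) := ⟨_, rfl⟩
  obtain ⟨W, hW⟩ : ∃ W : ℝ, W = Real.sqrt (Real.log L / i) := ⟨_, rfl⟩
  have hW0 : 0 ≤ W := by
    rw [hW]
    exact Real.sqrt_nonneg _
  have hTq : ∀ q ∈ T, q.Prime ∧ q ≠ 2 ∧ 2 ^ a ≤ q ∧ q < 2 ^ (a + 1) := by
    intro q hq
    rw [hT] at hq
    have h1 := mem_pr.1 hq
    have h2 : U < q := lt_of_lt_of_le hUa1 h1.1.1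
    exact ⟨h1.2, by omega, h1.1.1, h1.1.2⟩
  -- the bound for one `q`
  have hq1 : ∀ q ∈ T, Cnt (2 ^ (a + i)) (fun n q' => q' = q ∧ BadQ n q') ≤
      C2 * 2 ^ i * (Real.exp (-(∑ p ∈ NR (sg q) L U q ∪ NR (sg q) M z q, (1 : ℝ) / p)) + 1 / L) := by
    intro q hq
    obtain ⟨h1, h2, h3, h4⟩ := hTq q hq
    have h5 := hone (2 ^ i) z L q hL hLz hzs h1 h2 (NR (sg q) L U q ∪ NR (sg q) M z q) (by
      intro p hp
      rw [mem_union] at hp
      rcases hp with hp | hp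
      · have h6 := mem_filter.1 hp
        have h7 := mem_pr.1 h6.1
        exact mem_filter.2 ⟨mem_pr.2 ⟨⟨h7.1.1, by omega⟩, h7.2⟩, h6.2⟩
      · have h6 := mem_filter.1 hp
        have h7 := mem_pr.1 h6.1
        exact mem_filter.2 ⟨mem_pr.2 ⟨⟨by omega, h7.1.2⟩, h7.2⟩, h6.2⟩)
    push_cast at h5
    refine (Cnt_monoN ?_ _).trans h5
    rw [pow_add]
    exact Nat.mul_le_mul_right _ h3
  obtain ⟨E, hE⟩ : ∃ E : Finset ℕ, E = T.filter (fun q => 1 < FS (sg q) L U q) := ⟨_, rfl⟩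
  have hsplit : Cnt (2 ^ (a + i)) (fun n q => 2 ^ a ≤ q ∧ q < 2 ^ (a + 1) ∧ BadQ n q) ≤
      ∑ q ∈ T, Cnt (2 ^ (a + i)) (fun n q' => q' = q ∧ BadQ n q') := by
    refine Cnt_sum _ _ T (fun q n q' => q' = q ∧ BadQ n q') ?_
    intro n q _ _ hQ
    refine ⟨q, ?_, rfl, hQ.2.2⟩
    rw [hT]
    exact mem_pr.2 ⟨⟨hQ.1, hQ.2.1⟩, hQ.2.2.1⟩
  have hEc : (E.card : ℝ) ≤ 2 * C1 * 2 ^ a / L := by
    have h1 : (E.card : ℝ) ≤ ∑ n ∈ Ico (2 ^ a) (2 ^ (a + 1)), (FS 1 L U n ^ 2 + FS (-1) L U n ^ 2) := by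
      calc (E.card : ℝ) = ∑ _n ∈ E, (1 : ℝ) := by simp
        _ ≤ ∑ n ∈ E, (FS 1 L U n ^ 2 + FS (-1) L U n ^ 2) := by
            refine sum_le_sum fun n hn => ?_
            rw [hE] at hn
            have h2 := (mem_filter.1 hn).2
            refine sq_ge_one h2 ?_
            rcases sg_cases n with h3 | h3
            · exact Or.inl (by rw [h3])
            · exact Or.inr (by rw [h3])
        _ ≤ _ := by
            refine sum_le_sum_of_subset_of_nonneg ?_ (fun n _ _ => by positivity)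
            intro n hn
            rw [hE] at hn
            have h2 := hTq n (mem_filter.1 hn).1
            exact mem_Ico.2 ⟨h2.2.2.1, h2.2.2.2⟩
    rw [sum_add_distrib] at h1
    have h2 := hmom 1 (Or.inl rfl) L U a hL hLU hU4
    have h3 := hmom (-1) (Or.inr rfl) L U a hL hLU hU4
    calc (E.card : ℝ) ≤ _ := h1
      _ ≤ C1 * 2 ^ a / L + C1 * 2 ^ a / L := add_le_add h2 h3
      _ = _ := by ring
  have hTc : (T.card : ℝ) ≤ 4 * 2 ^ a / a := by
    rw [hT]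
    exact dyad a ha
  have hbd : ∀ q ∈ T, Cnt (2 ^ (a + i)) (fun n q' => q' = q ∧ BadQ n q') ≤
      C2 * 2 ^ i * (D * W + 1 / L) + (if q ∈ E then 2 * (C2 * 2 ^ i) else 0) := by
    intro q hq
    obtain ⟨h1, h2, h3, h4⟩ := hTq q hq
    refine (hq1 q hq).trans ?_
    have hA : 0 ≤ C2 * 2 ^ i := by positivity
    by_cases hqE : q ∈ E
    · rw [if_pos hqE]
      have h5 : Real.exp (-(∑ p ∈ NR (sg q) L U q ∪ NR (sg q) M z q, (1 : ℝ) / p)) ≤ 1 := by
        rw [Real.exp_le_one_iff, neg_nonpos]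
        exact sum_nonneg fun p _ => by positivity
      have h6 : 0 ≤ D * W := by positivity
      have h7 := mul_le_mul_of_nonneg_left h5 hA
      have h8 := mul_nonneg hA h6
      nlinarith
    · rw [if_neg hqE, add_zero]
      apply mul_le_mul_of_nonneg_left _ hA
      have h5 : FS (sg q) L U q ≤ 1 := by
        by_contra hc
        push Not at hc
        apply hqE
        rw [hE]
        exact mem_filter.2 ⟨hq, hc⟩
      have h6 := hmass (sg q) L U M z q (sg_cases q) hL hLU hUM (h4M q h4) hMz h1.one_lt.le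
        (lt_of_lt_of_le h4 (Nat.pow_le_pow_right (by norm_num) haL)) (sg_nsq h1) h5
      have h8 : C3 * (Real.sqrt (Real.log L / Real.log U) * Real.sqrt (Real.log M / Real.log z)) ≤
          D * W := by
        rw [hD, hW, mul_assoc]
        exact mul_le_mul_of_nonneg_left h7 hC3.le
      have h9 := h6.trans h8
      linarith
  have hfin : Cnt (2 ^ (a + i)) (fun n q => 2 ^ a ≤ q ∧ q < 2 ^ (a + 1) ∧ BadQ n q) ≤
      T.card * (C2 * 2 ^ i * (D * W + 1 / L)) + E.card * (2 * (C2 * 2 ^ i)) := by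
    refine hsplit.trans ((sum_le_sum hbd).trans (le_of_eq ?_))
    have hEE : T.filter (fun q => q ∈ E) = E := by
      ext q
      rw [mem_filter]
      refine ⟨fun h => h.2, fun h => ⟨?_, h⟩⟩
      rw [hE] at h
      exact (mem_filter.1 h).1
    rw [sum_add_distrib, sum_const, nsmul_eq_mul, ← sum_filter, hEE, sum_const, nsmul_eq_mul]
  rw [← hW]
  refine hfin.trans ?_
  have hpos : 0 ≤ C2 * 2 ^ i * (D * W + 1 / L) := by positivity
  have e1 := mul_le_mul_of_nonneg_right hTc hpos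
  have e2 := mul_le_mul_of_nonneg_right hEc (show (0 : ℝ) ≤ 2 * (C2 * 2 ^ i) by positivity)
  refine (add_le_add e1 e2).trans ?_
  rw [hpow]
  have e3 : 4 * 2 ^ a / (a : ℝ) * (C2 * 2 ^ i * (D * W + 1 / L)) =
      2 ^ a * 2 ^ i * (4 * C2 * D * (1 / a * W)) +
        2 ^ a * 2 ^ i * (4 * C2 * (1 / a * (1 / L))) := by
    field_simp
  have e4 : 2 * C1 * 2 ^ a / (L : ℝ) * (2 * (C2 * 2 ^ i)) =
      2 ^ a * 2 ^ i * (4 * C1 * C2 * (1 / L)) := by
    field_simp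
    ring
  rw [e3, e4]
  have e5 : 1 / (a : ℝ) * (1 / L) ≤ 1 / L := by
    have h1 : 1 / (a : ℝ) ≤ 1 := by
      rw [div_le_one ha0]
      exact ha1
    exact mul_le_of_le_one_left (by positivity) h1
  have e6 : 0 ≤ 1 / (a : ℝ) * W := by positivity
  have e7 : 0 ≤ 1 / (L : ℝ) := by positivity
  have hXX : (0 : ℝ) < 2 ^ a * 2 ^ i := by positivity
  have e8 : 4 * C2 * D * (1 / a * W) + 4 * C2 * (1 / a * (1 / L)) +
      4 * C1 * C2 * (1 / L) ≤
      (4 * C1 * C2 + 4 * C2 + 4 * C2 * D) * (1 / L + 1 / a * W) := by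
    have f2 : 0 ≤ C2 * D * (1 / L) := by positivity
    have f3 : 0 ≤ C1 * C2 * (1 / a * W) := by positivity
    have f4 : 0 ≤ C2 * (1 / a * W) := by positivity
    have f5 := mul_le_mul_of_nonneg_left e5 hC2.le
    nlinarith
  calc _ = 2 ^ a * 2 ^ i * (4 * C2 * D * (1 / a * W) +
        4 * C2 * (1 / a * (1 / L)) + 4 * C1 * C2 * (1 / L)) := by ring
    _ ≤ 2 ^ a * 2 ^ i * ((4 * C1 * C2 + 4 * C2 + 4 * C2 * D) *
        (1 / L + 1 / a * W)) := mul_le_mul_of_nonneg_left e8 hXX.le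
    _ = _ := by ring

end Pool.Agent.H37.OH.BlkP
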