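import Pool.Agent.H12.FO.Mas
import Pool.Agent.H12.FO.Rcp
import Pool.Agent.H12.FO.Mom

/-!
PROJECT OH (MP_5bfab0_co, OddFixedPoints): the exponent `1 / 2` in the number of exceptional orders.  Definitions.
-/

set_option autoImplicit false

namespace Pool.Agent.H37.OH

open Finset
open Pool.Agent.H37.PPC (pr mem_pr)
open Pool.Agent.H12.FO

/-- `q` is a bad prime for `n` (all classes) -/
def BadQ (n q : ℕ) : Prop := q.Prime ∧ q ≠ 2 ∧ q ∣ n * (n + 1) * (n - 1) * (n ^ 2 + n + 1) ∧ Tq n q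

/-- the roots of `r² + r + 1` modulo `u` -/
def rts (u : ℕ) : Finset ℕ := (range u).filter (fun r => u ∣ r ^ 2 + r + 1)

/-- the loss from the primes which divide `u` -/
noncomputable def hh (u : ℕ) : ℝ := Real.exp (∑ p ∈ u.primeFactors.filter (fun p => p % 3 = 1), 2 / (p : ℝ))

/-- the local factor -/
noncomputable def gg (p : ℕ) : ℝ := if p % 3 = 1 then 2 * Real.exp (2 / p) else if p = 3 then 3 else 0

/-- the weight of `u` -/
noncomputable def G (u : ℕ) : ℝ := ∏ p ∈ u.primeFactors, gg p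

/-- `n² + n + 1 = u w`, `w` prime, no prime `p ≥ 5` with `(s u / p) = -1` divides `n` exactly once -/
def WP (s : ℤ) (n u w : ℕ) : Prop :=
  u * w = n ^ 2 + n + 1 ∧ w.Prime ∧ ∀ p : ℕ, p.Prime → 5 ≤ p → jacobiSym (s * u) p = -1 → p ∣ n → p ^ 2 ∣ n

theorem gg_nonneg (p : ℕ) : 0 ≤ gg p := by
  unfold gg
  split_ifs
  · positivity
  · norm_num
  · exact le_rfl

theorem G_nonneg (u : ℕ) : 0 ≤ G u := prod_nonneg fun p _ => gg_nonneg p

theorem hh_ge (u : ℕ) : 1 ≤ hh u := by
  unfold hh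
  exact Real.one_le_exp (sum_nonneg fun p _ => by positivity)

end Pool.Agent.H37.OH
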