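import Pool.Agent.H37.OH.Defs
import Pool.Agent.H37.PPC.Mt
import Pool.Agent.H37.PPC.TS
import Pool.Agent.H37.PPC.Ch

/-!
PROJECT OH (MP_5bfab0_co, OddFixedPoints): Euler products for the weight `G`.
-/

set_option autoImplicit false

namespace Pool.Agent.H37.OH

open Finset
open Pool.Agent.H37.PPC (pr mem_pr)
open Pool.Agent.H12.FO

namespace Eul

/-- the sum over `u ≤ V` of a multiplicative weight is at most the Euler product -/
theorem eul_le (g : ℕ → ℝ) (hg : ∀ p, 0 ≤ g p) (s V : ℕ) (hs : 1 ≤ s) :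
    ∑ u ∈ Icc 1 V, (∏ p ∈ u.primeFactors, g p) / (u : ℝ) ^ s ≤
      Real.exp (∑ p ∈ pr 2 (V + 1), g p / ((p : ℝ) ^ s - 1)) := by
  classical
  set f : ℕ → ℝ := fun u => (∏ p ∈ u.primeFactors, g p) / (u : ℝ) ^ s with hf
  have hf0 : ∀ u, 0 ≤ f u := fun u => div_nonneg (prod_nonneg fun p _ => hg p) (by positivity)
  have hf1 : f 1 = 1 := by simp [hf]
  have hmul : ∀ {m n : ℕ}, Nat.Coprime m n → f (m * n) = f m * f n := by
    intro m n h
    simp only [hf]
    rw [Nat.Coprime.primeFactors_mul h, Finset.prod_union (Nat.Coprime.disjoint_primeFactors h)]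
    push_cast
    rw [mul_pow, div_mul_div_comm]
  have hr : ∀ {p : ℕ}, p.Prime → 1 < (p : ℝ) ^ s := by
    intro p hp
    exact one_lt_pow₀ (by exact_mod_cast hp.one_lt) (by omega)
  have hpow : ∀ {p : ℕ}, p.Prime → ∀ k : ℕ, f (p ^ (k + 1)) = g p * (((p : ℝ) ^ s)⁻¹ * (((p : ℝ) ^ s)⁻¹) ^ k) := by
    intro p hp k
    simp only [hf]
    rw [Nat.primeFactors_prime_pow (by omega) hp, Finset.prod_singleton]
    push_cast
    rw [← pow_succ', div_eq_mul_inv, inv_pow, ← pow_mul, ← pow_mul, mul_comm s (k + 1)]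
  have hgeo : ∀ {p : ℕ}, p.Prime → HasSum (fun k : ℕ => f (p ^ (k + 1))) (g p / ((p : ℝ) ^ s - 1)) := by
    intro p hp
    have h1 := hr hp
    have h2 : ((p : ℝ) ^ s)⁻¹ < 1 := inv_lt_one_of_one_lt₀ h1
    have h3 : 0 ≤ ((p : ℝ) ^ s)⁻¹ := by positivity
    have h4 := ((hasSum_geometric_of_lt_one h3 h2).mul_left (((p : ℝ) ^ s)⁻¹)).mul_left (g p)
    have h5 : g p * (((p : ℝ) ^ s)⁻¹ * (1 - ((p : ℝ) ^ s)⁻¹)⁻¹) = g p / ((p : ℝ) ^ s - 1) := by
      have h6 : (p : ℝ) ^ s ≠ 0 := by linarith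
      have h7 : (p : ℝ) ^ s - 1 ≠ 0 := by linarith
      rw [← mul_inv, mul_sub, mul_one, mul_inv_cancel₀ h6, div_eq_mul_inv]
    rw [h5] at h4
    have h8 : (fun k : ℕ => f (p ^ (k + 1))) = fun k : ℕ => g p * (((p : ℝ) ^ s)⁻¹ * (((p : ℝ) ^ s)⁻¹) ^ k) := by
      funext k
      exact hpow hp k
    rw [h8]
    exact h4
  have hsum : ∀ {p : ℕ}, p.Prime → Summable (fun n : ℕ => ‖f (p ^ n)‖) := by
    intro p hp
    have h1 : Summable (fun n : ℕ => f (p ^ n)) := (summable_nat_add_iff 1).mp (hgeo hp).summable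
    exact h1.norm
  have hE := EulerProduct.summable_and_hasSum_factoredNumbers_prod_filter_prime_tsum hf1 hmul hsum (Ico 2 (V + 1))
  have hts : ∀ {p : ℕ}, p.Prime → ∑' n : ℕ, f (p ^ n) = 1 + g p / ((p : ℝ) ^ s - 1) := by
    intro p hp
    have h1 : Summable (fun n : ℕ => f (p ^ n)) := (summable_nat_add_iff 1).mp (hgeo hp).summable
    rw [h1.tsum_eq_zero_add, pow_zero, hf1, (hgeo hp).tsum_eq]
  -- the finite sum is at most the sum over the factored numbers
  have hmem : ∀ u ∈ Icc 1 V, u ∈ Nat.factoredNumbers (Ico 2 (V + 1)) := by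
    intro u hu
    rw [mem_Icc] at hu
    rw [Nat.mem_factoredNumbers]
    refine ⟨by omega, fun p hp => ?_⟩
    have hp1 := Nat.prime_of_mem_primeFactorsList hp
    have hp2 := Nat.le_of_mem_primeFactorsList hp
    rw [mem_Ico]
    exact ⟨hp1.two_le, by omega⟩
  have h1 : ∑ u ∈ Icc 1 V, f u ≤ ∏ p ∈ Ico 2 (V + 1) with p.Prime, ∑' n : ℕ, f (p ^ n) := by
    rw [← hE.2.tsum_eq]
    have h2 : ∑ u ∈ Icc 1 V, f u =
        ∑ u ∈ (Icc 1 V).attach.image (fun u => (⟨u.1, hmem u.1 u.2⟩ : Nat.factoredNumbers (Ico 2 (V + 1)))), f u := by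
      rw [Finset.sum_image]
      · exact (Finset.sum_attach (Icc 1 V) f).symm
      · intro a _ b _ hab
        have := congrArg Subtype.val hab
        exact Subtype.ext this
    rw [h2]
    exact hE.2.summable.sum_le_tsum _ (fun i _ => hf0 _)
  refine h1.trans ?_
  rw [Real.exp_sum]
  refine Finset.prod_le_prod (fun p hp => ?_) (fun p hp => ?_)
  · exact tsum_nonneg fun n => hf0 _
  · have hp' : p.Prime := (Finset.mem_filter.mp hp).2
    rw [hts hp', add_comm]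
    exact Real.add_one_le_exp _

/-- `gg p ≤ 4` for primes -/
theorem gg_le {p : ℕ} (hp : p.Prime) : gg p ≤ 4 := by
  unfold gg
  split_ifs with h1 h2
  · have h7 : 7 ≤ p := by
      have := hp.two_le
      by_contra hlt
      push Not at hlt
      interval_cases p <;> revert hp h1 <;> decide
    have h7r : (7 : ℝ) ≤ p := by exact_mod_cast h7
    have hx : 2 / (p : ℝ) ≤ 2 / 7 := by gcongr
    have hx0 : 0 ≤ 2 / (p : ℝ) := by positivity
    have h3 := Real.exp_bound_div_one_sub_of_interval hx0 (by linarith)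
    have h4 : 1 / (1 - 2 / (p : ℝ)) ≤ 2 := by
      rw [div_le_iff₀ (by linarith)]
      linarith
    linarith
  · norm_num
  · norm_num

/-- the local factor at `s = 1` -/
theorem gg_loc {p : ℕ} (hp : p.Prime) :
    gg p / ((p : ℝ) ^ 1 - 1) ≤ (1 / (p : ℝ) + Pool.Agent.H37.PPC.chi3 p / p) + 11 * (1 / (p : ℝ) ^ 2) := by
  rw [pow_one]
  have h2 : 2 ≤ p := hp.two_le
  have h2r : (2 : ℝ) ≤ p := by exact_mod_cast h2
  unfold gg Pool.Agent.H37.PPC.chi3
  by_cases h1 : p % 3 = 1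
  · rw [if_pos h1, if_pos h1]
    have h7 : 7 ≤ p := by
      by_contra hlt
      push Not at hlt
      interval_cases p <;> revert hp h1 <;> decide
    have h7r : (7 : ℝ) ≤ p := by exact_mod_cast h7
    have hx : 2 / (p : ℝ) ≤ 2 / 7 := by gcongr
    have hx0 : 0 ≤ 2 / (p : ℝ) := by positivity
    have h3 := Real.exp_bound_div_one_sub_of_interval hx0 (by linarith)
    have h4 : 1 / (1 - 2 / (p : ℝ)) = p / (p - 2) := by
      have : (p : ℝ) ≠ 0 := by linarith
      have : (p : ℝ) - 2 ≠ 0 := by linarith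
      field_simp
    rw [h4] at h3
    have h5 : 2 * Real.exp (2 / (p : ℝ)) / (p - 1) ≤ 2 * (p / (p - 2)) / (p - 1) := by
      apply div_le_div_of_nonneg_right _ (by linarith)
      linarith
    refine h5.trans ?_
    have hp0 : (0 : ℝ) < p := by linarith
    have hp1 : (0 : ℝ) < p - 1 := by linarith
    have hp2 : (0 : ℝ) < p - 2 := by linarith
    have h6 : (1 / (p : ℝ) + 1 / p) + 11 * (1 / (p : ℝ) ^ 2) - 2 * (p / (p - 2)) / (p - 1) =
        (5 * (p : ℝ) ^ 2 - 29 * p + 22) / (p ^ 2 * (p - 2) * (p - 1)) := by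
      field_simp
      ring
    have h7 : 0 ≤ (5 * (p : ℝ) ^ 2 - 29 * p + 22) / (p ^ 2 * (p - 2) * (p - 1)) := by
      apply div_nonneg
      · nlinarith
      · positivity
    linarith
  · rw [if_neg h1, if_neg h1]
    by_cases h3 : p = 3
    · subst h3
      norm_num
    · rw [if_neg h3]
      have h4 : p % 3 = 2 := by
        have h5 : p % 3 ≠ 0 := by
          intro h
          have := (Nat.prime_dvd_prime_iff_eq Nat.prime_three hp).mp (Nat.dvd_of_mod_eq_zero h)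
          omega
        omega
      rw [if_pos h4]
      have : (1 / (p : ℝ) + -1 / p) = 0 := by ring
      rw [this, zero_div]
      positivity

/-- the sum of `1 / p²` -/
theorem sq_sum : ∃ C : ℝ, 0 < C ∧ ∀ V : ℕ, ∑ p ∈ pr 2 (V + 1), 1 / (p : ℝ) ^ 2 ≤ C := by
  have hs : Summable (fun n : ℕ => 1 / (n : ℝ) ^ 2) := Real.summable_one_div_nat_pow.mpr (by norm_num)
  refine ⟨∑' n : ℕ, 1 / (n : ℝ) ^ 2, ?_, fun V => ?_⟩
  · exact hs.tsum_pos (fun n => by positivity) 1 (by norm_num)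
  · exact hs.sum_le_tsum _ (fun n _ => by positivity)

/-- the sum of `1 / p` -/
theorem inv_sum : ∃ C : ℝ, 0 < C ∧ ∀ V : ℕ, 2 ≤ V →
    ∑ p ∈ pr 2 (V + 1), 1 / (p : ℝ) ≤ Real.log (Real.log ((V + 1 : ℕ) : ℝ)) + C := by
  obtain ⟨C, hC, h⟩ := Pool.Agent.H37.PPC.mertens_two
  refine ⟨C + |Real.log (Real.log 2)| , by positivity, fun V hV => ?_⟩
  have h1 := (abs_le.mp (h 2 (V + 1) le_rfl (by omega))).2
  have h2 := neg_abs_le (Real.log (Real.log 2))
  push_cast at h1 ⊢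
  linarith

/-- the sum of `chi3 p / p` -/
theorem chi_sum : ∃ C : ℝ, 0 < C ∧ ∀ V : ℕ, 2 ≤ V →
    ∑ p ∈ pr 2 (V + 1), Pool.Agent.H37.PPC.chi3 p / (p : ℝ) ≤ C := by
  obtain ⟨C, hC, h⟩ := Pool.Agent.H37.PPC.TW_sum
  have hone : ∀ p : ℕ, p.Prime → Pool.Agent.H37.PPC.chi3 p / (p : ℝ) ≤ 1 := by
    intro p hp
    have h2r : (2 : ℝ) ≤ p := by exact_mod_cast hp.two_le
    have h3 : Pool.Agent.H37.PPC.chi3 p ≤ 1 := by
      unfold Pool.Agent.H37.PPC.chi3
      split_ifs <;> norm_num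
    rw [div_le_one (by linarith)]
    linarith
  have hsm : ∀ W : ℕ, W ≤ 6561 → ∑ p ∈ pr 2 W, Pool.Agent.H37.PPC.chi3 p / (p : ℝ) ≤ 6561 := by
    intro W hW
    calc ∑ p ∈ pr 2 W, Pool.Agent.H37.PPC.chi3 p / (p : ℝ) ≤ ∑ p ∈ pr 2 W, (1 : ℝ) :=
          Finset.sum_le_sum fun p hp => hone p (mem_pr.mp hp).2
      _ = ((pr 2 W).card : ℝ) := by rw [Finset.sum_const, nsmul_eq_mul, mul_one]
      _ ≤ 6561 := by
          have h1 : (pr 2 W).card ≤ W := by
            refine (Finset.card_le_card (Finset.filter_subset _ _)).trans ?_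
            rw [Nat.card_Ico]
            omega
          exact_mod_cast h1.trans hW
  refine ⟨C + 6561, by positivity, fun V hV => ?_⟩
  by_cases hV1 : V + 1 ≤ 6561
  · exact (hsm _ hV1).trans (by linarith)
  · push Not at hV1
    have hd : pr 2 (V + 1) = pr 2 6561 ∪ pr 6561 (V + 1) := by
      ext p
      simp only [mem_union, mem_pr]
      constructor
      · rintro ⟨⟨h1, h2⟩, h3⟩
        by_cases h4 : p < 6561
        · exact Or.inl ⟨⟨h1, h4⟩, h3⟩
        · exact Or.inr ⟨⟨by omega, h2⟩, h3⟩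
      · rintro (⟨⟨h1, h2⟩, h3⟩ | ⟨⟨h1, h2⟩, h3⟩)
        · exact ⟨⟨h1, by omega⟩, h3⟩
        · exact ⟨⟨by omega, h2⟩, h3⟩
    have hdis : Disjoint (pr 2 6561) (pr 6561 (V + 1)) := by
      rw [Finset.disjoint_left]
      intro p hp hq
      have h1 := (mem_pr.mp hp).1.2
      have h2 := (mem_pr.mp hq).1.1
      omega
    rw [hd, Finset.sum_union hdis]
    have h1 := hsm 6561 le_rfl
    have h2 := h Pool.Agent.H37.PPC.chi3 3 (by norm_num) Pool.Agent.H37.PPC.chi3_TW 6561 (V + 1) (by norm_num) (by omega)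
    linarith

end Eul

open Eul

theorem G_sums : ∃ C : ℝ, 0 < C ∧ ∃ A : ℕ,
    (∀ V : ℕ, 2 ≤ V → ∑ u ∈ Icc 1 V, G u / u ≤ C * Real.log V) ∧
    (∀ a : ℕ, 1 ≤ a → ∑ u ∈ Ico (2 ^ a) (2 ^ (a + 1)), G u ^ 2 ≤ C * 2 ^ a * (a : ℝ) ^ A) ∧
    (∀ V : ℕ, ∑ k ∈ Icc 1 V, G k / (k : ℝ) ^ 2 ≤ C) := by
  obtain ⟨C₁, hC₁, hinv⟩ := inv_sum
  obtain ⟨C₂, hC₂, hchi⟩ := chi_sum
  obtain ⟨C₃, hC₃, hsq⟩ := sq_sum
  have k1 : ∀ V : ℕ, 2 ≤ V → ∑ u ∈ Icc 1 V, G u / u ≤ (2 * Real.exp (C₁ + C₂ + 11 * C₃)) * Real.log V := by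
    intro V hV
    have hVr : (2 : ℝ) ≤ V := by exact_mod_cast hV
    have h1 := eul_le gg gg_nonneg 1 V le_rfl
    have h2 : ∑ p ∈ pr 2 (V + 1), gg p / ((p : ℝ) ^ 1 - 1) ≤
        Real.log (Real.log ((V + 1 : ℕ) : ℝ)) + (C₁ + C₂ + 11 * C₃) := by
      calc ∑ p ∈ pr 2 (V + 1), gg p / ((p : ℝ) ^ 1 - 1) ≤
          ∑ p ∈ pr 2 (V + 1), ((1 / (p : ℝ) + Pool.Agent.H37.PPC.chi3 p / p) + 11 * (1 / (p : ℝ) ^ 2)) :=
            Finset.sum_le_sum fun p hp => gg_loc (mem_pr.mp hp).2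
        _ = (∑ p ∈ pr 2 (V + 1), 1 / (p : ℝ)) + (∑ p ∈ pr 2 (V + 1), Pool.Agent.H37.PPC.chi3 p / (p : ℝ)) +
            11 * ∑ p ∈ pr 2 (V + 1), 1 / (p : ℝ) ^ 2 := by
            rw [Finset.sum_add_distrib, Finset.sum_add_distrib, Finset.mul_sum]
        _ ≤ _ := by
            have a1 := hinv V hV
            have a2 := hchi V hV
            have a3 := hsq V
            linarith
    have h3 : Real.exp (∑ p ∈ pr 2 (V + 1), gg p / ((p : ℝ) ^ 1 - 1)) ≤
        Real.log ((V + 1 : ℕ) : ℝ) * Real.exp (C₁ + C₂ + 11 * C₃) := by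
      refine (Real.exp_le_exp.mpr h2).trans (le_of_eq ?_)
      rw [Real.exp_add, Real.exp_log]
      apply Real.log_pos
      push_cast
      linarith
    have h4 : Real.log ((V + 1 : ℕ) : ℝ) ≤ 2 * Real.log V := by
      have : 2 * Real.log (V : ℝ) = Real.log ((V : ℝ) ^ 2) := by rw [Real.log_pow]; norm_num
      rw [this]
      apply Real.log_le_log (by positivity)
      push_cast
      nlinarith
    have h5 : ∑ u ∈ Icc 1 V, G u / u = ∑ u ∈ Icc 1 V, (∏ p ∈ u.primeFactors, gg p) / (u : ℝ) ^ 1 := by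
      refine Finset.sum_congr rfl fun u _ => ?_
      rw [pow_one]
      rfl
    rw [h5]
    refine h1.trans (h3.trans ?_)
    have h6 := Real.exp_pos (C₁ + C₂ + 11 * C₃)
    calc Real.log ((V + 1 : ℕ) : ℝ) * Real.exp (C₁ + C₂ + 11 * C₃) ≤
        (2 * Real.log V) * Real.exp (C₁ + C₂ + 11 * C₃) := by gcongr
      _ = _ := by ring
  have k2 : ∀ a : ℕ, 1 ≤ a → ∑ u ∈ Ico (2 ^ a) (2 ^ (a + 1)), G u ^ 2 ≤
      (2 * Real.exp (32 * C₁) * 3 ^ 32) * 2 ^ a * (a : ℝ) ^ 32 := by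
    intro a ha
    have har : (1 : ℝ) ≤ a := by exact_mod_cast ha
    set V : ℕ := 2 ^ (a + 1) with hVdef
    have hV2 : 2 ≤ V := by
      calc 2 = 2 ^ 1 := by norm_num
        _ ≤ 2 ^ (a + 1) := Nat.pow_le_pow_right (by norm_num) (by omega)
    have h1 := eul_le (fun p => gg p ^ 2) (fun p => by positivity) 1 V le_rfl
    have h2 : ∑ p ∈ pr 2 (V + 1), gg p ^ 2 / ((p : ℝ) ^ 1 - 1) ≤
        32 * (Real.log (Real.log ((V + 1 : ℕ) : ℝ)) + C₁) := by
      calc ∑ p ∈ pr 2 (V + 1), gg p ^ 2 / ((p : ℝ) ^ 1 - 1) ≤ ∑ p ∈ pr 2 (V + 1), 32 * (1 / (p : ℝ)) := by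
            refine Finset.sum_le_sum fun p hp => ?_
            have hp' := (mem_pr.mp hp).2
            have hp2 : (2 : ℝ) ≤ p := by exact_mod_cast hp'.two_le
            have a1 := gg_le hp'
            have a2 := gg_nonneg p
            rw [pow_one, mul_one_div, div_le_div_iff₀ (by linarith) (by linarith)]
            have a3 : gg p ^ 2 ≤ 16 := by nlinarith
            nlinarith
        _ = 32 * ∑ p ∈ pr 2 (V + 1), 1 / (p : ℝ) := by rw [Finset.mul_sum]
        _ ≤ _ := by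
            have := hinv V hV2
            linarith
    have hlogpos : 0 < Real.log ((V + 1 : ℕ) : ℝ) := by
      apply Real.log_pos
      have : (2 : ℝ) ≤ V := by exact_mod_cast hV2
      push_cast
      linarith
    have h3 : Real.exp (∑ p ∈ pr 2 (V + 1), gg p ^ 2 / ((p : ℝ) ^ 1 - 1)) ≤
        Real.exp (32 * C₁) * Real.log ((V + 1 : ℕ) : ℝ) ^ 32 := by
      refine (Real.exp_le_exp.mpr h2).trans (le_of_eq ?_)
      rw [mul_add, Real.exp_add, mul_comm]
      congr 1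
      have : (32 : ℝ) * Real.log (Real.log ((V + 1 : ℕ) : ℝ)) =
          Real.log (Real.log ((V + 1 : ℕ) : ℝ) ^ 32) := by
        rw [Real.log_pow]
        norm_num
      rw [this, Real.exp_log (by positivity)]
    have h4 : Real.log ((V + 1 : ℕ) : ℝ) ≤ 3 * a := by
      have a1 : ((V + 1 : ℕ) : ℝ) ≤ 2 ^ (a + 2) := by
        have : V + 1 ≤ 2 ^ (a + 2) := by
          have : 2 ^ (a + 2) = 2 * V := by rw [hVdef]; ring
          omega
        exact_mod_cast this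
      have a2 : Real.log ((V + 1 : ℕ) : ℝ) ≤ Real.log (2 ^ (a + 2)) := Real.log_le_log (by positivity) a1
      rw [Real.log_pow] at a2
      have a3 : Real.log 2 ≤ 1 := by
        have := Real.log_two_lt_d9
        linarith
      have a4 : 0 ≤ Real.log 2 := Real.log_nonneg (by norm_num)
      have a5 : ((a + 2 : ℕ) : ℝ) * Real.log 2 ≤ 3 * a := by
        push_cast
        nlinarith
      exact a2.trans a5
    have h5 : ∑ u ∈ Ico (2 ^ a) (2 ^ (a + 1)), G u ^ 2 ≤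
        2 ^ (a + 1) * ∑ u ∈ Icc 1 V, (∏ p ∈ u.primeFactors, gg p ^ 2) / (u : ℝ) ^ 1 := by
      rw [Finset.mul_sum]
      have hsub : Ico (2 ^ a) (2 ^ (a + 1)) ⊆ Icc 1 V := by
        intro u hu
        rw [mem_Ico] at hu
        rw [mem_Icc]
        have := Nat.one_le_two_pow (n := a)
        exact ⟨by omega, by omega⟩
      refine le_trans ?_ (Finset.sum_le_sum_of_subset_of_nonneg hsub fun u _ _ => ?_)
      · refine Finset.sum_le_sum fun u hu => ?_
        rw [mem_Ico] at hu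
        have hu1 : 1 ≤ u := (Nat.one_le_two_pow (n := a)).trans hu.1
        have hu0 : (0 : ℝ) < u := by exact_mod_cast hu1
        have huV : (u : ℝ) ≤ 2 ^ (a + 1) := by exact_mod_cast hu.2.le
        have hG : ∏ p ∈ u.primeFactors, gg p ^ 2 = G u ^ 2 := by
          rw [Finset.prod_pow]
          rfl
        rw [hG, pow_one, mul_div_assoc', le_div_iff₀ hu0, mul_comm]
        have : 0 ≤ G u ^ 2 := by positivity
        nlinarith
      · have : 0 ≤ ∏ p ∈ u.primeFactors, gg p ^ 2 := Finset.prod_nonneg fun p _ => by positivity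
        positivity
    refine h5.trans ?_
    have h6 : Real.log ((V + 1 : ℕ) : ℝ) ^ 32 ≤ (3 * (a : ℝ)) ^ 32 := by gcongr
    calc (2 : ℝ) ^ (a + 1) * ∑ u ∈ Icc 1 V, (∏ p ∈ u.primeFactors, gg p ^ 2) / (u : ℝ) ^ 1 ≤
        2 ^ (a + 1) * (Real.exp (32 * C₁) * (3 * (a : ℝ)) ^ 32) := by
          apply mul_le_mul_of_nonneg_left _ (by positivity)
          refine h1.trans (h3.trans ?_)
          exact mul_le_mul_of_nonneg_left h6 (Real.exp_pos _).le
      _ = _ := by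
          rw [mul_pow]
          ring
  have k3 : ∀ V : ℕ, ∑ k ∈ Icc 1 V, G k / (k : ℝ) ^ 2 ≤ Real.exp (8 * C₃) := by
    intro V
    refine (eul_le gg gg_nonneg 2 V (by norm_num)).trans (Real.exp_le_exp.mpr ?_)
    calc ∑ p ∈ pr 2 (V + 1), gg p / ((p : ℝ) ^ 2 - 1) ≤ ∑ p ∈ pr 2 (V + 1), 8 * (1 / (p : ℝ) ^ 2) := by
          refine Finset.sum_le_sum fun p hp => ?_
          have hp' := (mem_pr.mp hp).2
          have hp2 : (2 : ℝ) ≤ p := by exact_mod_cast hp'.two_le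
          have a1 := gg_le hp'
          have a2 := gg_nonneg p
          rw [mul_one_div, div_le_div_iff₀ (by nlinarith) (by positivity)]
          nlinarith
      _ = 8 * ∑ p ∈ pr 2 (V + 1), 1 / (p : ℝ) ^ 2 := by rw [Finset.mul_sum]
      _ ≤ 8 * C₃ := by
          have := hsq V
          linarith
  set D₁ := 2 * Real.exp (C₁ + C₂ + 11 * C₃) with hD₁
  set D₂ := 2 * Real.exp (32 * C₁) * 3 ^ 32 with hD₂
  set D₃ := Real.exp (8 * C₃) with hD₃
  have e1 : 0 < D₁ := by positivity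
  have e2 : 0 < D₂ := by positivity
  have e3 : 0 < D₃ := by positivity
  refine ⟨D₁ + D₂ + D₃, by positivity, 32, fun V hV => ?_, fun a ha => ?_, fun V => ?_⟩
  · refine (k1 V hV).trans ?_
    have : 0 ≤ Real.log V := Real.log_nonneg (by exact_mod_cast (by omega : 1 ≤ V))
    gcongr
    linarith
  · refine (k2 a ha).trans ?_
    gcongr
    linarith
  · refine (k3 V).trans ?_
    linarith

end Pool.Agent.H37.OH
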