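import Pool.Agent.H80.FO.MidU
import Pool.Agent.H12.FO.Trv

/-!
PROJECT OH, Mid: the bad primes `q ≥ 2 ^ (J / K)` which divide `n (n + 1) (n - 1)`.

`q < 2^(J - J/K)`: mid_u with d = K.  Blocks `a = J - i`, `J/K ≥ i > J/d`, `d = √J`: blq with L = J²+3, U = 2^(i/k).
`q ≥ 2^(J - J/d)`: trv_u.
-/

set_option autoImplicit false

namespace Pool.Agent.H37.OH

open Finset Filter
open Pool.Agent.H37.PPC (pr mem_pr)
open Pool.Agent.H12.FO Pool.Agent.H12.FO.BlqP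

private theorem MK_div (J m : ℕ) (hm : 1 ≤ m) (hJ : m ≤ J) :
    (J : ℝ) / (2 * m) ≤ ((J / m : ℕ) : ℝ) := by
  have hmR : (1 : ℝ) ≤ m := by exact_mod_cast hm
  rw [div_le_iff₀ (by positivity)]
  have h6 : J ≤ (J / m) * (2 * m) := by
    have h7 : J < (J / m + 1) * m := by
      rw [mul_comm]
      exact Nat.lt_mul_div_succ _ (by omega)
    have h8 : 1 ≤ J / m := (Nat.le_div_iff_mul_le (by omega)).2 (by omega)
    nlinarith
  exact_mod_cast h6

private theorem MK_triv (J : ℕ) (Q : ℕ → ℕ → Prop) : Cnt (2 ^ J) Q ≤ 2 ^ J := by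
  classical
  unfold Cnt
  have h1 : ((Ico 2 (2 ^ J)).filter (fun n => ∃ q, Q n q)).card ≤ 2 ^ J := by
    refine (card_filter_le _ _).trans ?_
    rw [Nat.card_Ico]
    exact Nat.sub_le _ _
  exact_mod_cast h1

/-- sum of `i^(-1/2)` -/
private theorem MK_head (k : ℕ) : ∑ i ∈ Ico 1 (1 + k), 1 / Real.sqrt i ≤ 2 * Real.sqrt k := by
  induction k with
  | zero => simp
  | succ k ih =>
    rw [← add_assoc, sum_Ico_succ_top (by omega)]
    obtain ⟨a, ha⟩ : ∃ a, a = Real.sqrt k := ⟨_, rfl⟩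
    obtain ⟨c, hc⟩ : ∃ c, c = Real.sqrt ((k + 1 : ℕ) : ℝ) := ⟨_, rfl⟩
    have ha0 : 0 ≤ a := by rw [ha]; exact Real.sqrt_nonneg _
    have ha2 : a ^ 2 = k := by rw [ha]; exact Real.sq_sqrt (Nat.cast_nonneg k)
    have hc1 : 1 ≤ c := by
      rw [hc, Real.one_le_sqrt]
      push_cast
      linarith [(Nat.cast_nonneg k : (0 : ℝ) ≤ k)]
    have hc2 : c ^ 2 = k + 1 := by
      rw [hc, Real.sq_sqrt (by positivity)]
      push_cast
      ring
    have hac : a ≤ c := by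
      rw [ha, hc]
      exact Real.sqrt_le_sqrt (by push_cast; linarith)
    rw [add_comm 1 k, ← hc]
    rw [← ha] at ih
    have key : 1 / c ≤ 2 * c - 2 * a := by
      rw [div_le_iff₀ (by linarith)]
      nlinarith
    rw [add_comm 1 k] at ih
    linarith

/-- reindexing of the upper half -/
private theorem MK_up (J : ℕ) (hJ : 3 ≤ J) :
    ∑ a ∈ Ico (J / 2) J, 1 / ((a : ℝ) * Real.sqrt ((J - a : ℕ) : ℝ)) ≤ 8 / Real.sqrt J := by
  have hJR : (3 : ℝ) ≤ J := by exact_mod_cast hJ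
  have hJ0 : (0 : ℝ) < J := by linarith
  have h1 : ∀ a ∈ Ico (J / 2) J, 1 / ((a : ℝ) * Real.sqrt ((J - a : ℕ) : ℝ)) ≤
      4 / J * (1 / Real.sqrt ((J - a : ℕ) : ℝ)) := by
    intro a ha
    rw [mem_Ico] at ha
    have h2 : (J : ℝ) / 4 ≤ a := by
      have h3 : J ≤ 4 * a := by omega
      rw [div_le_iff₀ (by norm_num)]
      have h4 : (J : ℝ) ≤ 4 * a := by exact_mod_cast h3
      linarith
    have h3 : 0 < Real.sqrt ((J - a : ℕ) : ℝ) := by
      apply Real.sqrt_pos.2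
      exact_mod_cast (by omega : 0 < J - a)
    have h4 : (1 : ℝ) / a ≤ 4 / J := by
      have h5 := one_div_le_one_div_of_le (by positivity) h2
      rwa [one_div_div] at h5
    calc 1 / ((a : ℝ) * Real.sqrt ((J - a : ℕ) : ℝ)) =
          1 / (a : ℝ) * (1 / Real.sqrt ((J - a : ℕ) : ℝ)) := by
          rw [one_div_mul_one_div]
      _ ≤ _ := mul_le_mul_of_nonneg_right h4 (by positivity)
  refine (sum_le_sum h1).trans ?_
  rw [← mul_sum]
  have h2 : ∑ a ∈ Ico (J / 2) J, 1 / Real.sqrt ((J - a : ℕ) : ℝ) ≤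
      ∑ i ∈ Ico 1 (1 + J), 1 / Real.sqrt i := by
    have h3 : ∑ a ∈ Ico (J / 2) J, 1 / Real.sqrt ((J - a : ℕ) : ℝ) =
        ∑ i ∈ (Ico (J / 2) J).image (fun a => J - a), 1 / Real.sqrt (i : ℝ) := by
      rw [sum_image]
      intro a ha b hb hab
      have ha' := mem_Ico.1 (mem_coe.1 ha)
      have hb' := mem_Ico.1 (mem_coe.1 hb)
      simp only at hab
      omega
    rw [h3]
    apply sum_le_sum_of_subset_of_nonneg
    · intro i hi
      rw [mem_image] at hi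
      obtain ⟨a, ha, rfl⟩ := hi
      rw [mem_Ico] at ha ⊢
      omega
    · intro i _ _
      positivity
  have h3 := MK_head J
  have hs : Real.sqrt J ^ 2 = J := Real.sq_sqrt hJ0.le
  have hs0 : 0 < Real.sqrt J := Real.sqrt_pos.2 hJ0
  calc 4 / (J : ℝ) * ∑ a ∈ Ico (J / 2) J, 1 / Real.sqrt ((J - a : ℕ) : ℝ)
      ≤ 4 / J * (2 * Real.sqrt J) := mul_le_mul_of_nonneg_left (h2.trans h3) (by positivity)
    _ = 8 / Real.sqrt J := by
      rw [div_mul_eq_mul_div, div_eq_div_iff hJ0.ne' hs0.ne']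
      nlinarith

/-- the size of `J` -/
private theorem MK_large (k : ℕ) (hk : 1 ≤ k) : ∀ᶠ J : ℕ in atTop,
    24 * (k : ℝ) * Real.log J ≤ Real.sqrt J := by
  have hkR : (1 : ℝ) ≤ k := by exact_mod_cast hk
  have h1 := (isLittleO_log_rpow_atTop (show (0 : ℝ) < 1 / 2 by norm_num)).bound
    (show (0 : ℝ) < 1 / (24 * k) by positivity)
  have h2 := tendsto_natCast_atTop_atTop.eventually h1
  filter_upwards [h2, eventually_ge_atTop 1] with J hJ hJ1
  have hJR : (1 : ℝ) ≤ J := by exact_mod_cast hJ1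
  rw [Real.norm_of_nonneg (Real.log_nonneg hJR), ← Real.sqrt_eq_rpow,
    Real.norm_of_nonneg (Real.sqrt_nonneg _)] at hJ
  calc 24 * (k : ℝ) * Real.log J ≤ 24 * k * (1 / (24 * k) * Real.sqrt J) :=
        mul_le_mul_of_nonneg_left hJ (by positivity)
    _ = Real.sqrt J := by field_simp

theorem midK (K : ℕ) (hK : 2 ≤ K) : ∃ C : ℝ, 0 < C ∧ ∀ J : ℕ, 3 ≤ J →
    Cnt (2 ^ J) (fun n q => 2 ^ (J / K) ≤ q ∧ BadP n q) ≤ C * 2 ^ J * Real.sqrt (Real.log J / J) := by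
  classical
  obtain ⟨C, hC, k, hk, hb⟩ := blq
  obtain ⟨C₁, hC₁, hmid⟩ := Pool.Agent.H80.FO.mid_u
  obtain ⟨C₂, hC₂, htrv⟩ := trv_u
  have hkR : (4 : ℝ) ≤ k := by exact_mod_cast hk
  obtain ⟨J₀, hJ₀⟩ := eventually_atTop.1 (MK_large k (by omega))
  obtain ⟨B, hB⟩ : ∃ B, B = max J₀ (max K 4) := ⟨_, rfl⟩
  have hB4 : 4 ≤ B := by rw [hB]; exact (le_max_right _ _).trans (le_max_right _ _)
  refine ⟨C₁ * Real.sqrt K + C * (1 + 8 * Real.sqrt (12 * k)) + 2 * C₂ + Real.sqrt B, by positivity, ?_⟩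
  intro J hJ3
  have hJR : (3 : ℝ) ≤ J := by exact_mod_cast hJ3
  have hJ0 : (0 : ℝ) < J := by linarith
  obtain ⟨lJ, hlJ⟩ : ∃ lJ, lJ = Real.log J := ⟨_, rfl⟩
  have hlJ1 : 1 ≤ lJ := by
    rw [hlJ, Real.le_log_iff_exp_le hJ0]
    have := Real.exp_one_lt_d9
    linarith
  obtain ⟨W, hW⟩ : ∃ W, W = Real.sqrt (Real.log J / J) := ⟨_, rfl⟩
  have hW0 : 0 ≤ W := by rw [hW]; exact Real.sqrt_nonneg _
  have hWJ : 1 / Real.sqrt J ≤ W := by
    rw [hW, one_div, ← Real.sqrt_inv]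
    apply Real.sqrt_le_sqrt
    rw [← hlJ, ← one_div]
    exact div_le_div_of_nonneg_right hlJ1 hJ0.le
  have hWe : Real.sqrt lJ * (1 / Real.sqrt J) = W := by
    rw [hW, ← hlJ, Real.sqrt_div (by linarith)]
    ring
  rw [← hW]
  have h2J : (0 : ℝ) < 2 ^ J := by positivity
  have hsJ : 0 < Real.sqrt J := Real.sqrt_pos.2 hJ0
  rcases lt_or_ge J B with hA | hA
  · -- small `J`
    have h1 : 1 ≤ Real.sqrt B * W := by
      have h2 : Real.sqrt J ≤ Real.sqrt B := Real.sqrt_le_sqrt (by exact_mod_cast hA.le)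
      calc (1 : ℝ) = Real.sqrt J * (1 / Real.sqrt J) := by field_simp
        _ ≤ Real.sqrt B * W := mul_le_mul h2 hWJ (by positivity) (Real.sqrt_nonneg _)
    refine (MK_triv J _).trans ?_
    have h3 : 0 ≤ (C₁ * Real.sqrt K + C * (1 + 8 * Real.sqrt (12 * k)) + 2 * C₂) * W := by positivity
    calc (2 : ℝ) ^ J = 2 ^ J * 1 := (mul_one _).symm
      _ ≤ 2 ^ J * ((C₁ * Real.sqrt K + C * (1 + 8 * Real.sqrt (12 * k)) + 2 * C₂) * W +
          Real.sqrt B * W) := mul_le_mul_of_nonneg_left (by linarith) h2J.le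
      _ = _ := by ring
  -- the main case
  have hJJ₀ : J₀ ≤ J := le_trans (by rw [hB]; exact le_max_left _ _) hA
  have hKJ : K ≤ J := le_trans (by rw [hB]; exact (le_max_left _ _).trans (le_max_right _ _)) hA
  have hJ4 : 4 ≤ J := hB4.trans hA
  have hlarge : 24 * (k : ℝ) * lJ ≤ Real.sqrt J := by rw [hlJ]; exact hJ₀ J hJJ₀
  obtain ⟨d, hd⟩ : ∃ d, d = Nat.sqrt J := ⟨_, rfl⟩
  have hd2 : 2 ≤ d := by rw [hd, Nat.le_sqrt]; omega
  have hdd : d * d ≤ J := by rw [hd]; exact Nat.sqrt_le J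
  have hdJ : d ≤ J := by nlinarith
  have hdJ' : d ≤ J / d := (Nat.le_div_iff_mul_le (by omega)).2 hdd
  have hds : Real.sqrt J ≤ 2 * d := by
    have h1 : J < (d + 1) * (d + 1) := by rw [hd]; exact Nat.lt_succ_sqrt J
    have h2 : (J : ℝ) ≤ (2 * d) ^ 2 := by
      have h3 : J ≤ (2 * d) ^ 2 := by nlinarith
      exact_mod_cast h3
    calc Real.sqrt J ≤ Real.sqrt ((2 * (d : ℝ)) ^ 2) := Real.sqrt_le_sqrt h2
      _ = 2 * d := Real.sqrt_sq (by positivity)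
  have hd0 : (0 : ℝ) < d := by
    have : 0 < d := by omega
    exact_mod_cast this
  obtain ⟨t, ht⟩ : ∃ t, t = J / K := ⟨_, rfl⟩
  obtain ⟨m, hm⟩ : ∃ m, m = J / d := ⟨_, rfl⟩
  have htJ : t * 2 ≤ J := by
    rw [ht]
    exact (Nat.mul_le_mul_left _ hK).trans (Nat.div_mul_le_self _ _)
  have hdm : d ≤ m := by rw [hm]; exact hdJ'
  obtain ⟨L, hL⟩ : ∃ L, L = J ^ 2 + 3 := ⟨_, rfl⟩
  have hlL : Real.log (L : ℝ) ≤ 3 * lJ := by
    have h2 : J ^ 2 + 3 ≤ J ^ 3 := by nlinarith [sq_nonneg J]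
    rw [hL, hlJ]
    calc Real.log ((J ^ 2 + 3 : ℕ) : ℝ) ≤ Real.log ((J : ℝ) ^ 3) := by
          apply Real.log_le_log
          · positivity
          · exact_mod_cast h2
      _ = 3 * Real.log J := by rw [Real.log_pow]; norm_num
  have hL3 : 3 ≤ L := by omega
  have hLR : (3 : ℝ) ≤ (L : ℝ) := by exact_mod_cast hL3
  -- the decomposition
  have hs1 : Cnt (2 ^ J) (fun n q => 2 ^ t ≤ q ∧ BadP n q) ≤
      Cnt (2 ^ J) (fun n q => 2 ^ t ≤ q ∧ q < 2 ^ (J - t) ∧ BadP n q) +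
        Cnt (2 ^ J) (fun n q => 2 ^ (J - t) ≤ q ∧ BadP n q) := by
    apply Cnt_or
    intro n q _ _ hq
    rcases lt_or_ge q (2 ^ (J - t)) with h1 | h1
    · exact Or.inl ⟨hq.1, h1, hq.2⟩
    · exact Or.inr ⟨h1, hq.2⟩
  have hs2 : Cnt (2 ^ J) (fun n q => 2 ^ (J - t) ≤ q ∧ BadP n q) ≤
      Cnt (2 ^ J) (fun n q => 2 ^ (J - t) ≤ q ∧ q < 2 ^ (J - m) ∧ BadP n q) +
        Cnt (2 ^ J) (fun n q => 2 ^ (J - m) ≤ q ∧ BadP n q) := by
    apply Cnt_or
    intro n q _ _ hq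
    rcases lt_or_ge q (2 ^ (J - m)) with h1 | h1
    · exact Or.inl ⟨hq.1, h1, hq.2⟩
    · exact Or.inr ⟨h1, hq.2⟩
  have hs3 : Cnt (2 ^ J) (fun n q => 2 ^ (J - t) ≤ q ∧ q < 2 ^ (J - m) ∧ BadP n q) ≤
      ∑ a ∈ Ico (J - t) (J - m), Cnt (2 ^ J) (fun n q => 2 ^ a ≤ q ∧ q < 2 ^ (a + 1) ∧ BadP n q) := by
    apply Cnt_sum (2 ^ J) _ _ (fun a n q => 2 ^ a ≤ q ∧ q < 2 ^ (a + 1) ∧ BadP n q)
    intro n q _ _ hq
    have hq0 : q ≠ 0 := hq.2.2.1.ne_zero
    refine ⟨Nat.log 2 q, mem_Ico.2 ⟨Nat.le_log_of_pow_le one_lt_two hq.1,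
      Nat.log_lt_of_lt_pow hq0 hq.2.1⟩, Nat.pow_log_le_self 2 hq0,
      Nat.lt_pow_succ_log_self one_lt_two q, hq.2.2⟩
  -- the blocks
  have hs4 : ∀ a ∈ Ico (J - t) (J - m),
      Cnt (2 ^ J) (fun n q => 2 ^ a ≤ q ∧ q < 2 ^ (a + 1) ∧ BadP n q) ≤
        C * 2 ^ J * (1 / J ^ 2 + Real.sqrt (12 * k) * Real.sqrt lJ *
          (1 / ((a : ℝ) * Real.sqrt ((J - a : ℕ) : ℝ)))) := by
    intro a ha
    rw [mem_Ico] at ha
    obtain ⟨i, hi⟩ : ∃ i, i = J - a := ⟨_, rfl⟩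
    have hmi : m ≤ i := by omega
    have hia : i ≤ a := by omega
    have hdi : (d : ℝ) ≤ i := by exact_mod_cast hdm.trans hmi
    have hi0 : (0 : ℝ) < i := by linarith
    have hki : 12 * (k : ℝ) * lJ ≤ i := by linarith
    have hki' : k ≤ i := by
      have h3 : (k : ℝ) ≤ i := by nlinarith
      exact_mod_cast h3
    obtain ⟨U, hU⟩ : ∃ U, U = 2 ^ (i / k) := ⟨_, rfl⟩
    have hdiv := MK_div i k (by omega) hki'
    have hlU : (i : ℝ) / (4 * k) ≤ Real.log (U : ℝ) := by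
      rw [hU, Nat.cast_pow, Real.log_pow]
      have h6 : (1 / 2 : ℝ) ≤ Real.log ((2 : ℕ) : ℝ) := by
        have := Real.log_two_gt_d9
        push_cast
        linarith
      calc (i : ℝ) / (4 * k) = (i : ℝ) / (2 * k) * (1 / 2) := by
            field_simp
            norm_num
        _ ≤ ((i / k : ℕ) : ℝ) * Real.log ((2 : ℕ) : ℝ) :=
            mul_le_mul hdiv h6 (by norm_num) (by positivity)
    have hlU0 : 0 < Real.log (U : ℝ) := lt_of_lt_of_le (by positivity) hlU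
    have hLU : L ≤ U := by
      have h3 : Real.log (L : ℝ) ≤ Real.log (U : ℝ) := by
        refine hlL.trans (le_trans ?_ hlU)
        rw [le_div_iff₀ (by positivity)]
        nlinarith
      have h4 : (0 : ℝ) < U := by rw [hU]; positivity
      have h5 := (Real.log_le_log_iff (by linarith) h4).1 h3
      exact_mod_cast h5
    have hUk : U ^ k ≤ 2 ^ i := by
      rw [hU, ← pow_mul]
      apply Nat.pow_le_pow_right (by norm_num)
      exact Nat.div_mul_le_self _ _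
    have h3 := hb L U a i hL3 hLU hUk (hUk.trans (Nat.pow_le_pow_right (by norm_num) hia))
    rw [show a + i = J by omega] at h3
    refine h3.trans ?_
    apply mul_le_mul_of_nonneg_left _ (by positivity)
    have h4 : (1 : ℝ) / L ≤ 1 / J ^ 2 := by
      apply one_div_le_one_div_of_le (by positivity)
      rw [hL]
      push_cast
      linarith
    have h5 : Real.sqrt (Real.log L / Real.log U) ≤
        Real.sqrt (12 * k) * Real.sqrt lJ * (1 / Real.sqrt i) := by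
      have h6 : Real.log (L : ℝ) / Real.log U ≤ 12 * k * lJ / i := by
        calc Real.log (L : ℝ) / Real.log U ≤ (3 * lJ) / ((i : ℝ) / (4 * k)) :=
              div_le_div₀ (by positivity) hlL (by positivity) hlU
          _ = 12 * k * lJ / i := by
            field_simp
            norm_num
      refine (Real.sqrt_le_sqrt h6).trans (le_of_eq ?_)
      rw [Real.sqrt_div (by positivity), Real.sqrt_mul (by positivity)]
      ring
    have h6 : (0 : ℝ) ≤ 1 / (a : ℝ) := by positivity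
    rw [← hi]
    calc 1 / (L : ℝ) + 1 / a * Real.sqrt (Real.log L / Real.log U)
        ≤ 1 / J ^ 2 + 1 / a * (Real.sqrt (12 * k) * Real.sqrt lJ * (1 / Real.sqrt i)) :=
          add_le_add h4 (mul_le_mul_of_nonneg_left h5 h6)
      _ = _ := by rw [← one_div_mul_one_div]; ring
  -- the sum over the blocks
  have hs5 : ∑ a ∈ Ico (J - t) (J - m),
      Cnt (2 ^ J) (fun n q => 2 ^ a ≤ q ∧ q < 2 ^ (a + 1) ∧ BadP n q) ≤
        C * 2 ^ J * ((1 + 8 * Real.sqrt (12 * k)) * W) := by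
    refine (sum_le_sum hs4).trans ?_
    rw [← mul_sum, sum_add_distrib, sum_const, nsmul_eq_mul, Nat.card_Ico, ← mul_sum]
    apply mul_le_mul_of_nonneg_left _ (by positivity)
    have h1 : ((J - m - (J - t) : ℕ) : ℝ) * (1 / (J : ℝ) ^ 2) ≤ W := by
      have h10 : ((J - m - (J - t) : ℕ) : ℝ) ≤ J := by
        exact_mod_cast (by omega : J - m - (J - t) ≤ J)
      have h11 : ((J - m - (J - t) : ℕ) : ℝ) * (1 / (J : ℝ) ^ 2) ≤ 1 / J := by
        calc ((J - m - (J - t) : ℕ) : ℝ) * (1 / (J : ℝ) ^ 2) ≤ J * (1 / (J : ℝ) ^ 2) :=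
              mul_le_mul_of_nonneg_right h10 (by positivity)
          _ = 1 / J := by field_simp
      refine (h11.trans ?_).trans hWJ
      apply one_div_le_one_div_of_le hsJ
      calc Real.sqrt J ≤ Real.sqrt ((J : ℝ) ^ 2) := Real.sqrt_le_sqrt (by nlinarith)
        _ = J := Real.sqrt_sq hJ0.le
    have h2 : ∑ a ∈ Ico (J - t) (J - m), 1 / ((a : ℝ) * Real.sqrt ((J - a : ℕ) : ℝ)) ≤
        8 / Real.sqrt J := by
      refine le_trans ?_ (MK_up J hJ3)
      apply sum_le_sum_of_subset_of_nonneg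
      · intro a ha
        rw [mem_Ico] at ha ⊢
        omega
      · intro a _ _
        positivity
    have h3 : Real.sqrt (12 * k) * Real.sqrt lJ *
        ∑ a ∈ Ico (J - t) (J - m), 1 / ((a : ℝ) * Real.sqrt ((J - a : ℕ) : ℝ)) ≤
          8 * Real.sqrt (12 * k) * W := by
      calc Real.sqrt (12 * k) * Real.sqrt lJ *
            ∑ a ∈ Ico (J - t) (J - m), 1 / ((a : ℝ) * Real.sqrt ((J - a : ℕ) : ℝ))
          ≤ Real.sqrt (12 * k) * Real.sqrt lJ * (8 / Real.sqrt J) :=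
            mul_le_mul_of_nonneg_left h2 (by positivity)
        _ = 8 * Real.sqrt (12 * k) * (Real.sqrt lJ * (1 / Real.sqrt J)) := by ring
        _ = 8 * Real.sqrt (12 * k) * W := by rw [hWe]
    calc _ ≤ W + 8 * Real.sqrt (12 * k) * W := add_le_add h1 h3
      _ = _ := by ring
  have hs6 : Cnt (2 ^ J) (fun n q => 2 ^ (J - m) ≤ q ∧ BadP n q) ≤ 2 * C₂ * W * 2 ^ J := by
    have h1 := htrv J d hd2 hdJ
    rw [← hm] at h1
    refine h1.trans (mul_le_mul_of_nonneg_right ?_ h2J.le)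
    have h2 : 1 / (d : ℝ) ≤ 2 * (1 / Real.sqrt J) := by
      rw [mul_one_div, div_le_div_iff₀ hd0 hsJ]
      linarith
    calc C₂ / (d : ℝ) = C₂ * (1 / d) := by ring
      _ ≤ C₂ * (2 * W) := mul_le_mul_of_nonneg_left (by linarith) hC₂.le
      _ = 2 * C₂ * W := by ring
  have hs7 : Cnt (2 ^ J) (fun n q => 2 ^ t ≤ q ∧ q < 2 ^ (J - t) ∧ BadP n q) ≤
      C₁ * 2 ^ J * (Real.sqrt K * W) := by
    have h1 := hmid J K (by omega) hKJ hJ3
    rw [← ht] at h1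
    refine h1.trans (le_of_eq ?_)
    congr 1
    rw [hW, ← Real.sqrt_mul (by positivity)]
    congr 1
    ring
  have h9 : 0 ≤ Real.sqrt B * W * 2 ^ J := by positivity
  rw [← ht]
  calc Cnt (2 ^ J) (fun n q => 2 ^ t ≤ q ∧ BadP n q)
      ≤ C₁ * 2 ^ J * (Real.sqrt K * W) + (C * 2 ^ J * ((1 + 8 * Real.sqrt (12 * k)) * W) +
        2 * C₂ * W * 2 ^ J) := by linarith
    _ ≤ C₁ * 2 ^ J * (Real.sqrt K * W) + (C * 2 ^ J * ((1 + 8 * Real.sqrt (12 * k)) * W) +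
        2 * C₂ * W * 2 ^ J) + Real.sqrt B * W * 2 ^ J := by linarith
    _ = _ := by ring

end Pool.Agent.H37.OH
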