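import Pool.Agent.H37.OH.OneU
import Pool.Agent.H37.OH.Eul
import Pool.Agent.H37.OH.Mass

/-!
OH Wps: `n² + n + 1 = u w`, `w` prime, `u ≤ 2 ^ (J / K)`.
-/

set_option autoImplicit false

namespace Pool.Agent.H37.OH.WpsP

open Finset
open Pool.Agent.H37.PPC (pr mem_pr)
open Pool.Agent.H12.FO
open Pool.Agent.H37.OH.OneUP (one_u)

theorem NR_sub {s : ℤ} {L M U z a : ℕ} (h1 : L ≤ M) (h2 : U ≤ z) : NR s M U a ⊆ NR s L z a := by
  intro p hp
  unfold NR at hp ⊢
  rw [mem_filter, mem_pr] at hp ⊢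
  exact ⟨⟨⟨by omega, by omega⟩, hp.1.2⟩, hp.2⟩

theorem log2_lt (L : ℕ) : L < 2 ^ (Nat.log 2 L + 1) := Nat.lt_pow_succ_log_self one_lt_two L

private theorem wps_real {lL lU lM lz : ℝ} (hL : 0 < lL) (hU : 0 < lU) (hM : 0 ≤ lM) (hz : 0 < lz)
    (h : lM ≤ 256 * lU) : Real.sqrt (lL / lU) * Real.sqrt (lM / lz) ≤ 16 * Real.sqrt (lL / lz) := by
  rw [← Real.sqrt_mul (by positivity)]
  have e3 : lL / lU * (lM / lz) ≤ 16 ^ 2 * (lL / lz) := by
    have e4 : lL / lU * (lM / lz) = (lM / lU) * (lL / lz) := by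
      field_simp
    rw [e4]
    apply mul_le_mul_of_nonneg_right _ (by positivity)
    rw [div_le_iff₀ hU]
    linarith
  refine (Real.sqrt_le_sqrt e3).trans (le_of_eq ?_)
  rw [Real.sqrt_mul (by positivity), Real.sqrt_sq (by norm_num)]

private theorem log_two_pow (n : ℕ) : Real.log (((2 ^ n : ℕ)) : ℝ) = n * Real.log 2 := by
  rw [Nat.cast_pow, Real.log_pow]
  norm_num

theorem blk_mass : ∃ C : ℝ, 0 < C ∧ ∀ (s : ℤ) (L a z u U M : ℕ), (s = 1 ∨ s = -1) → 3 ≤ L →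
    4 * (Nat.log 2 L + 1) ≤ a → U = 2 ^ (a / 4) → M = 2 ^ (8 * (a + 3)) → M ≤ z → 2 ^ a ≤ u → u < 2 ^ (a + 1) →
    u < 2 ^ L → ¬ IsSquare (s * (u : ℤ)) → FS s L U u ≤ 1 →
    Real.exp (-(∑ p ∈ NR s L U u ∪ NR s M z u, (1 : ℝ) / p)) ≤ C * Real.sqrt (Real.log L / Real.log z) := by
  obtain ⟨C, hC, h⟩ := two_mass
  refine ⟨C * 16, by positivity, ?_⟩
  intro s L a z u U M hs hL ha hU hMd hz hu1 hu2 huL hsq hFS
  have hl1 : 1 ≤ Nat.log 2 L := Nat.log_pos one_lt_two (by omega)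
  have ha8 : 8 ≤ a := by omega
  have hLU : L ≤ U := by
    rw [hU]
    refine (log2_lt L).le.trans (Nat.pow_le_pow_right (by norm_num) ?_)
    rw [Nat.le_div_iff_mul_le (by norm_num)]
    omega
  obtain ⟨e, he⟩ : ∃ e, e = 8 * (a + 3) := ⟨_, rfl⟩
  rw [← he] at hMd
  have hUM : U < M := by
    rw [hU, hMd]
    exact Nat.pow_lt_pow_right (by norm_num) (by omega)
  have hM : (4 * u) ^ 8 ≤ M := by
    rw [hMd, he, mul_comm 8 (a + 3), pow_mul]
    apply Nat.pow_le_pow_left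
    rw [show a + 3 = (a + 1) + 2 by ring, pow_add]
    omega
  have hu0 : 1 ≤ u := le_trans Nat.one_le_two_pow hu1
  refine (h s L U M z u hs hL hLU hUM hM hz hu0 huL hsq hFS).trans ?_
  rw [mul_assoc]
  refine mul_le_mul_of_nonneg_left ?_ hC.le
  have hl2 : 0 < Real.log 2 := Real.log_pos (by norm_num)
  have hlL : 0 < Real.log L := Real.log_pos (by exact_mod_cast (by omega : 1 < L))
  have hlU : 0 < Real.log U := Real.log_pos (by exact_mod_cast (by omega : 1 < U))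
  have hlM : 0 < Real.log M := Real.log_pos (by exact_mod_cast (by omega : 1 < M))
  have hlz : 0 < Real.log z := Real.log_pos (by exact_mod_cast (by omega : 1 < z))
  refine wps_real hlL hlU hlM.le hlz ?_
  have h5 : e ≤ 256 * (a / 4) := by omega
  have h5r : (e : ℝ) ≤ 256 * ((a / 4 : ℕ) : ℝ) := by exact_mod_cast h5
  rw [hU, hMd, log_two_pow, log_two_pow]
  calc (e : ℝ) * Real.log 2 ≤ 256 * ((a / 4 : ℕ) : ℝ) * Real.log 2 :=
        mul_le_mul_of_nonneg_right h5r hl2.le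
    _ = _ := by ring

theorem bad_sum (A : ℕ) (Cg : ℝ) (hCg : 0 < Cg)
    (hG : ∀ a : ℕ, 1 ≤ a → ∑ u ∈ Ico (2 ^ a) (2 ^ (a + 1)), G u ^ 2 ≤ Cg * 2 ^ a * (a : ℝ) ^ A) :
    ∃ C : ℝ, 0 < C ∧ ∀ (s : ℤ) (L a : ℕ), (s = 1 ∨ s = -1) → 3 ≤ L → 4 * (Nat.log 2 L + 1) ≤ a →
      ∑ u ∈ (Ico (2 ^ a) (2 ^ (a + 1))).filter (fun u => 1 < FS s L (2 ^ (a / 4)) u), G u / u ≤
        C * Real.sqrt ((a : ℝ) ^ A / L) := by
  obtain ⟨Cm, hCm, hm⟩ := mom
  refine ⟨Real.sqrt (Cm * Cg), Real.sqrt_pos.2 (by positivity), ?_⟩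
  intro s L a hs hL ha
  have hl1 : 1 ≤ Nat.log 2 L := Nat.log_pos one_lt_two (by omega)
  have hLU : L ≤ 2 ^ (a / 4) := by
    refine (log2_lt L).le.trans (Nat.pow_le_pow_right (by norm_num) ?_)
    rw [Nat.le_div_iff_mul_le (by norm_num)]
    omega
  have hU4 : (2 ^ (a / 4)) ^ 4 ≤ 2 ^ a := by
    rw [← pow_mul]
    exact Nat.pow_le_pow_right (by norm_num) (Nat.div_mul_le_self a 4)
  set B := (Ico (2 ^ a) (2 ^ (a + 1))).filter (fun u => 1 < FS s L (2 ^ (a / 4)) u) with hB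
  have hL0 : (0 : ℝ) < L := by exact_mod_cast (by omega : 0 < L)
  have hBc : (B.card : ℝ) ≤ Cm * 2 ^ a / L := by
    calc (B.card : ℝ) = ∑ _u ∈ B, (1 : ℝ) := by simp
      _ ≤ ∑ u ∈ B, FS s L (2 ^ (a / 4)) u ^ 2 := by
          refine sum_le_sum fun u hu => ?_
          have := (mem_filter.1 hu).2
          nlinarith
      _ ≤ ∑ u ∈ Ico (2 ^ a) (2 ^ (a + 1)), FS s L (2 ^ (a / 4)) u ^ 2 :=
          sum_le_sum_of_subset_of_nonneg (filter_subset _ _) fun _ _ _ => sq_nonneg _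
      _ ≤ _ := hm s hs L (2 ^ (a / 4)) a hL hLU hU4
  have hG2 : ∑ u ∈ B, G u ^ 2 ≤ Cg * 2 ^ a * (a : ℝ) ^ A :=
    (sum_le_sum_of_subset_of_nonneg (filter_subset _ _) fun _ _ _ => sq_nonneg _).trans (hG a (by omega))
  have hp : (0 : ℝ) < 2 ^ a := by positivity
  have h1 : ∑ u ∈ B, G u / u ≤ (∑ u ∈ B, G u) / 2 ^ a := by
    rw [sum_div]
    refine sum_le_sum fun u hu => ?_
    have h2 := (mem_Ico.1 (mem_filter.1 hu).1).1
    have h3 : ((2 : ℝ) ^ a) ≤ u := by exact_mod_cast h2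
    exact div_le_div_of_nonneg_left (G_nonneg u) hp h3
  have h2 : (∑ u ∈ B, G u) ^ 2 ≤ (2 ^ a * (Real.sqrt (Cm * Cg) * Real.sqrt ((a : ℝ) ^ A / L))) ^ 2 := by
    calc (∑ u ∈ B, G u) ^ 2 ≤ B.card * ∑ u ∈ B, G u ^ 2 := sq_sum_le_card_mul_sum_sq
      _ ≤ (Cm * 2 ^ a / L) * (Cg * 2 ^ a * (a : ℝ) ^ A) :=
          mul_le_mul hBc hG2 (sum_nonneg fun _ _ => sq_nonneg _) (by positivity)
      _ = (2 ^ a * (Real.sqrt (Cm * Cg) * Real.sqrt ((a : ℝ) ^ A / L))) ^ 2 := by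
          rw [mul_pow, mul_pow, Real.sq_sqrt (by positivity), Real.sq_sqrt (by positivity)]
          field_simp
  have h3 : ∑ u ∈ B, G u ≤ 2 ^ a * (Real.sqrt (Cm * Cg) * Real.sqrt ((a : ℝ) ^ A / L)) :=
    le_of_sq_le_sq h2 (by positivity)
  refine h1.trans ?_
  rw [div_le_iff₀ hp]
  calc ∑ u ∈ B, G u ≤ _ := h3
    _ = _ := by ring

theorem sq_sum (Cg : ℝ) (hG : ∀ V : ℕ, ∑ k ∈ Icc 1 V, G k / (k : ℝ) ^ 2 ≤ Cg) (s : ℤ) (hs : s = 1 ∨ s = -1) (V : ℕ) :
    ∑ u ∈ (Icc 1 V).filter (fun u : ℕ => IsSquare (s * (u : ℤ))), G u / u ≤ Cg := by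
  refine le_trans ?_ (hG V)
  have h0 : ∀ u ∈ (Icc 1 V).filter (fun u : ℕ => IsSquare (s * (u : ℤ))), ∃ k ∈ Icc 1 V, k ^ 2 = u := by
    intro u hu
    rw [mem_filter, mem_Icc] at hu
    obtain ⟨⟨h1, h2⟩, r, hr⟩ := hu
    have hu0 : (1 : ℤ) ≤ u := by exact_mod_cast h1
    have hs1 : s = 1 := by
      rcases hs with h | h
      · exact h
      · exfalso
        rw [h] at hr
        nlinarith [mul_self_nonneg r]
    rw [hs1, one_mul] at hr
    refine ⟨r.natAbs, ?_, ?_⟩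
    · have h3 : r.natAbs ^ 2 = u := by
        zify
        rw [sq_abs, sq]
        exact hr.symm
      have h4 : r.natAbs ≤ r.natAbs ^ 2 := Nat.le_self_pow (by norm_num) _
      rw [mem_Icc]
      constructor
      · by_contra hc
        have : r.natAbs = 0 := by omega
        rw [this] at h3
        omega
      · omega
    · zify
      rw [sq_abs, sq]
      exact hr.symm
  choose! k hk1 hk2 using h0
  calc ∑ u ∈ (Icc 1 V).filter (fun u : ℕ => IsSquare (s * (u : ℤ))), G u / u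
      = ∑ u ∈ (Icc 1 V).filter (fun u : ℕ => IsSquare (s * (u : ℤ))), G (k u) / ((k u : ℕ) : ℝ) ^ 2 := by
        refine sum_congr rfl fun u hu => ?_
        have e1 : (u : ℝ) = ((k u : ℕ) : ℝ) ^ 2 := by
          have := hk2 u hu
          exact_mod_cast this.symm
        have e2 : G u = G (k u) := by
          unfold G
          conv_lhs => rw [← hk2 u hu]
          rw [Nat.primeFactors_pow _ (by norm_num)]
        rw [e2, ← e1]
    _ = ∑ j ∈ ((Icc 1 V).filter (fun u : ℕ => IsSquare (s * (u : ℤ)))).image k, G j / (j : ℝ) ^ 2 := by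
        rw [sum_image]
        intro u hu v hv h
        have h1 := hk2 u hu
        have h2 := hk2 v hv
        rw [← h1, ← h2]
        exact congrArg (fun t => t ^ 2) h
    _ ≤ ∑ j ∈ Icc 1 V, G j / (j : ℝ) ^ 2 := by
        refine sum_le_sum_of_subset_of_nonneg ?_ fun j _ _ => div_nonneg (G_nonneg j) (by positivity)
        intro j hj
        obtain ⟨u, hu, rfl⟩ := mem_image.1 hj
        exact hk1 u hu

theorem ev_log (c : ℕ) : ∃ J0 : ℕ, ∀ J : ℕ, J0 ≤ J → c * (Nat.log 2 J + 1) ≤ J := by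
  refine ⟨2 ^ (4 * c + 2), fun J hJ => ?_⟩
  have hm : 4 * c + 2 ≤ Nat.log 2 J := Nat.le_log_of_pow_le one_lt_two hJ
  have h2 : 2 ^ Nat.log 2 J ≤ J := Nat.pow_log_le_self 2 (by
    have : 0 < 2 ^ (4 * c + 2) := by positivity
    omega)
  generalize Nat.log 2 J = m at hm h2 ⊢
  obtain ⟨h, hh⟩ : ∃ h, h = m / 2 := ⟨_, rfl⟩
  have h3 : h < 2 ^ h := Nat.lt_two_pow_self
  have h4 : 2 ^ h * 2 ^ h ≤ 2 ^ m := by
    rw [← pow_add]
    exact Nat.pow_le_pow_right (by norm_num) (by omega)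
  have h5 : c * (m + 1) ≤ (2 * c) * (h + 1) := by
    have : m + 1 ≤ 2 * (h + 1) := by omega
    calc c * (m + 1) ≤ c * (2 * (h + 1)) := Nat.mul_le_mul_left c this
      _ = (2 * c) * (h + 1) := by ring
  have h6 : (2 * c) * (h + 1) ≤ 2 ^ h * 2 ^ h := Nat.mul_le_mul (by omega) (by omega)
  omega

private theorem two_mul_le_pow (m : ℕ) (hm : 1 ≤ m) : 2 * m ≤ 2 ^ m := by
  obtain ⟨t, rfl⟩ : ∃ t, m = t + 1 := ⟨m - 1, by omega⟩
  have := Nat.lt_two_pow_self (n := t)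
  rw [pow_succ]
  omega

/-- the sum over the bad cofactors -/
private theorem bad_all (A : ℕ) (C3 : ℝ) (hC3 : 0 < C3) (s : ℤ) (J L a0 N : ℕ) (hJ : 1 ≤ J) (hN : N + 1 ≤ J)
    (hL : J ^ (A + 2) ≤ L)
    (hb : ∀ a : ℕ, a0 ≤ a → ∑ u ∈ (Ico (2 ^ a) (2 ^ (a + 1))).filter (fun u => 1 < FS s L (2 ^ (a / 4)) u), G u / u ≤
        C3 * Real.sqrt ((a : ℝ) ^ A / L)) :
    ∑ u ∈ (Icc 1 (2 ^ N)).filter (fun u => a0 ≤ Nat.log 2 u ∧ 1 < FS s L (2 ^ (Nat.log 2 u / 4)) u), G u / u ≤ C3 := by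
  classical
  set B := (Icc 1 (2 ^ N)).filter (fun u => a0 ≤ Nat.log 2 u ∧ 1 < FS s L (2 ^ (Nat.log 2 u / 4)) u) with hB
  have hJr : (1 : ℝ) ≤ J := by exact_mod_cast hJ
  have hJ0 : (0 : ℝ) < J := by linarith
  have hmaps : ∀ u ∈ B, Nat.log 2 u ∈ (range (N + 1)).filter (fun a => a0 ≤ a) := by
    intro u hu
    rw [hB, mem_filter, mem_Icc] at hu
    rw [mem_filter, mem_range]
    refine ⟨?_, hu.2.1⟩
    have : Nat.log 2 u ≤ Nat.log 2 (2 ^ N) := Nat.log_mono_right hu.1.2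
    rw [Nat.log_pow one_lt_two] at this
    omega
  rw [← sum_fiberwise_of_maps_to hmaps]
  have h1 : ∀ a ∈ (range (N + 1)).filter (fun a => a0 ≤ a), ∑ u ∈ B.filter (fun u => Nat.log 2 u = a), G u / u ≤
      C3 * (1 / J) := by
    intro a ha
    rw [mem_filter, mem_range] at ha
    refine le_trans (sum_le_sum_of_subset_of_nonneg ?_ fun u _ _ => div_nonneg (G_nonneg u) (Nat.cast_nonneg u))
      ((hb a ha.2).trans ?_)
    · intro u hu
      rw [mem_filter, hB, mem_filter, mem_Icc] at hu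
      obtain ⟨⟨⟨h2, h3⟩, h4, h5⟩, h6⟩ := hu
      rw [h6] at h5
      rw [mem_filter, mem_Ico]
      refine ⟨⟨?_, ?_⟩, h5⟩
      · rw [← h6]
        exact Nat.pow_log_le_self 2 (by omega)
      · rw [← h6]
        exact Nat.lt_pow_succ_log_self one_lt_two u
    · refine mul_le_mul_of_nonneg_left ?_ hC3.le
      apply Real.sqrt_le_iff.2
      refine ⟨by positivity, ?_⟩
      have haJ : (a : ℝ) ≤ J := by exact_mod_cast (by omega : a ≤ J)
      have hLr : ((J : ℝ) ^ (A + 2)) ≤ L := by exact_mod_cast hL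
      calc (a : ℝ) ^ A / L ≤ (J : ℝ) ^ A / (J : ℝ) ^ (A + 2) :=
            div_le_div₀ (by positivity) (pow_le_pow_left₀ (Nat.cast_nonneg a) haJ A) (by positivity) hLr
        _ = (1 / J) ^ 2 := by
          rw [pow_add]
          field_simp
  refine (sum_le_sum h1).trans ?_
  rw [sum_const, nsmul_eq_mul]
  have h2 : ((((range (N + 1)).filter (fun a => a0 ≤ a)).card : ℕ) : ℝ) ≤ J := by
    have := card_filter_le (range (N + 1)) (fun a => a0 ≤ a)
    rw [card_range] at this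
    exact_mod_cast (by omega : ((range (N + 1)).filter (fun a => a0 ≤ a)).card ≤ J)
  calc ((((range (N + 1)).filter (fun a => a0 ≤ a)).card : ℕ) : ℝ) * (C3 * (1 / J)) ≤ J * (C3 * (1 / J)) :=
        mul_le_mul_of_nonneg_right h2 (by positivity)
    _ = C3 := by field_simp

theorem wps : ∃ C : ℝ, 0 < C ∧ ∃ K : ℕ, 2 ≤ K ∧ ∀ (s : ℤ) (J : ℕ), (s = 1 ∨ s = -1) → 3 ≤ J → ∀ S : Finset ℕ,
    (∀ n ∈ S, 1 ≤ n ∧ n < 2 ^ J ∧ ∃ u w : ℕ, u ≤ 2 ^ (J / K) ∧ WP s n u w) →
    (S.card : ℝ) ≤ C * 2 ^ J * Real.sqrt (Real.log J / J) := by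
  classical
  obtain ⟨C0, hC0, k, hk, h1⟩ := one_u
  obtain ⟨Cg, hCg, A, hG1, hG2, hG3⟩ := G_sums
  obtain ⟨C1, hC1, hm1⟩ := one_mass
  obtain ⟨C2, hC2, hm2⟩ := blk_mass
  obtain ⟨C3, hC3, hb⟩ := bad_sum A Cg hCg hG2
  obtain ⟨J1, hJ1⟩ := ev_log (8 * k * (4 * (A + 3) + 7))
  obtain ⟨CE, hCE⟩ : ∃ CE, CE = C2 + 8 * C1 := ⟨_, rfl⟩
  have hCE0 : 0 < CE := by rw [hCE]; positivity
  obtain ⟨D, hD⟩ : ∃ D : ℝ, D = 4 * k * (CE * Real.sqrt (4 * k * (A + 3)) * Cg + Cg + C3) + Cg := ⟨_, rfl⟩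
  have hkr : (2 : ℝ) ≤ k := by exact_mod_cast hk
  have hD0 : 0 < D := by rw [hD]; positivity
  obtain ⟨J0, hJ0⟩ : ∃ J0, J0 = J1 + 32 * k := ⟨_, rfl⟩
  refine ⟨J0 + (1 + C0 * D), by positivity, 32 * k, by omega, ?_⟩
  intro s J hs hJ3 S hS
  have hJr : (3 : ℝ) ≤ J := by exact_mod_cast hJ3
  have hJp : (0 : ℝ) < J := by linarith
  have hl1 : 1 ≤ Real.log J := by
    rw [Real.le_log_iff_exp_le hJp]
    have := Real.exp_one_lt_d9
    linarith
  obtain ⟨R, hR⟩ : ∃ R, R = Real.sqrt (Real.log J / J) := ⟨_, rfl⟩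
  have hR1 : 1 / (J : ℝ) ≤ R := by
    rw [hR]
    apply Real.le_sqrt_of_sq_le
    rw [div_pow, one_pow]
    apply div_le_div₀ (by linarith) hl1 hJp
    nlinarith
  have hR0 : 0 < R := lt_of_lt_of_le (by positivity) hR1
  rw [← hR]
  have hp : (0 : ℝ) < 2 ^ J := by positivity
  have hsplit : (J0 + (1 + C0 * D)) * 2 ^ J * R = J0 * 2 ^ J * R + (1 + C0 * D) * 2 ^ J * R := by ring
  rw [hsplit]
  rcases Nat.lt_or_ge J J0 with hJs | hJs
  · -- small `J`
    have h2 : S ⊆ range (2 ^ J) := fun n hn => mem_range.2 (hS n hn).2.1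
    have h3 : (S.card : ℝ) ≤ 2 ^ J := by
      have := card_le_card h2
      rw [card_range] at this
      exact_mod_cast this
    have h4 : (2 : ℝ) ^ J ≤ J0 * 2 ^ J * R := by
      have h5 : (J : ℝ) ≤ J0 := by exact_mod_cast hJs.le
      calc (2 : ℝ) ^ J = J * 2 ^ J * (1 / J) := by field_simp
        _ ≤ J0 * 2 ^ J * R := by gcongr
    have h5 : 0 ≤ (1 + C0 * D) * 2 ^ J * R := by positivity
    linarith
  suffices hmain : (S.card : ℝ) ≤ (1 + C0 * D) * 2 ^ J * R by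
    have h5 : 0 ≤ (J0 : ℝ) * 2 ^ J * R := by positivity
    linarith
  -- parameters
  obtain ⟨N, hN⟩ : ∃ N, N = J / (32 * k) := ⟨_, rfl⟩
  obtain ⟨m, hm⟩ : ∃ m, m = J / k := ⟨_, rfl⟩
  obtain ⟨L, hL⟩ : ∃ L, L = J ^ (A + 2) + 5 := ⟨_, rfl⟩
  obtain ⟨a0, ha0⟩ : ∃ a0, a0 = 4 * (Nat.log 2 L + 1) := ⟨_, rfl⟩
  have hkJ : 32 * k ≤ J := by omega
  have hN1 : 1 ≤ N := by
    rw [hN]
    exact (Nat.one_le_div_iff (by omega)).2 hkJ
  have hNm : 32 * N ≤ m := by
    rw [hN, hm, Nat.le_div_iff_mul_le (by omega)]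
    calc 32 * (J / (32 * k)) * k = J / (32 * k) * (32 * k) := by ring
      _ ≤ J := Nat.div_mul_le_self _ _
  have hmk : m * k ≤ J := by rw [hm]; exact Nat.div_mul_le_self _ _
  have hm2' : J < (m + 1) * k := by
    rw [hm, mul_comm]
    exact Nat.lt_mul_div_succ _ (by omega)
  have hmJ : 2 * m ≤ J := by
    calc 2 * m ≤ k * m := Nat.mul_le_mul_right m hk
      _ = m * k := by ring
      _ ≤ J := hmk
  have hLJ : L ≤ J ^ (A + 3) := by
    rw [hL, show A + 3 = (A + 2) + 1 by ring, pow_succ J (A + 2)]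
    have h5 : 3 ^ 2 ≤ J ^ (A + 2) := (Nat.pow_le_pow_left hJ3 2).trans (Nat.pow_le_pow_right (by omega) (by omega))
    nlinarith
  have hL14 : 14 ≤ L := by
    have h5 : 3 ^ 2 ≤ J ^ (A + 2) := (Nat.pow_le_pow_left hJ3 2).trans (Nat.pow_le_pow_right (by omega) (by omega))
    omega
  have hJL : J ^ (A + 2) ≤ L := by omega
  have hJL1 : J ≤ L := (Nat.le_self_pow (by omega) J).trans hJL
  have hl2L : 3 ≤ Nat.log 2 L := Nat.le_log_of_pow_le one_lt_two (by omega)
  have hlogL : Nat.log 2 L < (A + 3) * (Nat.log 2 J + 1) := by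
    apply Nat.log_lt_of_lt_pow (by omega)
    refine lt_of_le_of_lt hLJ ?_
    rw [mul_comm, pow_mul]
    exact Nat.pow_lt_pow_left (Nat.lt_pow_succ_log_self one_lt_two J) (by omega)
  have ha0m : 8 * (a0 + 3) ≤ m := by
    rw [hm, Nat.le_div_iff_mul_le (by omega)]
    have h5 := hJ1 J (by omega)
    have h6 : a0 + 3 ≤ (4 * (A + 3) + 7) * (Nat.log 2 J + 1) := by
      rw [ha0]
      nlinarith
    calc 8 * (a0 + 3) * k = 8 * k * (a0 + 3) := by ring
      _ ≤ 8 * k * ((4 * (A + 3) + 7) * (Nat.log 2 J + 1)) := Nat.mul_le_mul_left _ h6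
      _ = 8 * k * (4 * (A + 3) + 7) * (Nat.log 2 J + 1) := by ring
      _ ≤ J := h5
  obtain ⟨z, hz⟩ : ∃ z, z = 2 ^ m := ⟨_, rfl⟩
  obtain ⟨V, hV⟩ : ∃ V, V = 2 ^ N := ⟨_, rfl⟩
  have hVz : V ≤ z := by
    rw [hV, hz]
    exact Nat.pow_le_pow_right (by norm_num) (by omega)
  have hV2 : 2 ≤ V := by
    rw [hV]
    exact Nat.le_self_pow (by omega) 2
  have hzk : z ^ k ≤ 2 ^ J := by
    rw [hz, ← pow_mul]
    exact Nat.pow_le_pow_right (by norm_num) hmk
  have hLz : L ≤ z := by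
    rw [hz]
    exact (log2_lt L).le.trans (Nat.pow_le_pow_right (by norm_num) (by omega))
  have hVJ : V ≤ 2 ^ J := by
    rw [hV]
    exact Nat.pow_le_pow_right (by norm_num) (by omega)
  have hlog2 := Real.log_two_gt_d9
  have hlog2' := Real.log_two_lt_d9
  have hlz : Real.log z = m * Real.log 2 := by rw [hz]; exact log_two_pow m
  have hlV : Real.log V ≤ J := by
    rw [hV, log_two_pow]
    have h5 : (N : ℝ) ≤ J := by exact_mod_cast (by omega : N ≤ J)
    have h6 : (0 : ℝ) ≤ N := Nat.cast_nonneg _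
    nlinarith
  have hmr : (J : ℝ) ≤ 2 * (m * k) := by
    have h5 : J ≤ 2 * (m * k) := by
      have h6 : 1 ≤ m := by omega
      calc J ≤ (m + 1) * k := hm2'.le
        _ ≤ (2 * m) * k := Nat.mul_le_mul_right k (by omega)
        _ = 2 * (m * k) := by ring
    exact_mod_cast h5
  have hlzJ : (J : ℝ) ≤ 4 * k * Real.log z := by
    rw [hlz]
    have h6 : (0 : ℝ) ≤ m * k := by positivity
    nlinarith
  have hlz0 : 0 < Real.log z := by
    by_contra hc
    push Not at hc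
    nlinarith
  have hlL0 : 0 < Real.log L := Real.log_pos (by exact_mod_cast (by omega : 1 < L))
  have hlL : Real.log L ≤ (A + 3) * Real.log J := by
    calc Real.log L ≤ Real.log ((J : ℝ) ^ (A + 3)) := by
          apply Real.log_le_log (by exact_mod_cast (by omega : 0 < L))
          exact_mod_cast hLJ
      _ = (A + 3) * Real.log J := by rw [Real.log_pow]; push_cast; ring
  obtain ⟨RL, hRL⟩ : ∃ RL, RL = Real.sqrt (Real.log L / Real.log z) := ⟨_, rfl⟩
  have hRL0 : 0 ≤ RL := by rw [hRL]; exact Real.sqrt_nonneg _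
  have hRLR : RL ≤ Real.sqrt (4 * k * (A + 3)) * R := by
    rw [hRL, hR, ← Real.sqrt_mul (by positivity)]
    apply Real.sqrt_le_sqrt
    rw [div_le_iff₀ hlz0]
    have h5 : Real.log L * J ≤ (A + 3) * Real.log J * (4 * k * Real.log z) :=
      mul_le_mul hlL hlzJ hJp.le (by positivity)
    have h6 : 4 * (k : ℝ) * (A + 3) * (Real.log J / J) * Real.log z =
        ((A + 3) * Real.log J * (4 * k * Real.log z)) / J := by
      field_simp
    rw [h6, le_div_iff₀ hJp]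
    exact h5
  -- the mass for one `u`
  have hE : ∀ u ∈ Icc 1 V, ¬ IsSquare (s * (u : ℤ)) →
      ¬ (a0 ≤ Nat.log 2 u ∧ 1 < FS s L (2 ^ (Nat.log 2 u / 4)) u) →
      ∃ P : Finset ℕ, P ⊆ NR s L z u ∧ Real.exp (-(∑ p ∈ P, (1 : ℝ) / p)) ≤ CE * RL := by
    intro u hu hsq hgood
    rw [mem_Icc] at hu
    have hu1 : 2 ^ Nat.log 2 u ≤ u := Nat.pow_log_le_self 2 (by omega)
    have hu2 : u < 2 ^ (Nat.log 2 u + 1) := Nat.lt_pow_succ_log_self one_lt_two u
    rcases Nat.lt_or_ge (Nat.log 2 u) a0 with ha | ha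
    · obtain ⟨e0, he0⟩ : ∃ e0, e0 = 8 * (a0 + 3) := ⟨_, rfl⟩
      obtain ⟨M, hM⟩ : ∃ M, M = 2 ^ e0 := ⟨_, rfl⟩
      have hM1 : (4 * u) ^ 8 ≤ M := by
        rw [hM, he0, mul_comm 8 (a0 + 3), pow_mul]
        apply Nat.pow_le_pow_left
        have h5 : 2 ^ (Nat.log 2 u + 1) ≤ 2 ^ (a0 + 1) := Nat.pow_le_pow_right (by norm_num) (by omega)
        rw [show a0 + 3 = (a0 + 1) + 2 by ring, pow_add]
        omega
      have hMz : M ≤ z := by
        rw [hM, hz]
        exact Nat.pow_le_pow_right (by norm_num) (by omega)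
      have hLM : L ≤ M := by
        rw [hM]
        exact (log2_lt L).le.trans (Nat.pow_le_pow_right (by norm_num) (by omega))
      refine ⟨NR s M z u, NR_sub hLM le_rfl, ?_⟩
      refine (hm1 s u M z hs hu.1 hM1 hMz hsq).trans ?_
      have h6 : Real.sqrt (Real.log M / Real.log z) ≤ 8 * RL := by
        have h7 : Real.log M ≤ 8 ^ 2 * Real.log L := by
          rw [hM, log_two_pow]
          have h8 : (Nat.log 2 L : ℝ) * Real.log 2 ≤ Real.log L := by
            rw [← Real.log_pow]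
            apply Real.log_le_log (by positivity)
            exact_mod_cast Nat.pow_log_le_self 2 (by omega)
          have h9 : e0 ≤ 64 * Nat.log 2 L := by omega
          have h10 : (e0 : ℝ) ≤ 64 * (Nat.log 2 L : ℝ) := by exact_mod_cast h9
          calc (e0 : ℝ) * Real.log 2 ≤ 64 * (Nat.log 2 L : ℝ) * Real.log 2 :=
                mul_le_mul_of_nonneg_right h10 (by linarith)
            _ = 64 * ((Nat.log 2 L : ℝ) * Real.log 2) := by ring
            _ ≤ 64 * Real.log L := mul_le_mul_of_nonneg_left h8 (by norm_num)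
            _ = _ := by norm_num
        have h8 : Real.log M / Real.log z ≤ 8 ^ 2 * (Real.log L / Real.log z) := by
          rw [← mul_div_assoc]
          exact div_le_div_of_nonneg_right h7 hlz0.le
        rw [hRL]
        refine (Real.sqrt_le_sqrt h8).trans (le_of_eq ?_)
        rw [Real.sqrt_mul (by positivity), Real.sqrt_sq (by norm_num)]
      calc C1 * Real.sqrt (Real.log M / Real.log z) ≤ C1 * (8 * RL) := mul_le_mul_of_nonneg_left h6 hC1.le
        _ ≤ CE * RL := by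
          rw [hCE]
          nlinarith [mul_nonneg hC2.le hRL0]
    · obtain ⟨a, hau⟩ : ∃ a, a = Nat.log 2 u := ⟨_, rfl⟩
      rw [← hau] at ha hu1 hu2 hgood
      have hFS : FS s L (2 ^ (a / 4)) u ≤ 1 := by
        by_contra hc
        push Not at hc
        exact hgood ⟨ha, hc⟩
      have haN : a ≤ N := by
        have : Nat.log 2 u ≤ Nat.log 2 (2 ^ N) := Nat.log_mono_right (by rw [← hV]; exact hu.2)
        rw [Nat.log_pow one_lt_two] at this
        omega
      obtain ⟨U, hU⟩ : ∃ U, U = 2 ^ (a / 4) := ⟨_, rfl⟩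
      obtain ⟨e1, he1⟩ : ∃ e1, e1 = 8 * (a + 3) := ⟨_, rfl⟩
      obtain ⟨M, hM⟩ : ∃ M, M = 2 ^ e1 := ⟨_, rfl⟩
      have hMz : M ≤ z := by
        rw [hM, hz]
        exact Nat.pow_le_pow_right (by norm_num) (by omega)
      have hUz : U ≤ z := by
        rw [hU, hz]
        exact Nat.pow_le_pow_right (by norm_num) (by omega)
      have hLM : L ≤ M := by
        rw [hM]
        exact (log2_lt L).le.trans (Nat.pow_le_pow_right (by norm_num) (by omega))
      rw [← hU] at hFS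
      have huL : u < 2 ^ L := by
        have h5 : V < 2 ^ J := by
          rw [hV]
          exact Nat.pow_lt_pow_right (by norm_num) (by omega)
        exact lt_of_lt_of_le (lt_of_le_of_lt hu.2 h5) (Nat.pow_le_pow_right (by norm_num) hJL1)
      refine ⟨NR s L U u ∪ NR s M z u, union_subset (NR_sub le_rfl hUz) (NR_sub hLM le_rfl), ?_⟩
      refine (hm2 s L a z u U M hs (by omega) (by omega) hU (by rw [hM, he1]) hMz hu1 hu2 huL hsq hFS).trans ?_
      rw [← hRL, hCE]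
      nlinarith [mul_nonneg hC1.le hRL0]
  -- the count for one `u`
  set SQ := (Icc 1 V).filter (fun u : ℕ => IsSquare (s * (u : ℤ))) with hSQ
  set SB := (Icc 1 V).filter (fun u => a0 ≤ Nat.log 2 u ∧ 1 < FS s L (2 ^ (Nat.log 2 u / 4)) u) with hSB
  set Su : ℕ → Finset ℕ := fun u => S.filter (fun n => z ≤ n ∧ ∃ w, WP s n u w) with hSu
  have hu1 : ∀ u ∈ Icc 1 V, ((Su u).card : ℝ) ≤ C0 * 2 ^ J * ((G u / u) *
      ((CE * RL + (if u ∈ SQ then 1 else 0) + (if u ∈ SB then 1 else 0)) / Real.log z + 1 / L)) := by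
    intro u hu
    have hu' := mem_Icc.1 hu
    have hcond : ∀ n ∈ Su u, z ≤ n ∧ n < 2 ^ J ∧ ∃ w, WP s n u w := by
      intro n hn
      rw [hSu] at hn
      simp only [mem_filter] at hn
      exact ⟨hn.2.1, (hS n hn.1).2.1, hn.2.2⟩
    have hGu : 0 ≤ C0 * 2 ^ J * (G u / u) := by
      have := G_nonneg u
      positivity
    have hfin : ∀ P : Finset ℕ, P ⊆ NR s L z u →
        Real.exp (-(∑ p ∈ P, (1 : ℝ) / p)) ≤
          CE * RL + (if u ∈ SQ then 1 else 0) + (if u ∈ SB then 1 else 0) →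
        ((Su u).card : ℝ) ≤ C0 * 2 ^ J * ((G u / u) *
          ((CE * RL + (if u ∈ SQ then 1 else 0) + (if u ∈ SB then 1 else 0)) / Real.log z + 1 / L)) := by
      intro P hP hPe
      have h5 := h1 s J L z u hs (by omega) hLz hzk hu'.1 (hu'.2.trans hVz) P hP (Su u) hcond
      refine h5.trans ?_
      rw [← mul_assoc]
      apply mul_le_mul_of_nonneg_left _ hGu
      have := div_le_div_of_nonneg_right hPe hlz0.le
      linarith
    have hCR : 0 ≤ CE * RL := by positivity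
    by_cases hq : u ∈ SQ
    · apply hfin ∅ (empty_subset _)
      rw [sum_empty, neg_zero, Real.exp_zero, if_pos hq]
      split_ifs <;> linarith
    by_cases hbd : u ∈ SB
    · apply hfin ∅ (empty_subset _)
      rw [sum_empty, neg_zero, Real.exp_zero, if_pos hbd, if_neg hq]
      linarith
    obtain ⟨P, hP, hPe⟩ := hE u hu (fun h => hq (mem_filter.2 ⟨hu, h⟩)) (fun h => hbd (mem_filter.2 ⟨hu, h⟩))
    apply hfin P hP
    rw [if_neg hq, if_neg hbd]
    linarith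
  -- the sum over `u`
  have hsum1 : ∑ u ∈ Icc 1 V, G u / u ≤ Cg * J := (hG1 V hV2).trans (mul_le_mul_of_nonneg_left hlV hCg.le)
  have hsum2 : ∑ u ∈ SQ, G u / u ≤ Cg := sq_sum Cg hG3 s hs V
  have hsum3 : ∑ u ∈ SB, G u / u ≤ C3 := by
    rw [hSB, hV]
    exact bad_all A C3 hC3 s J L a0 N (by omega) (by omega) hJL (fun a ha => hb s L a hs (by omega) (by omega))
  have hsum : ∑ u ∈ Icc 1 V, ((Su u).card : ℝ) ≤
      C0 * 2 ^ J * ((CE * RL * (Cg * J) + Cg + C3) / Real.log z + Cg * J / L) := by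
    refine (sum_le_sum hu1).trans ?_
    rw [← mul_sum]
    apply mul_le_mul_of_nonneg_left _ (by positivity)
    have e1 : ∀ u ∈ Icc 1 V, (G u / u) * ((CE * RL + (if u ∈ SQ then 1 else 0) + (if u ∈ SB then 1 else 0)) /
        Real.log z + 1 / L) = (CE * RL / Real.log z + 1 / L) * (G u / u) +
        ((if u ∈ SQ then G u / u else 0) + (if u ∈ SB then G u / u else 0)) / Real.log z := by
      intro u _
      split_ifs <;> ring
    rw [sum_congr rfl e1, sum_add_distrib, ← mul_sum, ← sum_div, sum_add_distrib, ← sum_filter, ← sum_filter]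
    have e2 : (Icc 1 V).filter (fun u => u ∈ SQ) = SQ := by
      ext u
      rw [mem_filter]
      exact ⟨fun h => h.2, fun h => ⟨(mem_filter.1 h).1, h⟩⟩
    have e3 : (Icc 1 V).filter (fun u => u ∈ SB) = SB := by
      ext u
      rw [mem_filter]
      exact ⟨fun h => h.2, fun h => ⟨(mem_filter.1 h).1, h⟩⟩
    rw [e2, e3]
    have hL0 : (0 : ℝ) < L := by exact_mod_cast (by omega : 0 < L)
    have f1 : (CE * RL / Real.log z + 1 / L) * ∑ u ∈ Icc 1 V, G u / u ≤
        (CE * RL / Real.log z + 1 / L) * (Cg * J) := mul_le_mul_of_nonneg_left hsum1 (by positivity)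
    have f2 : (∑ u ∈ SQ, G u / u + ∑ u ∈ SB, G u / u) / Real.log z ≤ (Cg + C3) / Real.log z :=
      div_le_div_of_nonneg_right (by linarith) hlz0.le
    have f3 : (CE * RL * (Cg * J) + Cg + C3) / Real.log z + Cg * J / L =
        (CE * RL / Real.log z + 1 / L) * (Cg * J) + (Cg + C3) / Real.log z := by ring
    rw [f3]
    linarith
  have hcover : S ⊆ (S.filter (fun n => n < z)) ∪ (Icc 1 V).biUnion Su := by
    intro n hn
    obtain ⟨hn1, hnJ, u, w, huV, hw⟩ := hS n hn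
    rw [mem_union]
    by_cases hnz : n < z
    · exact Or.inl (mem_filter.2 ⟨hn, hnz⟩)
    · right
      push Not at hnz
      rw [mem_biUnion]
      refine ⟨u, mem_Icc.2 ⟨?_, ?_⟩, ?_⟩
      · by_contra hc
        have h0 : u = 0 := by omega
        have := hw.1
        rw [h0, zero_mul] at this
        omega
      · rw [hV, hN]
        exact huV
      · rw [hSu]
        simp only [mem_filter]
        exact ⟨hn, hnz, w, hw⟩
  have hcz : ((S.filter (fun n => n < z)).card : ℝ) ≤ 2 ^ J * R := by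
    have h5 : S.filter (fun n => n < z) ⊆ range z := fun n hn => mem_range.2 (mem_filter.1 hn).2
    have h6 : ((S.filter (fun n => n < z)).card : ℝ) ≤ z := by
      have := card_le_card h5
      rw [card_range] at this
      exact_mod_cast this
    have h7 : z * J ≤ 2 ^ J := by
      have h8 : J ≤ 2 ^ (J - m) := by
        have h9 := two_mul_le_pow (J - m) (by omega)
        omega
      calc z * J ≤ 2 ^ m * 2 ^ (J - m) := by
            rw [hz]
            exact Nat.mul_le_mul_left _ h8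
        _ = 2 ^ J := by rw [← pow_add]; congr 1; omega
    have h8 : (z : ℝ) * J ≤ 2 ^ J := by exact_mod_cast h7
    calc ((S.filter (fun n => n < z)).card : ℝ) ≤ z := h6
      _ = z * J * (1 / J) := by field_simp
      _ ≤ 2 ^ J * R := mul_le_mul h8 hR1 (by positivity) hp.le
  have hc : (S.card : ℝ) ≤ ((S.filter (fun n => n < z)).card : ℝ) + ∑ u ∈ Icc 1 V, ((Su u).card : ℝ) := by
    have := (card_le_card hcover).trans ((card_union_le _ _).trans (Nat.add_le_add_left card_biUnion_le _))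
    exact_mod_cast this
  have hDb : (CE * RL * (Cg * J) + Cg + C3) / Real.log z + Cg * J / L ≤ D * R := by
    have hL0 : (0 : ℝ) < L := by exact_mod_cast (by omega : 0 < L)
    have g1 : 1 / Real.log z ≤ 4 * k * (1 / J) := by
      rw [mul_one_div, div_le_div_iff₀ hlz0 hJp]
      linarith
    have g2 : Cg * J / L ≤ Cg * R := by
      have g3 : (J : ℝ) / L ≤ 1 / J := by
        rw [div_le_div_iff₀ hL0 hJp]
        have g4 : J * J ≤ L := by
          calc J * J = J ^ 2 := by ring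
            _ ≤ J ^ (A + 2) := Nat.pow_le_pow_right (by omega) (by omega)
            _ ≤ L := hJL
        have g5 : (J : ℝ) * J ≤ L := by exact_mod_cast g4
        linarith
      calc Cg * J / L = Cg * (J / L) := by ring
        _ ≤ Cg * (1 / J) := mul_le_mul_of_nonneg_left g3 hCg.le
        _ ≤ Cg * R := mul_le_mul_of_nonneg_left hR1 hCg.le
    have g6 : (CE * RL * (Cg * J) + Cg + C3) / Real.log z ≤
        4 * k * (CE * Real.sqrt (4 * k * (A + 3)) * Cg + Cg + C3) * R := by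
      have g7 : 0 ≤ CE * RL * (Cg * J) + Cg + C3 := by positivity
      calc (CE * RL * (Cg * J) + Cg + C3) / Real.log z = (CE * RL * (Cg * J) + Cg + C3) * (1 / Real.log z) := by ring
        _ ≤ (CE * RL * (Cg * J) + Cg + C3) * (4 * k * (1 / J)) := mul_le_mul_of_nonneg_left g1 g7
        _ = 4 * k * (CE * Cg * RL * (J * (1 / J)) + (Cg + C3) * (1 / J)) := by ring
        _ = 4 * k * (CE * Cg * RL + (Cg + C3) * (1 / J)) := by
          have g9 : (J : ℝ) * (1 / J) = 1 := by field_simp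
          rw [g9, mul_one]
        _ ≤ 4 * k * (CE * Cg * (Real.sqrt (4 * k * (A + 3)) * R) + (Cg + C3) * R) := by gcongr
        _ = _ := by ring
    rw [hD]
    have g8 : (4 * k * (CE * Real.sqrt (4 * k * (A + 3)) * Cg + Cg + C3) + Cg) * R =
        4 * k * (CE * Real.sqrt (4 * k * (A + 3)) * Cg + Cg + C3) * R + Cg * R := by ring
    rw [g8]
    linarith
  have hfinal : C0 * 2 ^ J * ((CE * RL * (Cg * J) + Cg + C3) / Real.log z + Cg * J / L) ≤ C0 * 2 ^ J * (D * R) :=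
    mul_le_mul_of_nonneg_left hDb (by positivity)
  have hfin2 : (1 + C0 * D) * 2 ^ J * R = 2 ^ J * R + C0 * 2 ^ J * (D * R) := by ring
  rw [hfin2]
  linarith

end Pool.Agent.H37.OH.WpsP
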