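import Pool.Agent.H37.OH.Low
import Pool.Agent.H37.OH.Mid
import Pool.Agent.H37.OH.Wps
import Pool.Agent.H80.FP.FR
import Pool.Agent.H12.FO.Main

/-!
OH Fin: the rate of the exceptional orders.
-/

set_option autoImplicit false

namespace Pool.Agent.H37.OH

open Finset
open Pool.Agent.H37.PPC (pr mem_pr)
open Pool.Agent.H12.FO
open Pool.Agent.H37.OH.LowP (low)
open Pool.Agent.H37.OH.WpsP (wps)
open Pool.Agent.H80.FP (Ce DZ FR_sg FR_other Sg)
open Pool.Agent.H37.PPD (ll)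

/-- numbers divisible by a large square -/
private theorem fin_sq (y x : ℕ) (hy : 1 ≤ y) (S : Finset ℕ)
    (hS : ∀ n ∈ S, 1 ≤ n ∧ n ≤ x ∧ ∃ p : ℕ, y < p ∧ p ^ 2 ∣ n) : (S.card : ℝ) ≤ 2 / y * x := by
  classical
  have h1 : S ⊆ (Ioo y (x + 1)).biUnion fun p => (Ioc 0 x).filter fun n => p ^ 2 ∣ n := by
    intro n hn
    obtain ⟨hn1, hnx, p, hp, hpn⟩ := hS n hn
    rw [mem_biUnion]
    refine ⟨p, mem_Ioo.2 ⟨hp, ?_⟩, mem_filter.2 ⟨mem_Ioc.2 ⟨hn1, hnx⟩, hpn⟩⟩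
    have h2 := Nat.le_of_dvd hn1 hpn
    have h3 : p ≤ p ^ 2 := Nat.le_self_pow (by norm_num) p
    omega
  have h2 : ∀ p ∈ Ioo y (x + 1), ((((Ioc 0 x).filter fun n => p ^ 2 ∣ n).card : ℕ) : ℝ) ≤
      x * ((p : ℝ) ^ 2)⁻¹ := by
    intro p _
    rw [Nat.Ioc_filter_dvd_card_eq_div]
    have h3 := Nat.cast_div_le (m := x) (n := p ^ 2) (α := ℝ)
    push_cast at h3
    rw [div_eq_mul_inv] at h3
    exact h3
  have h3 : (S.card : ℝ) ≤ ∑ p ∈ Ioo y (x + 1), ((((Ioc 0 x).filter fun n => p ^ 2 ∣ n).card : ℕ) : ℝ) := by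
    exact_mod_cast (card_le_card h1).trans card_biUnion_le
  refine h3.trans ((sum_le_sum h2).trans ?_)
  rw [← mul_sum]
  have h4 := sum_Ioo_inv_sq_le (α := ℝ) y (x + 1)
  have hy' : (0 : ℝ) < y := by exact_mod_cast hy
  have h5 : (2 : ℝ) / ((y : ℝ) + 1) ≤ 2 / y :=
    div_le_div_of_nonneg_left (by norm_num) hy' (by linarith)
  have hx0 : (0 : ℝ) ≤ x := Nat.cast_nonneg x
  calc (x : ℝ) * ∑ p ∈ Ioo y (x + 1), ((p : ℝ) ^ 2)⁻¹ ≤ x * (2 / y) :=
        mul_le_mul_of_nonneg_left (h4.trans h5) hx0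
    _ = 2 / y * x := by ring

/-- the symbol of the cofactor -/
private theorem fin_wp {n q t p : ℕ} (hq : q.Prime) (hq2 : q ≠ 2) (ht : t * q = n ^ 2 + n + 1) (hT : Tq n q)
    (hp : p.Prime) (hp5 : 5 ≤ p) (hj : jacobiSym (sg q * t) p = -1) (hpn : p ∣ n) : p ^ 2 ∣ n := by
  by_contra hc
  have h1 := hT p hp hpn hc
  have hp2 : p ≠ 2 := by omega
  have h5 := recip p q hp hq hp2 hq2
  have : Fact q.Prime := ⟨hq⟩
  have : Fact p.Prime := ⟨hp⟩
  have hpq : p ≠ q := by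
    rintro rfl
    have h6 : p ∣ n ^ 2 + n + 1 := Dvd.intro_left t ht
    have h7 : p ∣ n ^ 2 + n := by
      have : n ^ 2 + n = n * (n + 1) := by ring
      rw [this]
      exact Dvd.dvd.mul_right hpn _
    have h8 := (Nat.dvd_add_right h7).1 h6
    have := Nat.le_of_dvd one_pos h8
    omega
  -- `(p / q) = 1`
  have h6 : jacobiSym p q = 1 := by
    rw [← jacobiSym.legendreSym.to_jacobiSym]
    have hp0 : ((p : ℤ) : ZMod q) ≠ 0 := by
      rw [Int.cast_natCast, Ne, ZMod.natCast_eq_zero_iff]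
      intro h7
      exact hpq ((Nat.prime_dvd_prime_iff_eq hq hp).1 h7).symm
    rw [legendreSym.eq_one_iff q hp0]
    simpa using h1
  rw [h6] at h5
  -- `(t / p) (q / p) = 1`
  have h7 : jacobiSym ((t : ℤ) * q) p = 1 := by
    have h8 : ((t : ℤ) * q) % p = 1 % p := by
      have h9 : ((t : ℤ) * q) = n * (n + 1) + 1 := by
        have : ((t * q : ℕ) : ℤ) = ((n ^ 2 + n + 1 : ℕ) : ℤ) := by rw [ht]
        push_cast at this
        rw [this]
        ring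
      rw [h9]
      obtain ⟨c, hc'⟩ := hpn
      rw [hc']
      push_cast
      have e : ((p : ℤ) * c * (p * c + 1) + 1) = 1 + p * (c * (p * c + 1)) := by ring
      rw [e, Int.add_mul_emod_self_left]
    rw [jacobiSym.mod_left' h8, jacobiSym.one_left]
  rw [jacobiSym.mul_left] at h7 hj h5
  -- signs
  generalize jacobiSym (sg q) p = α at hj h5
  generalize jacobiSym (t : ℤ) p = β at hj h7
  generalize jacobiSym (q : ℤ) p = γ at h5 h7
  have e1 : α * β * γ = -γ := by rw [hj]; ring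
  have e2 : α * β * γ = α := by rw [mul_assoc, h7, mul_one]
  have e3 : α = -γ := by rw [← e2, e1]
  rw [e3] at h5
  nlinarith [mul_self_nonneg γ]

private theorem fin_card {N : ℕ} {S : Finset ℕ} {Q : ℕ → ℕ → Prop}
    (h : ∀ n ∈ S, 2 ≤ n ∧ n < N ∧ ∃ q, Q n q) : (S.card : ℝ) ≤ Cnt N Q := by
  classical
  unfold Cnt
  rw [Nat.cast_le]
  refine card_le_card ?_
  intro n hn
  obtain ⟨h1, h2, h3⟩ := h n hn
  exact mem_filter.2 ⟨mem_Ico.2 ⟨h1, h2⟩, h3⟩

/-- the elementary inequalities -/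
private theorem fin_ineq (K J : ℕ) (hK : 1 ≤ K) (hJ : 4 * K ≤ J) (hJ3 : 3 ≤ J) :
    1 ≤ Real.log J ∧ 1 / (J : ℝ) ≤ Real.sqrt (Real.log J / J) ∧
    Real.exp ((1 / 2) * ll (max 5 (J + 1))) * (1 / Real.sqrt ((J / K - 1 : ℕ) : ℝ)) ≤
      3 * Real.sqrt K * Real.sqrt (Real.log J / J) := by
  have hJr : (3 : ℝ) ≤ J := by exact_mod_cast hJ3
  have hJ0 : (0 : ℝ) < J := by linarith
  have hKr : (1 : ℝ) ≤ K := by exact_mod_cast hK
  have hl1 : 1 ≤ Real.log J := by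
    rw [Real.le_log_iff_exp_le hJ0]
    have := Real.exp_one_lt_d9
    linarith
  have h1 : 1 / (J : ℝ) ≤ Real.sqrt (Real.log J / J) := by
    apply Real.le_sqrt_of_sq_le
    rw [div_pow, one_pow]
    apply div_le_div₀ (by linarith) hl1 hJ0
    nlinarith
  refine ⟨hl1, h1, ?_⟩
  have hm : max 5 (J + 1) ≤ J ^ 2 := by
    apply max_le <;> nlinarith
  have hm5 : 5 ≤ max 5 (J + 1) := le_max_left _ _
  have hlm : Real.log ((max 5 (J + 1) : ℕ) : ℝ) ≤ 2 * Real.log J := by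
    calc Real.log ((max 5 (J + 1) : ℕ) : ℝ) ≤ Real.log ((J : ℝ) ^ 2) := by
          apply Real.log_le_log
          · exact_mod_cast (by omega : 0 < max 5 (J + 1))
          · exact_mod_cast hm
      _ = 2 * Real.log J := by rw [Real.log_pow]; norm_num
  have hlp : 0 < Real.log ((max 5 (J + 1) : ℕ) : ℝ) :=
    Real.log_pos (by exact_mod_cast (by omega : 1 < max 5 (J + 1)))
  have he : Real.exp ((1 / 2) * ll (max 5 (J + 1))) = Real.sqrt (Real.log ((max 5 (J + 1) : ℕ) : ℝ)) := by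
    unfold ll
    rw [Real.sqrt_eq_rpow, Real.rpow_def_of_pos hlp]
    congr 1
    ring
  have hq : (J : ℝ) / (2 * K) ≤ ((J / K - 1 : ℕ) : ℝ) := by
    rw [div_le_iff₀ (by positivity)]
    have h2 : J < K * (J / K) + K := by
      have := Nat.lt_mul_div_succ J (show 0 < K by omega)
      linarith
    have h3 : 1 ≤ J / K := (Nat.one_le_div_iff (by omega)).2 (by omega)
    obtain ⟨c, hc⟩ : ∃ c, J / K = c + 1 := ⟨J / K - 1, by omega⟩
    rw [hc] at h2 ⊢
    rw [Nat.add_sub_cancel]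
    have h4 : (J : ℝ) < K * (c + 1) + K := by exact_mod_cast h2
    have h5 : (4 : ℝ) * K ≤ J := by exact_mod_cast hJ
    nlinarith
  have hq0 : (0 : ℝ) < (J : ℝ) / (2 * K) := by positivity
  have hs1 : 1 / Real.sqrt ((J / K - 1 : ℕ) : ℝ) ≤ 1 / Real.sqrt ((J : ℝ) / (2 * K)) :=
    one_div_le_one_div_of_le (Real.sqrt_pos.2 hq0) (Real.sqrt_le_sqrt hq)
  have hs2 : 1 / Real.sqrt ((J : ℝ) / (2 * K)) = Real.sqrt (2 * K) / Real.sqrt J := by
    rw [Real.sqrt_div hJ0.le, one_div_div]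
  rw [he]
  calc Real.sqrt (Real.log ((max 5 (J + 1) : ℕ) : ℝ)) * (1 / Real.sqrt ((J / K - 1 : ℕ) : ℝ))
      ≤ Real.sqrt (2 * Real.log J) * (Real.sqrt (2 * K) / Real.sqrt J) := by
        apply mul_le_mul (Real.sqrt_le_sqrt hlm) (hs1.trans (le_of_eq hs2)) (by positivity) (by positivity)
    _ = 2 * Real.sqrt K * Real.sqrt (Real.log J / J) := by
        rw [Real.sqrt_mul (by norm_num), Real.sqrt_mul (by norm_num), Real.sqrt_div (by linarith)]
        have h2 : Real.sqrt 2 * Real.sqrt 2 = 2 := Real.mul_self_sqrt (by norm_num)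
        calc Real.sqrt 2 * Real.sqrt (Real.log J) * (Real.sqrt 2 * Real.sqrt K / Real.sqrt J)
            = (Real.sqrt 2 * Real.sqrt 2) * Real.sqrt K * (Real.sqrt (Real.log J) / Real.sqrt J) := by ring
          _ = _ := by rw [h2]
    _ ≤ 3 * Real.sqrt K * Real.sqrt (Real.log J / J) := by
        apply mul_le_mul_of_nonneg_right _ (Real.sqrt_nonneg _)
        apply mul_le_mul_of_nonneg_right (by norm_num) (Real.sqrt_nonneg _)

/-- the count below `2 ^ J` -/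
theorem bad_J : ∃ C : ℝ, 0 < C ∧ ∃ J0 : ℕ, 3 ≤ J0 ∧ ∀ J : ℕ, J0 ≤ J → ∀ S : Finset ℕ,
    (∀ n ∈ S, 2 ≤ n ∧ n < 2 ^ J ∧ ∃ q, BadQ n q) →
    (S.card : ℝ) ≤ C * 2 ^ J * (Real.log J * Real.sqrt (Real.log J / J)) := by
  classical
  obtain ⟨C1, hC1, K1, hK1, h1⟩ := low
  obtain ⟨C4, hC4, K4, hK4, h4⟩ := wps
  obtain ⟨K, hK⟩ : ∃ K, K = K1 + K4 := ⟨_, rfl⟩
  obtain ⟨C2, hC2, h2⟩ := midK K (by omega)
  obtain ⟨C3, hC3, h3⟩ := DZ
  refine ⟨C1 + C2 + 2 + C3 * (3 * Real.sqrt K) + 2 * C4, by positivity, 4 * K, by omega, ?_⟩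
  intro J hJ S hS
  have hJ3 : 3 ≤ J := by omega
  obtain ⟨hl1, i1, i2⟩ := fin_ineq K J (by omega) hJ hJ3
  have hJr : (3 : ℝ) ≤ J := by exact_mod_cast hJ3
  have hp : (0 : ℝ) < 2 ^ J := by positivity
  obtain ⟨R, hR⟩ : ∃ R, R = Real.sqrt (Real.log J / J) := ⟨_, rfl⟩
  have hR0 : 0 ≤ R := by rw [hR]; exact Real.sqrt_nonneg _
  have hRR : R ≤ Real.log J * R := by nlinarith
  rw [← hR] at i1 i2 ⊢
  set SL := S.filter fun n => ∃ q, q < 2 ^ (J / K) ∧ BadQ n q with hSL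
  set SM := S.filter fun n => ∃ q, 2 ^ (J / K) ≤ q ∧ BadP n q with hSM
  set SS := S.filter fun n => ∃ p : ℕ, J < p ∧ p ^ 2 ∣ n with hSS
  set SD := S.filter fun n => ∃ (b σ : Bool) (u w : ℕ), Ce (J + 1) n u w b σ ∧ 2 ^ (J / K - 1) < u with hSD
  set SW : ℤ → Finset ℕ := fun s => S.filter fun n => ∃ u w : ℕ, u ≤ 2 ^ (J / K4) ∧ WP s n u w with hSW
  have hsub : S ⊆ (SL ∪ SM) ∪ (SS ∪ SD) ∪ (SW 1 ∪ SW (-1)) := by
    intro n hn
    obtain ⟨hn2, hnJ, q, hq, hq2, hqd, hT⟩ := hS n hn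
    rw [mem_union, mem_union, mem_union, mem_union, mem_union]
    by_cases hqs : q < 2 ^ (J / K)
    · exact Or.inl (Or.inl (Or.inl (mem_filter.2 ⟨hn, q, hqs, hq, hq2, hqd, hT⟩)))
    push Not at hqs
    rcases (Nat.Prime.dvd_mul hq).1 hqd with hqB | hqn
    · exact Or.inl (Or.inl (Or.inr (mem_filter.2 ⟨hn, q, hqs, hq, hq2, hqB, hT⟩)))
    by_cases hsq : ∃ p : ℕ, J < p ∧ p ^ 2 ∣ n
    · exact Or.inl (Or.inr (Or.inl (mem_filter.2 ⟨hn, hsq⟩)))
    push Not at hsq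
    obtain ⟨t, ht⟩ := hqn
    have hqn : q ∣ n ^ 2 + n + 1 := ⟨t, ht⟩
    have hsg : ∀ p : ℕ, p.Prime → 5 ≤ p → J + 1 ≤ p → p ∣ n →
        Sg (decide (q % 4 = 1)) p (q : ZMod p) := by
      intro p hp hp5 hpy hpn
      exact FR_sg hq hqn hp hp5 hpn (hT p hp hpn (hsq p (by omega)))
    have hJK : 1 ≤ J / K := (Nat.one_le_div_iff (by omega)).2 (by omega)
    have hlt : 2 ^ (J / K - 1) < 2 ^ (J / K) := Nat.pow_lt_pow_right (by norm_num) (by omega)
    rcases le_or_gt q t with hqt | hqt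
    · exact Or.inl (Or.inr (Or.inr (mem_filter.2 ⟨hn, true, decide (q % 4 = 1), q, t,
        ⟨ht.symm, hqt, hq, hsg⟩, by omega⟩)))
    · by_cases hV : t ≤ 2 ^ (J / K - 1)
      · have hV4 : t ≤ 2 ^ (J / K4) := hV.trans (hlt.le.trans (Nat.pow_le_pow_right (by norm_num)
          (Nat.div_le_div_left (by omega) (by omega))))
        have hw : WP (sg q) n t q := ⟨by rw [mul_comm]; exact ht.symm, hq, fun p hp hp5 hj hpn =>
          fin_wp hq hq2 (by rw [mul_comm]; exact ht.symm) hT hp hp5 hj hpn⟩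
        right
        rcases sg_eq q with h5 | h5
        · rw [h5] at hw
          exact Or.inl (mem_filter.2 ⟨hn, t, q, hV4, hw⟩)
        · rw [h5] at hw
          exact Or.inr (mem_filter.2 ⟨hn, t, q, hV4, hw⟩)
      · refine Or.inl (Or.inr (Or.inr (mem_filter.2 ⟨hn, false, decide (q % 4 = 1), t, q,
          ⟨by rw [mul_comm]; exact ht.symm, hqt.le, hq, ?_⟩, by omega⟩)))
        intro p hp hp5 hpy hpn
        exact FR_other (by rw [mul_comm]; exact ht.symm) hpn (hsg p hp hp5 hpy hpn)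
  -- the bounds
  have c1 : (SL.card : ℝ) ≤ C1 * 2 ^ J * (Real.log J * R) := by
    refine (fin_card (N := 2 ^ J) (Q := fun n q => q < 2 ^ (J / K1) ∧ BadQ n q) ?_).trans (by rw [hR]; exact h1 J hJ3)
    intro n hn
    rw [hSL, mem_filter] at hn
    obtain ⟨hnS, q, hq, hB⟩ := hn
    exact ⟨(hS n hnS).1, (hS n hnS).2.1, q, lt_of_lt_of_le hq (Nat.pow_le_pow_right (by norm_num)
      (Nat.div_le_div_left (by omega) (by omega))), hB⟩
  have c2 : (SM.card : ℝ) ≤ C2 * 2 ^ J * R := by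
    refine (fin_card (N := 2 ^ J) (Q := fun n q => 2 ^ (J / K) ≤ q ∧ BadP n q) ?_).trans (by rw [hR]; exact h2 J hJ3)
    intro n hn
    rw [hSM, mem_filter] at hn
    exact ⟨(hS n hn.1).1, (hS n hn.1).2.1, hn.2⟩
  have c3 : (SS.card : ℝ) ≤ 2 / (J : ℝ) * (2 ^ J : ℕ) := by
    refine fin_sq J (2 ^ J) (by omega) SS ?_
    intro n hn
    rw [hSS, mem_filter] at hn
    have := hS n hn.1
    exact ⟨by omega, by omega, hn.2⟩
  have c4 := h3 (J + 1) (2 ^ J) (J / K - 1) (by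
    have : 4 ≤ J / K := (Nat.le_div_iff_mul_le (by omega)).2 hJ
    omega) SD (fun n hn => by
    rw [hSD, mem_filter] at hn
    have := hS n hn.1
    exact ⟨by omega, hn.2⟩)
  have c5 : ∀ s : ℤ, (s = 1 ∨ s = -1) → ((SW s).card : ℝ) ≤ C4 * 2 ^ J * R := by
    intro s hs
    rw [hR]
    refine h4 s J hs hJ3 (SW s) ?_
    intro n hn
    rw [hSW] at hn
    simp only [mem_filter] at hn
    have := hS n hn.1
    exact ⟨by omega, by omega, hn.2⟩
  have c6 := c5 1 (Or.inl rfl)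
  have c7 := c5 (-1) (Or.inr rfl)
  have hc : (S.card : ℝ) ≤ ((SL.card : ℝ) + SM.card + (SS.card + SD.card)) + ((SW 1).card + (SW (-1)).card) := by
    have e := (card_le_card hsub).trans ((card_union_le _ _).trans (Nat.add_le_add ((card_union_le _ _).trans
      (Nat.add_le_add (card_union_le _ _) (card_union_le _ _))) (card_union_le _ _)))
    exact_mod_cast e
  -- numbers
  have d3 : 2 / (J : ℝ) * (2 ^ J : ℕ) ≤ 2 * 2 ^ J * (Real.log J * R) := by
    push_cast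
    calc 2 / (J : ℝ) * 2 ^ J = 2 * 2 ^ J * (1 / J) := by ring
      _ ≤ 2 * 2 ^ J * (Real.log J * R) := mul_le_mul_of_nonneg_left (i1.trans hRR) (by positivity)
  have d4 : (SD.card : ℝ) ≤ C3 * (3 * Real.sqrt K) * 2 ^ J * (Real.log J * R) := by
    push_cast at c4
    calc (SD.card : ℝ) ≤ C3 * Real.exp ((1 / 2) * ll (max 5 (J + 1))) * 2 ^ J *
          (1 / Real.sqrt ((J / K - 1 : ℕ) : ℝ)) := c4
      _ = C3 * 2 ^ J * (Real.exp ((1 / 2) * ll (max 5 (J + 1))) * (1 / Real.sqrt ((J / K - 1 : ℕ) : ℝ))) := by ring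
      _ ≤ C3 * 2 ^ J * (3 * Real.sqrt K * R) := mul_le_mul_of_nonneg_left i2 (by positivity)
      _ = C3 * (3 * Real.sqrt K) * 2 ^ J * R := by ring
      _ ≤ C3 * (3 * Real.sqrt K) * 2 ^ J * (Real.log J * R) := mul_le_mul_of_nonneg_left hRR (by positivity)
  have d2 : C2 * 2 ^ J * R ≤ C2 * 2 ^ J * (Real.log J * R) := mul_le_mul_of_nonneg_left hRR (by positivity)
  have d5 : C4 * 2 ^ J * R ≤ C4 * 2 ^ J * (Real.log J * R) := mul_le_mul_of_nonneg_left hRR (by positivity)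
  have e : (C1 + C2 + 2 + C3 * (3 * Real.sqrt K) + 2 * C4) * 2 ^ J * (Real.log J * R) =
      C1 * 2 ^ J * (Real.log J * R) + C2 * 2 ^ J * (Real.log J * R) + 2 * 2 ^ J * (Real.log J * R) +
        C3 * (3 * Real.sqrt K) * 2 ^ J * (Real.log J * R) + 2 * (C4 * 2 ^ J * (Real.log J * R)) := by ring
  rw [e]
  linarith

theorem badq_rate : ∃ C : ℝ, 0 < C ∧ ∀ x : ℕ, 16 ≤ x → ∀ S : Finset ℕ,
    (∀ n ∈ S, 2 ≤ n ∧ n ≤ x ∧ ∃ q, BadQ n q) →
    (S.card : ℝ) ≤ C * x * Real.log (Real.log x) ^ (3 / 2 : ℝ) / Real.log x ^ (1 / 2 : ℝ) := by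
  classical
  obtain ⟨C, hC, J0, hJ0, h⟩ := bad_J
  refine ⟨J0 + 12 * C, by positivity, ?_⟩
  intro x hx S hS
  have hxR : (16 : ℝ) ≤ x := by exact_mod_cast hx
  have hx0 : (0 : ℝ) < x := by linarith
  have hl4 : 4 ≤ Nat.log 2 x := Nat.le_log_of_pow_le one_lt_two (by norm_num; exact hx)
  have hlt : x < 2 ^ (Nat.log 2 x + 1) := Nat.lt_pow_succ_log_self one_lt_two x
  have hge : 2 ^ (Nat.log 2 x) ≤ x := Nat.pow_log_le_self 2 (by omega)
  have hle : 2 ^ (Nat.log 2 x + 1) ≤ 2 * x := by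
    rw [pow_succ]
    omega
  have hJL : ((Nat.log 2 x + 1 : ℕ) : ℝ) ≤ 3 * Real.log x := by
    have e : Real.log ((2 : ℝ) ^ Nat.log 2 x) ≤ Real.log x := by
      refine Real.log_le_log (by positivity) ?_
      exact_mod_cast hge
    rw [Real.log_pow] at e
    have e2 := Real.log_two_gt_d9
    have e4 : (4 : ℝ) ≤ (Nat.log 2 x : ℝ) := by exact_mod_cast hl4
    push_cast
    nlinarith
  have hJ5 : 5 ≤ Nat.log 2 x + 1 := by omega
  generalize Nat.log 2 x + 1 = J at hlt hle hJL hJ5 ⊢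
  have hJr : (5 : ℝ) ≤ J := by exact_mod_cast hJ5
  have hLJ : Real.log x ≤ J := by
    have e : Real.log x ≤ Real.log ((2 : ℝ) ^ J) := by
      refine Real.log_le_log hx0 ?_
      exact_mod_cast hlt.le
    rw [Real.log_pow] at e
    have e2 := Real.log_two_lt_d9
    nlinarith
  have hL : (2.7725 : ℝ) ≤ Real.log x := by
    have e : Real.log ((2 : ℝ) ^ 4) ≤ Real.log x := by
      refine Real.log_le_log (by positivity) ?_
      linarith
    rw [Real.log_pow] at e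
    have e2 := Real.log_two_gt_d9
    push_cast at e
    linarith
  have hlx0 : 0 < Real.log x := by linarith
  have hLL : 1 ≤ Real.log (Real.log x) := by
    rw [Real.le_log_iff_exp_le hlx0]
    have := Real.exp_one_lt_d9
    linarith
  have hlogJ : Real.log J ≤ 3 * Real.log (Real.log x) := by
    have e : Real.log J ≤ Real.log (Real.log x ^ 3) := by
      refine Real.log_le_log (by linarith) ?_
      have h9 : 3 ≤ Real.log x * Real.log x := by nlinarith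
      have h8 : Real.log x ^ 3 = Real.log x * (Real.log x * Real.log x) := by ring
      rw [h8]
      nlinarith
    rw [Real.log_pow] at e
    exact_mod_cast e
  have hlogJ0 : 0 ≤ Real.log J := Real.log_nonneg (by linarith)
  obtain ⟨ℓ, hℓ⟩ : ∃ ℓ, ℓ = Real.log (Real.log x) := ⟨_, rfl⟩
  rw [← hℓ] at hLL hlogJ ⊢
  have hp0 : 0 < Real.log x ^ (1 / 2 : ℝ) := Real.rpow_pos_of_pos hlx0 _
  have hℓ32 : 1 ≤ ℓ ^ (3 / 2 : ℝ) := Real.one_le_rpow hLL (by norm_num)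
  obtain ⟨T, hT⟩ : ∃ T, T = x * ℓ ^ (3 / 2 : ℝ) / Real.log x ^ (1 / 2 : ℝ) := ⟨_, rfl⟩
  have hT0 : 0 ≤ T := by rw [hT]; positivity
  have hgoal : (J0 + 12 * C) * x * ℓ ^ (3 / 2 : ℝ) / Real.log x ^ (1 / 2 : ℝ) = J0 * T + 12 * C * T := by
    rw [hT]; ring
  rw [hgoal]
  rcases Nat.lt_or_ge J J0 with hJs | hJs
  · -- small
    have h1 : S ⊆ Icc 1 x := fun n hn => mem_Icc.2 ⟨by have := (hS n hn).1; omega, (hS n hn).2.1⟩
    have h2 : (S.card : ℝ) ≤ x := by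
      have := card_le_card h1
      rw [Nat.card_Icc, Nat.add_sub_cancel] at this
      exact_mod_cast this
    have h3 : Real.log x ^ (1 / 2 : ℝ) ≤ J0 := by
      calc Real.log x ^ (1 / 2 : ℝ) ≤ Real.log x ^ (1 : ℝ) :=
            Real.rpow_le_rpow_of_exponent_le (by linarith) (by norm_num)
        _ = Real.log x := Real.rpow_one _
        _ ≤ J := hLJ
        _ ≤ J0 := by exact_mod_cast hJs.le
    have h4 : (x : ℝ) ≤ J0 * T := by
      rw [hT, mul_div_assoc', le_div_iff₀ hp0]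
      calc (x : ℝ) * Real.log x ^ (1 / 2 : ℝ) ≤ x * J0 := mul_le_mul_of_nonneg_left h3 hx0.le
        _ = J0 * (x * 1) := by ring
        _ ≤ J0 * (x * ℓ ^ (3 / 2 : ℝ)) := by gcongr
    have h5 : 0 ≤ 12 * C * T := by positivity
    linarith
  · have h1 := h J hJs S (fun n hn => ⟨(hS n hn).1, lt_of_le_of_lt (hS n hn).2.1 hlt, (hS n hn).2.2⟩)
    have hle' : (2 : ℝ) ^ J ≤ 2 * x := by exact_mod_cast hle
    have e1 : Real.log J * Real.sqrt (Real.log J / J) ≤ 6 * (ℓ ^ (3 / 2 : ℝ) / Real.log x ^ (1 / 2 : ℝ)) := by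
      have e2 : Real.sqrt (Real.log J / J) ≤ Real.sqrt (3 * ℓ / Real.log x) := by
        apply Real.sqrt_le_sqrt
        apply div_le_div₀ (by positivity) hlogJ hlx0 hLJ
      have e3 : Real.sqrt (3 * ℓ / Real.log x) ≤ 2 * (Real.sqrt ℓ / Real.sqrt (Real.log x)) := by
        have e4 : 3 * ℓ / Real.log x ≤ (2 * (Real.sqrt ℓ / Real.sqrt (Real.log x))) ^ 2 := by
          rw [mul_pow, div_pow, Real.sq_sqrt (by linarith), Real.sq_sqrt hlx0.le, ← mul_div_assoc]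
          gcongr
          norm_num
        calc Real.sqrt (3 * ℓ / Real.log x) ≤ Real.sqrt ((2 * (Real.sqrt ℓ / Real.sqrt (Real.log x))) ^ 2) :=
              Real.sqrt_le_sqrt e4
          _ = _ := Real.sqrt_sq (by positivity)
      have e5 : ℓ ^ (3 / 2 : ℝ) = ℓ * Real.sqrt ℓ := by
        rw [Real.sqrt_eq_rpow, show (3 / 2 : ℝ) = 1 + 1 / 2 by norm_num, Real.rpow_add (by linarith), Real.rpow_one]
      rw [e5, ← Real.sqrt_eq_rpow]
      calc Real.log J * Real.sqrt (Real.log J / J) ≤ (3 * ℓ) * (2 * (Real.sqrt ℓ / Real.sqrt (Real.log x))) :=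
            mul_le_mul hlogJ (e2.trans e3) (Real.sqrt_nonneg _) (by linarith)
        _ = 6 * (ℓ * Real.sqrt ℓ / Real.sqrt (Real.log x)) := by ring
    have e6 : 0 ≤ ℓ ^ (3 / 2 : ℝ) / Real.log x ^ (1 / 2 : ℝ) := by positivity
    have e7 : 0 ≤ Real.log J * Real.sqrt (Real.log J / J) := mul_nonneg hlogJ0 (Real.sqrt_nonneg _)
    calc (S.card : ℝ) ≤ C * 2 ^ J * (Real.log J * Real.sqrt (Real.log J / J)) := h1
      _ ≤ C * (2 * x) * (6 * (ℓ ^ (3 / 2 : ℝ) / Real.log x ^ (1 / 2 : ℝ))) := by gcongr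
      _ = 12 * C * T := by rw [hT]; ring
      _ ≤ J0 * T + 12 * C * T := by
        have : 0 ≤ (J0 : ℝ) * T := by positivity
        linarith

/-- the exceptional orders -/
theorem even_rate : ∃ C : ℝ, 0 < C ∧ ∀ x : ℕ, 16 ≤ x → ∀ S : Finset ℕ,
    (∀ n ∈ S, n ≤ x ∧ ∃ q : ℕ, q ≠ 2 ∧ q.Prime ∧ q ∣ n * (n + 1) * (n - 1) * (n ^ 2 + n + 1) ∧
      ∀ p : ℕ, p.Prime → p ≠ q → Odd (padicValNat p n) → Odd (orderOf (p : ZMod q))) →
    (S.card : ℝ) ≤ C * x * Real.log (Real.log x) ^ (3 / 2 : ℝ) / Real.log x ^ (1 / 2 : ℝ) := by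
  classical
  obtain ⟨C, hC, h⟩ := badq_rate
  refine ⟨C + 2, by positivity, ?_⟩
  intro x hx S hS
  have hxR : (16 : ℝ) ≤ x := by exact_mod_cast hx
  have hx0 : (0 : ℝ) < x := by linarith
  have hL : (2.7725 : ℝ) ≤ Real.log x := by
    have e : Real.log ((2 : ℝ) ^ 4) ≤ Real.log x := by
      refine Real.log_le_log (by positivity) ?_
      linarith
    rw [Real.log_pow] at e
    have e2 := Real.log_two_gt_d9
    push_cast at e
    linarith
  have hlx0 : 0 < Real.log x := by linarith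
  have hLL : 1 ≤ Real.log (Real.log x) := by
    rw [Real.le_log_iff_exp_le hlx0]
    have := Real.exp_one_lt_d9
    linarith
  have hp0 : 0 < Real.log x ^ (1 / 2 : ℝ) := Real.rpow_pos_of_pos hlx0 _
  have hℓ32 : 1 ≤ Real.log (Real.log x) ^ (3 / 2 : ℝ) := Real.one_le_rpow hLL (by norm_num)
  set S0 := S.filter (fun n => n < 2) with hS0
  set S1 := S.filter (fun n => ¬ n < 2) with hS1
  have h0 : (S0.card : ℝ) ≤ 2 := by
    have h5 : S0 ⊆ range 2 := fun n hn => mem_range.2 (mem_filter.1 hn).2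
    have h6 := card_le_card h5
    rw [card_range] at h6
    exact_mod_cast h6
  have h1 := h x hx S1 (fun n hn => by
    rw [hS1, mem_filter] at hn
    obtain ⟨hnx, q, hq2, hq, hqd, ho⟩ := hS n hn.1
    exact ⟨by omega, hnx, q, hq, hq2, hqd, tq_of_odds n q hq ho (by omega)⟩)
  have h2 : (S.card : ℝ) = S0.card + S1.card := by
    have := Finset.card_filter_add_card_filter_not (s := S) (fun n => n < 2)
    exact_mod_cast this.symm
  have h3 : 1 ≤ x * Real.log (Real.log x) ^ (3 / 2 : ℝ) / Real.log x ^ (1 / 2 : ℝ) := by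
    rw [le_div_iff₀ hp0, one_mul]
    calc Real.log x ^ (1 / 2 : ℝ) ≤ Real.log x ^ (1 : ℝ) :=
          Real.rpow_le_rpow_of_exponent_le (by linarith) (by norm_num)
      _ = Real.log x := Real.rpow_one _
      _ ≤ x := by
        have := Real.log_le_sub_one_of_pos hx0
        linarith
      _ = x * 1 := (mul_one _).symm
      _ ≤ x * Real.log (Real.log x) ^ (3 / 2 : ℝ) := mul_le_mul_of_nonneg_left hℓ32 hx0.le
  have h4 : (C + 2) * x * Real.log (Real.log x) ^ (3 / 2 : ℝ) / Real.log x ^ (1 / 2 : ℝ) =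
      C * x * Real.log (Real.log x) ^ (3 / 2 : ℝ) / Real.log x ^ (1 / 2 : ℝ) +
        2 * (x * Real.log (Real.log x) ^ (3 / 2 : ℝ) / Real.log x ^ (1 / 2 : ℝ)) := by ring
  rw [h4, h2]
  linarith

end Pool.Agent.H37.OH
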