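import Pool.Agent.H37.OH.One
import Pool.Agent.H37.OH.Mass
import Pool.Agent.H37.PPC.Mt

/-!
PROJECT OH, Sml: the small bad primes.

`L = (4 Q) ^ 8`, `z = 2 ^ (J / (2 s))`, `k = 50 s`; `one5` with `X = 2 ^ J / q + 1` and `one_mass` with `M = L`; the sum over the
primes `q < Q` by `mertens_two`.
-/

set_option autoImplicit false

namespace Pool.Agent.H37.OH.SmlP

open Finset
open Pool.Agent.H37.PPC (pr mem_pr mertens_two)
open Pool.Agent.H12.FO
open Pool.Agent.H37.OH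

private theorem sm_Cnt_le {N N' : ℕ} (h : N ≤ N') (Q : ℕ → ℕ → Prop) : Cnt N Q ≤ Cnt N' Q := by
  classical
  unfold Cnt
  rw [Nat.cast_le]
  apply card_le_card
  intro n hn
  rw [mem_filter, mem_Ico] at hn ⊢
  exact ⟨⟨hn.1.1, hn.1.2.trans_le h⟩, hn.2⟩

private theorem sm_sq (q : ℕ) (hq : q.Prime) : ¬ IsSquare (sg q * (q : ℤ)) := by
  rintro ⟨r, hr⟩
  have h1 : (sg q * (q : ℤ)).natAbs = q := by
    unfold sg
    split_ifs <;> simp
  rw [hr, Int.natAbs_mul] at h1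
  exact hq.not_isSquare ⟨r.natAbs, h1.symm⟩

/-- `Q ^ 24 ≤ z` -/
private theorem sm_z (s J Q : ℕ) (hs : 1 ≤ s) (hQ : 2 ≤ Q) (h : Q ^ (50 * s) ≤ 2 ^ J) : Q ^ 24 ≤ 2 ^ (J / (2 * s)) := by
  set t := J / (2 * s) with ht
  have h1 : J ≤ 2 * s * (t + 1) := by
    rw [ht]
    exact (Nat.lt_mul_div_succ _ (by omega)).le
  have h2 : (Q ^ 25) ^ (2 * s) ≤ (2 ^ (t + 1)) ^ (2 * s) := by
    calc (Q ^ 25) ^ (2 * s) = Q ^ (50 * s) := by rw [← pow_mul]; congr 1; ring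
      _ ≤ 2 ^ J := h
      _ ≤ 2 ^ (2 * s * (t + 1)) := Nat.pow_le_pow_right (by norm_num) h1
      _ = (2 ^ (t + 1)) ^ (2 * s) := by rw [← pow_mul]; congr 1; ring
  have h3 : Q ^ 25 ≤ 2 ^ (t + 1) := (Nat.pow_le_pow_iff_left (by omega)).1 h2
  have h4 : Q ^ 24 * 2 ≤ 2 ^ t * 2 := by
    calc Q ^ 24 * 2 ≤ Q ^ 24 * Q := Nat.mul_le_mul_left _ hQ
      _ = Q ^ 25 := by ring
      _ ≤ 2 ^ (t + 1) := h3
      _ = 2 ^ t * 2 := pow_succ _ _
  omega

private theorem sm_sqrt (s J Q : ℕ) (hs : 1 ≤ s) (hJ : 3 ≤ J) (hQ : 3 ≤ Q) (hz : Q ^ 24 ≤ 2 ^ (J / (2 * s))) :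
    Real.sqrt (Real.log (((4 * Q) ^ 8 : ℕ) : ℝ) / Real.log ((2 ^ (J / (2 * s)) : ℕ) : ℝ)) ≤
      Real.sqrt (192 * s) * Real.sqrt (Real.log Q / J) := by
  have hQR : (3 : ℝ) ≤ Q := by exact_mod_cast hQ
  have hJR : (3 : ℝ) ≤ J := by exact_mod_cast hJ
  have hsR : (1 : ℝ) ≤ s := by exact_mod_cast hs
  have hlQ : 0 < Real.log Q := Real.log_pos (by linarith)
  have h4 : Real.log 4 ≤ 2 * Real.log Q := by
    have h5 : Real.log 4 ≤ Real.log ((Q : ℝ) ^ 2) := Real.log_le_log (by norm_num) (by nlinarith)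
    rw [Real.log_pow] at h5
    exact_mod_cast h5
  have h1 : Real.log (((4 * Q) ^ 8 : ℕ) : ℝ) ≤ 24 * Real.log Q := by
    push_cast
    rw [Real.log_pow, Real.log_mul (by norm_num) (by positivity)]
    push_cast
    linarith
  have hdiv : 1 ≤ J / (2 * s) := by
    by_contra h
    have h0 : J / (2 * s) = 0 := Nat.lt_one_iff.1 (not_le.1 h)
    rw [h0, pow_zero] at hz
    have : 2 ^ 24 ≤ Q ^ 24 := Nat.pow_le_pow_left (by omega) 24
    norm_num at this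
    omega
  have h2 : (J : ℝ) / (8 * s) ≤ Real.log ((2 ^ (J / (2 * s)) : ℕ) : ℝ) := by
    rw [Nat.cast_pow, Real.log_pow]
    have h5 : (J : ℝ) / (4 * s) ≤ ((J / (2 * s) : ℕ) : ℝ) := by
      rw [div_le_iff₀ (by positivity)]
      have h6 : J ≤ (J / (2 * s)) * (4 * s) := by
        have h7 : J < (J / (2 * s) + 1) * (2 * s) := by
          rw [mul_comm]
          exact Nat.lt_mul_div_succ _ (by omega)
        nlinarith
      exact_mod_cast h6
    have h6 : (1 / 2 : ℝ) ≤ Real.log ((2 : ℕ) : ℝ) := by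
      have := Real.log_two_gt_d9
      push_cast
      linarith
    calc (J : ℝ) / (8 * s) = (J : ℝ) / (4 * s) * (1 / 2) := by
          field_simp
          norm_num
      _ ≤ ((J / (2 * s) : ℕ) : ℝ) * Real.log ((2 : ℕ) : ℝ) :=
          mul_le_mul h5 h6 (by norm_num) (by positivity)
  rw [← Real.sqrt_mul (by positivity)]
  apply Real.sqrt_le_sqrt
  calc Real.log (((4 * Q) ^ 8 : ℕ) : ℝ) / Real.log ((2 ^ (J / (2 * s)) : ℕ) : ℝ)
      ≤ (24 * Real.log Q) / ((J : ℝ) / (8 * s)) := div_le_div₀ (by positivity) h1 (by positivity) h2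
    _ = 192 * s * (Real.log Q / J) := by
        field_simp
        norm_num

private theorem sm_one : ∃ C : ℝ, 0 < C ∧ ∃ s : ℕ, 2 ≤ s ∧ ∀ J Q q : ℕ, 3 ≤ J → J ≤ Q → Q ^ (50 * s) ≤ 2 ^ J →
    q.Prime → q ≠ 2 → q < Q → Cnt (2 ^ J) (fun n q' => q' = q ∧ BadQ n q') ≤
      C * 2 ^ J * ((1 / q) * Real.sqrt (Real.log Q / J)) := by
  obtain ⟨C0, hC0, s, hs, h0⟩ := one5
  obtain ⟨C1, hC1, h1⟩ := one_mass
  refine ⟨2 * C0 * (C1 * Real.sqrt (192 * s) + 1), by positivity, s, hs, ?_⟩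
  intro J Q q hJ hJQ hQ hq hq2 hqQ
  have hq3 : 3 ≤ q := by
    have := hq.two_le
    omega
  have hzQ := sm_z s J Q (by omega) (by omega) hQ
  set L := (4 * Q) ^ 8 with hL
  set z := 2 ^ (J / (2 * s)) with hzd
  have hLz : L ≤ z := by
    refine le_trans ?_ hzQ
    calc L = (4 * Q) ^ 8 := hL
      _ ≤ (Q ^ 3) ^ 8 := by
          apply Nat.pow_le_pow_left
          calc 4 * Q ≤ Q ^ 2 * Q := Nat.mul_le_mul_right _ (by nlinarith)
            _ = Q ^ 3 := by ring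
      _ = Q ^ 24 := by rw [← pow_mul]
  have hQL : Q ≤ L := le_trans (by omega) (Nat.le_self_pow (by norm_num) _)
  have hqz : q ≤ z := by omega
  have hzs : z ^ s * q ≤ 2 ^ J := by
    calc z ^ s * q ≤ z ^ s * z := Nat.mul_le_mul_left _ hqz
      _ = 2 ^ (J / (2 * s) * (s + 1)) := by rw [← pow_succ, hzd, ← pow_mul]
      _ ≤ 2 ^ J := by
        apply Nat.pow_le_pow_right (by norm_num)
        calc J / (2 * s) * (s + 1) ≤ J / (2 * s) * (2 * s) := Nat.mul_le_mul_left _ (by omega)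
          _ ≤ J := Nat.div_mul_le_self _ _
  have hX : z ^ s ≤ 2 ^ J / q + 1 :=
    ((Nat.le_div_iff_mul_le (by omega)).2 hzs).trans (Nat.le_succ _)
  have h2 := h0 (2 ^ J / q + 1) z L q (by omega) hLz hX hq hq2 (NR (sg q) L z q) subset_rfl
  have h3 : 2 ^ J ≤ q * (2 ^ J / q + 1) := (Nat.lt_mul_div_succ _ (by omega)).le
  have h4 := (sm_Cnt_le h3 (fun n q' => q' = q ∧ BadQ n q')).trans h2
  have hsg : sg q = 1 ∨ sg q = -1 := by
    unfold sg
    split_ifs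
    · exact Or.inl rfl
    · exact Or.inr rfl
  have h5 := h1 (sg q) q L z hsg (by omega) (Nat.pow_le_pow_left (by omega) 8) hLz (sm_sq q hq)
  have h6 := sm_sqrt s J Q (by omega) hJ (by omega) hzQ
  refine h4.trans ?_
  have hqR : (3 : ℝ) ≤ q := by exact_mod_cast hq3
  have hJR : (3 : ℝ) ≤ J := by exact_mod_cast hJ
  have hq2J : (q : ℝ) ≤ 2 ^ J := by
    have h6 : q ≤ 2 ^ J := by
      calc q ≤ z ^ s * q := Nat.le_mul_of_pos_left _ (by positivity)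
        _ ≤ 2 ^ J := hzs
    exact_mod_cast h6
  have hXR : ((2 ^ J / q + 1 : ℕ) : ℝ) ≤ 2 * (2 ^ J * (1 / q)) := by
    have h6 : (((2 ^ J / q : ℕ)) : ℝ) ≤ 2 ^ J / q := by
      have := Nat.cast_div_le (α := ℝ) (m := 2 ^ J) (n := q)
      push_cast at this
      exact this
    have h7 : (1 : ℝ) ≤ 2 ^ J / q := by
      rw [le_div_iff₀ (by linarith)]
      linarith
    push_cast
    have h8 : (2 : ℝ) ^ J * (1 / q) = 2 ^ J / q := by ring
    rw [h8]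
    have h9 : (((2 ^ J / q : ℕ)) : ℝ) = (2 ^ J / q : ℕ) := rfl
    linarith
  set R := Real.sqrt (Real.log Q / J) with hR
  have hR0 : 0 ≤ R := Real.sqrt_nonneg _
  have hQR : (J : ℝ) ≤ Q := by exact_mod_cast hJQ
  have hLR : (J : ℝ) ≤ L := by
    have : (Q : ℝ) ≤ L := by exact_mod_cast hQL
    linarith
  have h7 : (1 : ℝ) / L ≤ R := by
    have h8 : (1 : ℝ) / L ≤ 1 / J := one_div_le_one_div_of_le (by linarith) hLR
    refine h8.trans (Real.le_sqrt_of_sq_le ?_)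
    have hlQ : 1 ≤ Real.log Q := by
      rw [Real.le_log_iff_exp_le (by linarith)]
      have := Real.exp_one_lt_d9
      linarith
    rw [div_pow, one_pow, div_le_div_iff₀ (by positivity) (by linarith)]
    nlinarith
  have h8 : Real.exp (-(∑ p ∈ NR (sg q) L z q, (1 : ℝ) / p)) + 1 / L ≤
      (C1 * Real.sqrt (192 * s) + 1) * R := by
    have h9 := mul_le_mul_of_nonneg_left h6 hC1.le
    calc Real.exp (-(∑ p ∈ NR (sg q) L z q, (1 : ℝ) / p)) + 1 / L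
        ≤ C1 * (Real.sqrt (192 * s) * R) + R := add_le_add (h5.trans h9) h7
      _ = (C1 * Real.sqrt (192 * s) + 1) * R := by ring
  calc C0 * ((2 ^ J / q + 1 : ℕ) : ℝ) *
        (Real.exp (-(∑ p ∈ NR (sg q) L z q, (1 : ℝ) / p)) + 1 / L)
      ≤ C0 * (2 * (2 ^ J * (1 / q))) * ((C1 * Real.sqrt (192 * s) + 1) * R) := by
        apply mul_le_mul _ h8 _ (by positivity)
        · exact mul_le_mul_of_nonneg_left hXR hC0.le
        · positivity
    _ = 2 * C0 * (C1 * Real.sqrt (192 * s) + 1) * 2 ^ J * ((1 / q) * R) := by ring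

private theorem sm_loglog : -1 ≤ Real.log (Real.log 2) := by
  have h1 := Real.log_two_gt_d9
  rw [Real.le_log_iff_exp_le (by linarith)]
  have h2 : Real.exp (-1) ≤ 1 / 2 := by
    rw [Real.exp_neg, ← one_div]
    apply one_div_le_one_div_of_le (by norm_num)
    have := Real.add_one_le_exp (1 : ℝ)
    linarith
  linarith

theorem sml5 : ∃ C : ℝ, 0 < C ∧ ∃ k : ℕ, 8 ≤ k ∧ ∀ J Q : ℕ, 3 ≤ J → J ≤ Q → Q ^ k ≤ 2 ^ J →
    Cnt (2 ^ J) (fun n q => q < Q ∧ BadQ n q) ≤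
      C * 2 ^ J * ((Real.log (Real.log Q) + 1) * Real.sqrt (Real.log Q / J)) := by
  obtain ⟨C0, hC0, s, hs, h0⟩ := sm_one
  obtain ⟨C2, hC2, hM⟩ := mertens_two
  refine ⟨C0 * (C2 + 1), by positivity, 50 * s, by omega, ?_⟩
  intro J Q hJ hJQ hQ
  have hQR : (3 : ℝ) ≤ Q := by exact_mod_cast (by omega : 3 ≤ Q)
  have hlQ : 1 ≤ Real.log Q := by
    rw [Real.le_log_iff_exp_le (by linarith)]
    have := Real.exp_one_lt_d9
    linarith
  have hllQ : 0 ≤ Real.log (Real.log Q) := Real.log_nonneg hlQ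
  have h1 : Cnt (2 ^ J) (fun n q => q < Q ∧ BadQ n q) ≤
      ∑ q ∈ pr 3 Q, Cnt (2 ^ J) (fun n q' => q' = q ∧ BadQ n q') := by
    apply Cnt_sum (2 ^ J) _ _ (fun q n q' => q' = q ∧ BadQ n q')
    intro n q _ _ hq
    refine ⟨q, mem_pr.2 ⟨⟨?_, hq.1⟩, hq.2.1⟩, rfl, hq.2⟩
    have h2 := hq.2.1.two_le
    have h3 := hq.2.2.1
    omega
  have h2 : ∀ q ∈ pr 3 Q, Cnt (2 ^ J) (fun n q' => q' = q ∧ BadQ n q') ≤
      C0 * 2 ^ J * ((1 / q) * Real.sqrt (Real.log Q / J)) := by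
    intro q hq
    rw [mem_pr] at hq
    exact h0 J Q q hJ hJQ hQ hq.2 (by omega) hq.1.2
  have h3 : ∑ q ∈ pr 3 Q, (1 : ℝ) / q ≤ ∑ q ∈ pr 2 Q, (1 : ℝ) / q := by
    apply sum_le_sum_of_subset_of_nonneg
    · intro q hq
      rw [mem_pr] at hq ⊢
      exact ⟨⟨by omega, by omega⟩, hq.2⟩
    · intro q _ _
      positivity
  have h4 := (abs_le.1 (hM 2 Q le_rfl (by omega))).2
  have h6 := sm_loglog
  have h7 : Real.log (Real.log ((2 : ℕ) : ℝ)) = Real.log (Real.log 2) := by norm_num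
  rw [h7] at h4
  have h8 : ∑ q ∈ pr 3 Q, (1 : ℝ) / q ≤ (C2 + 1) * (Real.log (Real.log Q) + 1) := by
    nlinarith
  have h5 : ∑ q ∈ pr 3 Q, C0 * 2 ^ J * ((1 / q) * Real.sqrt (Real.log Q / J)) =
      C0 * 2 ^ J * ((∑ q ∈ pr 3 Q, (1 : ℝ) / q) * Real.sqrt (Real.log Q / J)) := by
    rw [sum_mul, mul_sum]
  refine h1.trans ((sum_le_sum h2).trans ?_)
  rw [h5]
  calc C0 * 2 ^ J * ((∑ q ∈ pr 3 Q, (1 : ℝ) / q) * Real.sqrt (Real.log Q / J))
      ≤ C0 * 2 ^ J * (((C2 + 1) * (Real.log (Real.log Q) + 1)) * Real.sqrt (Real.log Q / J)) := by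
        apply mul_le_mul_of_nonneg_left _ (by positivity)
        exact mul_le_mul_of_nonneg_right h8 (Real.sqrt_nonneg _)
    _ = C0 * (C2 + 1) * 2 ^ J * ((Real.log (Real.log Q) + 1) * Real.sqrt (Real.log Q / J)) := by ring

end Pool.Agent.H37.OH.SmlP
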