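import Pool.Agent.H37.OH.Blk
import Pool.Agent.H37.OH.Sml

/-!
PROJECT OH, Low: the primes `q < 2 ^ (J / K)` (from `blk` and `sml5`).
-/

set_option autoImplicit false

namespace Pool.Agent.H37.OH.LowP

open Finset
open Pool.Agent.H37.PPC (pr mem_pr)
open Pool.Agent.H12.FO
open Pool.Agent.H37.OH.BlkP (blk)
open Pool.Agent.H37.OH.SmlP (sml5)

private theorem low_sq (m : ℕ) (h : 4 ≤ m) : m ^ 2 ≤ 2 ^ m := by
  induction m, h using Nat.le_induction with
  | base => norm_num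
  | succ m hm ih =>
    rw [pow_succ 2 m]
    nlinarith

private theorem low_e (c J : ℕ) (h : 2 ^ (3 * c + 4) ≤ J) :
    Nat.log 2 (J ^ 2 + 3) + 1 ≤ 3 * Nat.log 2 J ∧ c * (Nat.log 2 (J ^ 2 + 3) + 1) ≤ J := by
  have hJ0 : 0 < J := lt_of_lt_of_le (by positivity) h
  obtain ⟨m, hm⟩ : ∃ m, m = Nat.log 2 J := ⟨_, rfl⟩
  have hm1 : 3 * c + 4 ≤ m := by
    rw [hm]
    exact Nat.le_log_of_pow_le (by norm_num) h
  have hm2 : 2 ^ m ≤ J := by
    rw [hm]
    exact Nat.pow_log_le_self 2 (by omega)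
  have hm3 : J < 2 ^ (m + 1) := by
    rw [hm]
    exact Nat.lt_pow_succ_log_self (by norm_num) J
  have h1 : J ^ 2 + 3 < 2 ^ (2 * m + 4) := by
    have h2 : J ^ 2 < (2 ^ (m + 1)) ^ 2 := Nat.pow_lt_pow_left hm3 (by norm_num)
    have h3 : (2 : ℕ) ^ (2 * m + 4) = 4 * (2 ^ (m + 1)) ^ 2 := by
      rw [← pow_mul, show 2 * m + 4 = (m + 1) * 2 + 2 by ring, pow_add]
      ring
    have h4 : 1 ≤ J ^ 2 := Nat.one_le_pow _ _ hJ0
    omega
  have h2 : Nat.log 2 (J ^ 2 + 3) < 2 * m + 4 := Nat.log_lt_of_lt_pow (by omega) h1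
  rw [← hm]
  refine ⟨by omega, ?_⟩
  calc c * (Nat.log 2 (J ^ 2 + 3) + 1) ≤ c * (3 * m) := Nat.mul_le_mul_left _ (by omega)
    _ = (3 * c) * m := by ring
    _ ≤ m * m := Nat.mul_le_mul_right _ (by omega)
    _ = m ^ 2 := by ring
    _ ≤ 2 ^ m := low_sq m (by omega)
    _ ≤ J := hm2

private theorem low_triv (N : ℕ) (Q : ℕ → ℕ → Prop) : Cnt N Q ≤ N := by
  classical
  unfold Cnt
  rw [Nat.cast_le]
  refine (card_filter_le _ _).trans ?_
  rw [Nat.card_Ico]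
  omega

private theorem low_harm (J : ℕ) (s : Finset ℕ) (hs : ∀ a ∈ s, 1 ≤ a ∧ a ≤ J) :
    ∑ a ∈ s, (1 : ℝ) / a ≤ 1 + Real.log J := by
  have h1 : ∑ a ∈ s, (1 : ℝ) / a ≤ ∑ a ∈ Icc 1 J, (1 : ℝ) / a := by
    refine sum_le_sum_of_subset_of_nonneg ?_ fun a _ _ => by positivity
    intro a ha
    exact mem_Icc.2 (hs a ha)
  have h2 : ∑ a ∈ Icc 1 J, (1 : ℝ) / a = ((harmonic J : ℚ) : ℝ) := by
    rw [harmonic_eq_sum_Icc]
    push_cast
    exact sum_congr rfl fun a _ => one_div _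
  rw [h2] at h1
  exact h1.trans (harmonic_le_one_add_log J)

private theorem low_main (J : ℕ) (hJ : 3 ≤ J) : 1 ≤ Real.log J ∧
    1 / (J : ℝ) ≤ Real.sqrt (Real.log J / J) := by
  have hJR : (3 : ℝ) ≤ J := by exact_mod_cast hJ
  have h1 : 1 ≤ Real.log J := by
    rw [Real.le_log_iff_exp_le (by linarith)]
    have := Real.exp_one_lt_d9
    linarith
  refine ⟨h1, ?_⟩
  apply Real.le_sqrt_of_sq_le
  rw [div_pow, one_pow, div_le_div_iff₀ (by positivity) (by positivity)]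
  nlinarith

theorem low : ∃ C : ℝ, 0 < C ∧ ∃ K : ℕ, 2 ≤ K ∧ ∀ J : ℕ, 3 ≤ J →
    Cnt (2 ^ J) (fun n q => q < 2 ^ (J / K) ∧ BadQ n q) ≤
      C * 2 ^ J * (Real.log J * Real.sqrt (Real.log J / J)) := by
  obtain ⟨C1, hC1, k1, hk1, h1⟩ := blk
  obtain ⟨C2, hC2, k2, hk2, h2⟩ := sml5
  obtain ⟨k, hk⟩ : ∃ k, k = k1 + k2 := ⟨_, rfl⟩
  obtain ⟨J0, hJ0⟩ : ∃ J0, J0 = 2 ^ (3 * (k * k) + 4) := ⟨_, rfl⟩
  have hkR : (1 : ℝ) ≤ k := by exact_mod_cast (by omega : 1 ≤ k)
  have hJ0p : 0 < J0 := by rw [hJ0]; positivity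
  refine ⟨C2 * (6 * k) ^ 2 + 7 * C1 + J0, by positivity, 2 * k + 2, by omega, fun J hJ => ?_⟩
  obtain ⟨hlog, hJs⟩ := low_main J hJ
  have hJR : (3 : ℝ) ≤ J := by exact_mod_cast hJ
  obtain ⟨M, hM⟩ : ∃ M, M = Real.sqrt (Real.log J / J) := ⟨_, rfl⟩
  rw [← hM] at hJs ⊢
  have hM0 : 0 ≤ M := by rw [hM]; exact Real.sqrt_nonneg _
  have hMM : M ≤ Real.log J * M := le_mul_of_one_le_left hM0 hlog
  have h2J : (0 : ℝ) < 2 ^ J := by positivity
  rcases lt_or_ge J J0 with hlt | hge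
  · -- small `J`
    have h3 := low_triv (2 ^ J) (fun n q => q < 2 ^ (J / (2 * k + 2)) ∧ BadQ n q)
    push_cast at h3
    refine h3.trans ?_
    have h4 : (1 : ℝ) ≤ J0 * (Real.log J * M) := by
      have h5 : (J : ℝ) ≤ J0 := by exact_mod_cast hlt.le
      calc (1 : ℝ) = J * (1 / J) := by
            field_simp
        _ ≤ J0 * (Real.log J * M) :=
            mul_le_mul h5 (hJs.trans hMM) (by positivity) (by positivity)
    calc (2 : ℝ) ^ J = 2 ^ J * 1 := (mul_one _).symm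
      _ ≤ 2 ^ J * (J0 * (Real.log J * M)) := mul_le_mul_of_nonneg_left h4 h2J.le
      _ = J0 * 2 ^ J * (Real.log J * M) := by ring
      _ ≤ (C2 * (6 * k) ^ 2 + 7 * C1 + J0) * 2 ^ J * (Real.log J * M) := by
          apply mul_le_mul_of_nonneg_right _ (by positivity)
          apply mul_le_mul_of_nonneg_right _ h2J.le
          have : 0 ≤ C2 * (6 * k) ^ 2 + 7 * C1 := by positivity
          linarith
  -- large `J`
  obtain ⟨he1, he2⟩ := low_e (k * k) J (by rw [← hJ0]; exact hge)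
  obtain ⟨L, hL⟩ : ∃ L, L = J ^ 2 + 3 := ⟨_, rfl⟩
  rw [← hL] at he1 he2
  obtain ⟨e, he⟩ : ∃ e, e = Nat.log 2 L + 1 := ⟨_, rfl⟩
  rw [← he] at he1 he2
  have hJL : J + 1 ≤ L := by rw [hL]; nlinarith
  have hLe : L ≤ 2 ^ e := by
    rw [he]
    exact (Nat.lt_pow_succ_log_self (by norm_num) L).le
  have hkk : k ≤ k * k := Nat.le_mul_of_pos_left _ (by omega)
  -- the number `e` is at most `6 log J`
  have heR : (e : ℝ) ≤ 6 * Real.log J := by
    have h3 : ((Nat.log 2 J : ℕ) : ℝ) * Real.log 2 ≤ Real.log J := by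
      rw [← Real.log_pow]
      apply Real.log_le_log (by positivity)
      exact_mod_cast Nat.pow_log_le_self 2 (by omega : J ≠ 0)
    have h4 : (1 / 2 : ℝ) ≤ Real.log 2 := by
      have := Real.log_two_gt_d9
      linarith
    have h5 : ((Nat.log 2 J : ℕ) : ℝ) * (1 / 2) ≤ Real.log J :=
      (mul_le_mul_of_nonneg_left h4 (Nat.cast_nonneg _)).trans h3
    have h6 : (e : ℝ) ≤ 3 * ((Nat.log 2 J : ℕ) : ℝ) := by exact_mod_cast he1
    linarith
  obtain ⟨a0, ha0⟩ : ∃ a0, a0 = k * e := ⟨_, rfl⟩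
  have ha01 : 1 ≤ a0 := by
    rw [ha0]
    exact Nat.mul_pos (by omega) (by omega)
  have hLa0 : L ^ k1 ≤ 2 ^ a0 := by
    calc L ^ k1 ≤ (2 ^ e) ^ k1 := Nat.pow_le_pow_left hLe _
      _ = 2 ^ (e * k1) := (pow_mul _ _ _).symm
      _ ≤ 2 ^ a0 := by
          apply Nat.pow_le_pow_right (by norm_num)
          rw [ha0, mul_comm]
          exact Nat.mul_le_mul_right _ (by omega)
  have hJQ : J ≤ 2 ^ a0 := by
    calc J ≤ L := by omega
      _ = L ^ 1 := (pow_one L).symm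
      _ ≤ L ^ k1 := Nat.pow_le_pow_right (by omega) (by omega)
      _ ≤ 2 ^ a0 := hLa0
  have hQk : (2 ^ a0) ^ k2 ≤ 2 ^ J := by
    rw [← pow_mul]
    apply Nat.pow_le_pow_right (by norm_num)
    calc a0 * k2 = (k * k2) * e := by rw [ha0]; ring
      _ ≤ (k * k) * e := Nat.mul_le_mul_right _ (Nat.mul_le_mul_left _ (by omega))
      _ ≤ J := he2
  -- the first range
  have hfirst : Cnt (2 ^ J) (fun n q => q < 2 ^ a0 ∧ BadQ n q) ≤
      C2 * (6 * k) ^ 2 * 2 ^ J * (Real.log J * M) := by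
    have h3 := h2 J (2 ^ a0) hJ hJQ hQk
    have hlQ : Real.log ((2 ^ a0 : ℕ) : ℝ) = a0 * Real.log 2 := by
      push_cast
      rw [Real.log_pow]
    have hl2 : Real.log 2 ≤ 1 := by
      have := Real.log_two_lt_d9
      linarith
    have hl2' : 0 < Real.log 2 := Real.log_pos (by norm_num)
    have ha0R : (1 : ℝ) ≤ a0 := by exact_mod_cast ha01
    have hlQ0 : 0 < Real.log ((2 ^ a0 : ℕ) : ℝ) := by
      rw [hlQ]
      positivity
    have hlQ1 : Real.log ((2 ^ a0 : ℕ) : ℝ) ≤ 6 * k * Real.log J := by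
      rw [hlQ]
      calc (a0 : ℝ) * Real.log 2 ≤ a0 * 1 := mul_le_mul_of_nonneg_left hl2 (by positivity)
        _ = k * e := by rw [ha0]; push_cast; ring
        _ ≤ k * (6 * Real.log J) := mul_le_mul_of_nonneg_left heR (by positivity)
        _ = 6 * k * Real.log J := by ring
    have h4 : Real.log (Real.log ((2 ^ a0 : ℕ) : ℝ)) + 1 ≤ 6 * k * Real.log J := by
      have := Real.log_le_sub_one_of_pos hlQ0
      linarith
    have h5 : Real.sqrt (Real.log ((2 ^ a0 : ℕ) : ℝ) / J) ≤ 6 * k * M := by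
      rw [hM, ← Real.sqrt_sq (show (0 : ℝ) ≤ 6 * k by positivity),
        ← Real.sqrt_mul (by positivity)]
      apply Real.sqrt_le_sqrt
      rw [← mul_div_assoc]
      apply div_le_div_of_nonneg_right _ (by positivity)
      refine hlQ1.trans (mul_le_mul_of_nonneg_right ?_ (by linarith))
      have : (1 : ℝ) ≤ 6 * k := by linarith
      nlinarith
    refine h3.trans ?_
    calc C2 * 2 ^ J * ((Real.log (Real.log ((2 ^ a0 : ℕ) : ℝ)) + 1) *
          Real.sqrt (Real.log ((2 ^ a0 : ℕ) : ℝ) / J))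
        ≤ C2 * 2 ^ J * ((6 * k * Real.log J) * (6 * k * M)) := by
          apply mul_le_mul_of_nonneg_left _ (by positivity)
          exact mul_le_mul h4 h5 (Real.sqrt_nonneg _) (by positivity)
      _ = C2 * (6 * k) ^ 2 * 2 ^ J * (Real.log J * M) := by ring
  -- the blocks
  have hblock : ∀ a ∈ Ico a0 (J / (2 * k + 2)),
      Cnt (2 ^ J) (fun n q => 2 ^ a ≤ q ∧ q < 2 ^ (a + 1) ∧ BadQ n q) ≤
        C1 * 2 ^ J * (1 / (J : ℝ) * (1 / J) + 1 / a * (3 * M)) := by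
    intro a ha
    rw [mem_Ico] at ha
    have ha1 : 1 ≤ a := by omega
    have haK : a * (2 * k + 2) ≤ J := by
      calc a * (2 * k + 2) ≤ J / (2 * k + 2) * (2 * k + 2) := Nat.mul_le_mul_right _ ha.2.le
        _ ≤ J := Nat.div_mul_le_self _ _
    have haJ : 2 * a + 2 * (k1 * a) ≤ J := by
      have h3 : k1 * a ≤ k * a := Nat.mul_le_mul_right _ (by omega)
      nlinarith
    have h3 := h1 L a (J - a) (by omega) (hLa0.trans (Nat.pow_le_pow_right (by norm_num) ha.1))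
      (by omega) (by omega)
    rw [show a + (J - a) = J by omega] at h3
    refine h3.trans ?_
    apply mul_le_mul_of_nonneg_left _ (by positivity)
    have hLR : ((L : ℕ) : ℝ) = (J : ℝ) ^ 2 + 3 := by rw [hL]; push_cast; ring
    have h4 : (1 : ℝ) / L ≤ 1 / (J : ℝ) * (1 / J) := by
      rw [hLR, one_div_mul_one_div]
      apply one_div_le_one_div_of_le (by positivity)
      nlinarith
    have h5 : Real.sqrt (Real.log L / ((J - a : ℕ) : ℝ)) ≤ 3 * M := by
      have h6 : Real.log L ≤ 4 * Real.log J := by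
        have h7 : Real.log ((J : ℝ) ^ 4) = 4 * Real.log J := by
          rw [Real.log_pow]
          norm_num
        rw [← h7, hLR]
        apply Real.log_le_log (by positivity)
        have h8 : (9 : ℝ) ≤ (J : ℝ) ^ 2 := by nlinarith
        calc (J : ℝ) ^ 2 + 3 ≤ (J : ℝ) ^ 2 * (J : ℝ) ^ 2 := by nlinarith
          _ = (J : ℝ) ^ 4 := by ring
      have h7 : (J : ℝ) / 2 ≤ ((J - a : ℕ) : ℝ) := by
        rw [Nat.cast_sub (by omega)]
        have : (2 : ℝ) * a ≤ J := by exact_mod_cast (by omega : 2 * a ≤ J)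
        linarith
      rw [hM, ← Real.sqrt_sq (show (0 : ℝ) ≤ 3 by norm_num), ← Real.sqrt_mul (by positivity)]
      apply Real.sqrt_le_sqrt
      rw [← mul_div_assoc]
      have hJ2 : (0 : ℝ) < J / 2 := by linarith
      calc Real.log L / ((J - a : ℕ) : ℝ) ≤ 4 * Real.log J / (J / 2) :=
            div_le_div₀ (by linarith) h6 hJ2 h7
        _ = 8 * Real.log J / J := by
            field_simp
            ring
        _ ≤ 3 ^ 2 * Real.log J / J := by
            apply div_le_div_of_nonneg_right _ (by positivity)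
            linarith
    exact add_le_add h4 (mul_le_mul_of_nonneg_left h5 (by positivity))
  have hsecond : Cnt (2 ^ J) (fun n q => 2 ^ a0 ≤ q ∧ q < 2 ^ (J / (2 * k + 2)) ∧ BadQ n q) ≤
      7 * C1 * 2 ^ J * (Real.log J * M) := by
    have h3 := Cnt_sum (2 ^ J) (fun n q => 2 ^ a0 ≤ q ∧ q < 2 ^ (J / (2 * k + 2)) ∧ BadQ n q)
      (Ico a0 (J / (2 * k + 2))) (fun a n q => 2 ^ a ≤ q ∧ q < 2 ^ (a + 1) ∧ BadQ n q) (by
        intro n q _ _ hq
        have hq0 : q ≠ 0 := by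
          have := Nat.one_le_two_pow (n := a0)
          omega
        refine ⟨Nat.log 2 q, mem_Ico.2 ⟨?_, ?_⟩, Nat.pow_log_le_self 2 hq0,
          Nat.lt_pow_succ_log_self (by norm_num) q, hq.2.2⟩
        · exact Nat.le_log_of_pow_le (by norm_num) hq.1
        · exact Nat.log_lt_of_lt_pow hq0 hq.2.1)
    refine h3.trans ((sum_le_sum hblock).trans ?_)
    rw [← mul_sum, sum_add_distrib, sum_const, Nat.card_Ico, nsmul_eq_mul, ← sum_mul]
    have h4 := low_harm J (Ico a0 (J / (2 * k + 2))) (by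
      intro a ha
      rw [mem_Ico] at ha
      have := Nat.div_le_self J (2 * k + 2)
      omega)
    have h5 : ((J / (2 * k + 2) - a0 : ℕ) : ℝ) * (1 / (J : ℝ) * (1 / J)) ≤ Real.log J * M := by
      have h6 : ((J / (2 * k + 2) - a0 : ℕ) : ℝ) ≤ J := by
        have := Nat.div_le_self J (2 * k + 2)
        exact_mod_cast (by omega : J / (2 * k + 2) - a0 ≤ J)
      calc ((J / (2 * k + 2) - a0 : ℕ) : ℝ) * (1 / (J : ℝ) * (1 / J))
          ≤ J * (1 / (J : ℝ) * (1 / J)) := mul_le_mul_of_nonneg_right h6 (by positivity)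
        _ = 1 / J := by field_simp
        _ ≤ Real.log J * M := hJs.trans hMM
    have h6 : (∑ a ∈ Ico a0 (J / (2 * k + 2)), (1 : ℝ) / a) * (3 * M) ≤
        6 * (Real.log J * M) := by
      calc (∑ a ∈ Ico a0 (J / (2 * k + 2)), (1 : ℝ) / a) * (3 * M)
          ≤ (1 + Real.log J) * (3 * M) := mul_le_mul_of_nonneg_right h4 (by positivity)
        _ ≤ (2 * Real.log J) * (3 * M) :=
            mul_le_mul_of_nonneg_right (by linarith) (by positivity)
        _ = 6 * (Real.log J * M) := by ring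
    calc C1 * 2 ^ J * (((J / (2 * k + 2) - a0 : ℕ) : ℝ) * (1 / (J : ℝ) * (1 / J)) +
          (∑ a ∈ Ico a0 (J / (2 * k + 2)), (1 : ℝ) / a) * (3 * M))
        ≤ C1 * 2 ^ J * (Real.log J * M + 6 * (Real.log J * M)) :=
          mul_le_mul_of_nonneg_left (add_le_add h5 h6) (by positivity)
      _ = 7 * C1 * 2 ^ J * (Real.log J * M) := by ring
  have hor := Cnt_or (2 ^ J) (fun n q => q < 2 ^ (J / (2 * k + 2)) ∧ BadQ n q)
    (fun n q => q < 2 ^ a0 ∧ BadQ n q)
    (fun n q => 2 ^ a0 ≤ q ∧ q < 2 ^ (J / (2 * k + 2)) ∧ BadQ n q) (by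
      intro n q _ _ hq
      rcases lt_or_ge q (2 ^ a0) with h | h
      · exact Or.inl ⟨h, hq.2⟩
      · exact Or.inr ⟨h, hq.1, hq.2⟩)
  have hJ0' : 0 ≤ (J0 : ℝ) * 2 ^ J * (Real.log J * M) := by positivity
  calc Cnt (2 ^ J) (fun n q => q < 2 ^ (J / (2 * k + 2)) ∧ BadQ n q)
      ≤ C2 * (6 * k) ^ 2 * 2 ^ J * (Real.log J * M) + 7 * C1 * 2 ^ J * (Real.log J * M) :=
        hor.trans (add_le_add hfirst hsecond)
    _ ≤ (C2 * (6 * k) ^ 2 + 7 * C1 + J0) * 2 ^ J * (Real.log J * M) := by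
        have e1 : (C2 * (6 * k) ^ 2 + 7 * C1 + J0) * 2 ^ J * (Real.log J * M) =
            C2 * (6 * k) ^ 2 * 2 ^ J * (Real.log J * M) + 7 * C1 * 2 ^ J * (Real.log J * M) +
              J0 * 2 ^ J * (Real.log J * M) := by ring
        rw [e1]
        linarith

end Pool.Agent.H37.OH.LowP
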