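import Pool.Agent.H37.PPC.Ch
import Pool.Agent.H37.OH.Defs

/-!
OH Nsq: `(a / b) = -1` for some odd `b`, `a` not a square.

`a < 0`: `ex_neg`.  `a > 0`: `a = k² s`, `s > 1` squarefree, `ex_pos` for the primes of `s` gives an odd `b` with
`(s / b) = -1`; a prime `p > k`, `p = b` modulo `4 s`, has `(a / p) = (s / p) = -1`.
-/

set_option autoImplicit false

namespace Pool.Agent.H37.OH

open Pool.Agent.H37.PPC

theorem ex_nsq (a : ℤ) (ha : ¬ IsSquare a) : ∃ b : ℕ, Odd b ∧ jacobiSym a b = -1 := by
  rcases lt_trichotomy a 0 with h | h | h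
  · exact ex_neg a h
  · exact absurd ⟨0, by simp [h]⟩ ha
  · obtain ⟨m, rfl⟩ := Int.eq_ofNat_of_zero_le h.le
    have hm : 0 < m := by exact_mod_cast h
    obtain ⟨s, k, hsk, hs⟩ := Nat.sq_mul_squarefree m
    have hk : 0 < k := by
      rcases Nat.eq_zero_or_pos k with hk | hk
      · rw [hk] at hsk
        simp at hsk
        omega
      · exact hk
    have hs0 : 0 < s := Nat.pos_of_ne_zero hs.ne_zero
    have hs1 : s ≠ 1 := by
      intro hs1
      apply ha
      refine ⟨(k : ℤ), ?_⟩
      rw [← hsk, hs1]
      push_cast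
      ring
    obtain ⟨b, hbo, hb⟩ := ex_pos s.primeFactors (Nat.nonempty_primeFactors.2 (by omega))
      (fun p hp => Nat.prime_of_mem_primeFactors hp)
    rw [Nat.prod_primeFactors_of_squarefree hs] at hb
    have hcop : b.Coprime (4 * s) := by
      have h1 : b.Coprime 4 := by
        have h2 : Nat.Coprime (2 ^ 2) b := (Nat.coprime_two_left.2 hbo).pow_left 2
        exact h2.symm
      have h3 : b.Coprime s := by
        by_contra hne
        have : NeZero b := ⟨hbo.pos.ne'⟩
        have h4 : jacobiSym (s : ℤ) b = 0 := by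
          rw [jacobiSym.eq_zero_iff_not_coprime]
          intro h5
          apply hne
          have h6 : Nat.gcd s b = 1 := by
            have := h5
            rw [Int.gcd_natCast_natCast] at this
            exact this
          exact (Nat.coprime_iff_gcd_eq_one.2 h6).symm
        rw [h4] at hb
        norm_num at hb
      exact h1.mul_right h3
    obtain ⟨p, hpk, hp, hmod⟩ := Nat.forall_exists_prime_gt_and_modEq (k + 2) (q := 4 * s) (a := b)
      (by omega) hcop
    have hpo : Odd p := hp.odd_of_ne_two (by omega)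
    refine ⟨p, hpo, ?_⟩
    have h1 : jacobiSym (s : ℤ) p = -1 := by
      have h3 := jacobiSym.mod_right (s : ℤ) hpo
      have h4 := jacobiSym.mod_right (s : ℤ) hbo
      rw [Int.natAbs_natCast] at h3 h4
      have h5 : p % (4 * s) = b % (4 * s) := hmod
      rw [h3, h5, ← h4]
      exact hb
    have h2 : jacobiSym (k : ℤ) p ^ 2 = 1 := by
      apply jacobiSym.sq_one
      rw [Int.gcd_natCast_natCast]
      exact ((Nat.Prime.coprime_iff_not_dvd hp).2 (Nat.not_dvd_of_pos_of_lt hk (by omega))).symm
    rw [← hsk]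
    push_cast
    rw [jacobiSym.mul_left, jacobiSym.pow_left, h2, h1]
    norm_num

end Pool.Agent.H37.OH
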