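import Pool.Agent.H37.OH.Defs

/-!
PROJECT OH, One: the sieve for one bad prime, five classes.
-/

set_option autoImplicit false

namespace Pool.Agent.H37.OH

open Finset
open Pool.Agent.H37.PPC (pr mem_pr)
open Pool.Agent.H12.FO

/-- a prime of `NR` which divides `n` divides it twice if `q` is bad for `n` -/
private theorem NR_sq5 {L z q n p : ℕ} (hL : 3 ≤ L) (hB : BadQ n q) (hp : p ∈ NR (sg q) L z q)
    (hpn : p ∣ n) : p ^ 2 ∣ n := by
  unfold NR at hp
  rw [mem_filter] at hp
  obtain ⟨h1, h2⟩ := hp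
  have h3 := mem_pr.1 h1
  obtain ⟨hq, hq2, -, hT⟩ := hB
  by_contra hc
  have h4 := hT p h3.2 hpn hc
  have h5 := recip p q h3.2 hq (by omega) hq2
  rw [h2] at h5
  have : Fact q.Prime := ⟨hq⟩
  rw [← jacobiSym.legendreSym.to_jacobiSym] at h5
  have h6 := (legendreSym.eq_neg_one_iff q).1 h5
  apply h6
  simpa using h4

/-- a quadratic polynomial has at most two roots modulo a prime -/
private theorem rts_card (q : ℕ) (hq : q.Prime) : (rts q).card ≤ 2 := by
  classical
  rcases (rts q).eq_empty_or_nonempty with h | ⟨r₀, hr₀⟩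
  · rw [h, card_empty]
    exact Nat.zero_le _
  · have hsub : rts q ⊆ {r₀, q - 1 - r₀} := by
      intro r hr
      unfold rts at hr hr₀
      rw [mem_filter, mem_range] at hr hr₀
      obtain ⟨h1, h2⟩ := hr
      obtain ⟨h3, h4⟩ := hr₀
      rw [mem_insert, mem_singleton]
      have h5 : (q : ℤ) ∣ ((r : ℤ) - r₀) * (r + r₀ + 1) := by
        have h6 : (q : ℤ) ∣ (r : ℤ) ^ 2 + r + 1 := by exact_mod_cast h2
        have h7 : (q : ℤ) ∣ (r₀ : ℤ) ^ 2 + r₀ + 1 := by exact_mod_cast h4
        have h8 := dvd_sub h6 h7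
        have e : ((r : ℤ) - r₀) * (r + r₀ + 1) = (r : ℤ) ^ 2 + r + 1 - ((r₀ : ℤ) ^ 2 + r₀ + 1) := by ring
        rw [e]
        exact h8
      rcases (Nat.prime_iff_prime_int.1 hq).dvd_or_dvd h5 with h6 | h6
      · left
        obtain ⟨c, hc⟩ := h6
        have hc0 : c = 0 := by
          by_contra hne
          rcases lt_or_gt_of_ne hne with h7 | h7
          · have : (q : ℤ) * c ≤ (q : ℤ) * (-1) := mul_le_mul_of_nonneg_left (by omega) (by omega)
            omega
          · have : (q : ℤ) * 1 ≤ (q : ℤ) * c := mul_le_mul_of_nonneg_left (by omega) (by omega)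
            omega
        rw [hc0, mul_zero] at hc
        omega
      · right
        obtain ⟨c, hc⟩ := h6
        have hc1 : c = 1 := by
          by_contra hne
          rcases lt_or_gt_of_ne hne with h7 | h7
          · have : (q : ℤ) * c ≤ (q : ℤ) * 0 := mul_le_mul_of_nonneg_left (by omega) (by omega)
            omega
          · have : (q : ℤ) * 2 ≤ (q : ℤ) * c := mul_le_mul_of_nonneg_left (by omega) (by omega)
            omega
        rw [hc1, mul_one] at hc
        omega
    exact (card_le_card hsub).trans card_le_two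

/-- **The sieve for one bad prime `q`**, five classes -/
theorem one5 : ∃ C : ℝ, 0 < C ∧ ∃ s : ℕ, 2 ≤ s ∧ ∀ X z L q : ℕ, 3 ≤ L → L ≤ z → z ^ s ≤ X → q.Prime → q ≠ 2 →
    ∀ P : Finset ℕ, P ⊆ NR (sg q) L z q →
    Cnt (q * X) (fun n q' => q' = q ∧ BadQ n q') ≤
      C * X * (Real.exp (-(∑ p ∈ P, (1 : ℝ) / p)) + 1 / L) := by
  classical
  obtain ⟨C, hC, s, hs, h⟩ := siv
  refine ⟨5 * C, by positivity, s, hs, ?_⟩
  intro X z L q hL hLz hzX hq hq2 P hP
  have hq0 : 1 ≤ q := hq.one_lt.le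
  set T := (Ico 2 (q * X)).filter (fun n => ∃ q', q' = q ∧ BadQ n q') with hT
  have key : ∀ r : ℕ, (((T.filter (fun n => n % q = r)).card : ℕ) : ℝ) ≤
      C * X * (Real.exp (-(∑ p ∈ P, (1 : ℝ) / p)) + 1 / L) := by
    intro r
    refine h X z L q r (by omega) hLz hzX hq0 P (hP.trans (filter_subset _ _)) ?_ _ ?_
    · intro p hp' hpq
      have hp := hP hp'
      unfold NR at hp
      rw [mem_filter] at hp
      have h3 := (mem_pr.1 hp.1).2
      have h4 : p = q := (Nat.prime_dvd_prime_iff_eq h3 hq).1 hpq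
      have h5 : jacobiSym (sg q * q) p = 0 := by
        rw [h4, jacobiSym.mul_left]
        have : NeZero q := ⟨hq.pos.ne'⟩
        have h6 : jacobiSym (q : ℤ) q = 0 := by
          rw [jacobiSym.eq_zero_iff_not_coprime]
          simp [hq.ne_one]
        rw [h6, mul_zero]
      rw [h5] at hp
      exact absurd hp.2 (by norm_num)
    · intro n hn
      rw [mem_filter, hT, mem_filter, mem_Ico] at hn
      obtain ⟨⟨⟨h1, h2⟩, q', hqq, hB⟩, h3⟩ := hn
      rw [hqq] at hB
      exact ⟨h3, h2, fun p hp hpn => NR_sq5 hL hB (hP hp) hpn⟩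
  set K : Finset ℕ := {0, 1, q - 1} ∪ rts q with hK
  have hKc : K.card ≤ 5 := by
    have h1 : ({0, 1, q - 1} : Finset ℕ).card ≤ 3 := card_le_three
    have h2 := card_union_le ({0, 1, q - 1} : Finset ℕ) (rts q)
    have h3 := rts_card q hq
    rw [hK]
    omega
  have hsub : T ⊆ K.biUnion fun r => T.filter (fun n => n % q = r) := by
    intro n hn
    have h1 := hn
    rw [hT, mem_filter, mem_Ico] at h1
    obtain ⟨⟨h2, h3⟩, q', hqq, hB⟩ := h1
    rw [hqq] at hB
    rw [mem_biUnion]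
    refine ⟨n % q, ?_, mem_filter.2 ⟨hn, rfl⟩⟩
    rw [hK, mem_union, mem_insert, mem_insert, mem_singleton]
    rcases (Nat.Prime.dvd_mul hq).1 hB.2.2.1 with h4 | h4
    · left
      exact three n q hq (by omega) h4
    · right
      unfold rts
      rw [mem_filter, mem_range]
      refine ⟨Nat.mod_lt _ hq.pos, ?_⟩
      have h5 : (n % q) ^ 2 + n % q + 1 ≡ n ^ 2 + n + 1 [MOD q] :=
        (((Nat.mod_modEq n q).pow 2).add (Nat.mod_modEq n q)).add_right 1
      exact (Nat.modEq_zero_iff_dvd.1 (h5.trans (Nat.modEq_zero_iff_dvd.2 h4)))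
  set B : ℝ := C * X * (Real.exp (-(∑ p ∈ P, (1 : ℝ) / p)) + 1 / L) with hB
  have hB0 : 0 ≤ B := by positivity
  have hc1 : (T.card : ℝ) ≤ 5 * B := by
    calc (T.card : ℝ) ≤ ∑ r ∈ K, (((T.filter (fun n => n % q = r)).card : ℕ) : ℝ) := by
          have := (card_le_card hsub).trans card_biUnion_le
          exact_mod_cast this
      _ ≤ ∑ _r ∈ K, B := sum_le_sum fun r _ => key r
      _ = K.card * B := by rw [sum_const, nsmul_eq_mul]
      _ ≤ 5 * B := mul_le_mul_of_nonneg_right (by exact_mod_cast hKc) hB0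
  have e : Cnt (q * X) (fun n q' => q' = q ∧ BadQ n q') = (T.card : ℝ) := by
    unfold Cnt
    congr
  rw [e]
  refine hc1.trans (le_of_eq ?_)
  rw [hB]
  ring

end Pool.Agent.H37.OH
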