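import Pool.Agent.H37.OH.Defs

/-!
PROJECT OH, module Rho: the number of roots of `r² + r + 1` modulo `u`.
-/

set_option autoImplicit false

namespace Pool.Agent.H37.OH

open Finset
open Pool.Agent.H37.PPC (pr mem_pr)
open Pool.Agent.H12.FO

private theorem rho_mem {u r : ℕ} : r ∈ rts u ↔ r < u ∧ u ∣ r ^ 2 + r + 1 := by
  unfold rts
  rw [mem_filter, mem_range]

private theorem rho_mod {a r : ℕ} (h : a ∣ r ^ 2 + r + 1) : a ∣ (r % a) ^ 2 + r % a + 1 := by
  have h1 : r % a ≡ r [MOD a] := Nat.mod_modEq r a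
  have h2 : (r % a) ^ 2 + r % a + 1 ≡ r ^ 2 + r + 1 [MOD a] := ((h1.pow 2).add h1).add_right 1
  exact (Nat.ModEq.dvd_iff h2 dvd_rfl).2 h

/-- the number of roots is submultiplicative -/
private theorem rho_mul {a b : ℕ} (ha : 0 < a) (hb : 0 < b) (hab : a.Coprime b) :
    (rts (a * b)).card ≤ (rts a).card * (rts b).card := by
  rw [← card_product]
  refine card_le_card_of_injOn (fun r => (r % a, r % b)) ?_ ?_
  · intro r hr
    rw [mem_coe, rho_mem] at hr
    rw [mem_coe, mem_product]
    exact ⟨rho_mem.2 ⟨Nat.mod_lt _ ha, rho_mod ((Dvd.intro _ rfl).trans hr.2)⟩,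
      rho_mem.2 ⟨Nat.mod_lt _ hb, rho_mod ((Dvd.intro_left _ rfl).trans hr.2)⟩⟩
  · intro r hr s hs hrs
    rw [mem_coe, rho_mem] at hr hs
    have h1 : r % a = s % a := congrArg Prod.fst hrs
    have h2 : r % b = s % b := congrArg Prod.snd hrs
    have h3 : r ≡ s [MOD a * b] := (Nat.modEq_and_modEq_iff_modEq_mul hab).1 ⟨h1, h2⟩
    exact Nat.ModEq.eq_of_lt_of_lt h3 hr.1 hs.1

/-- no roots modulo a prime `p ≡ 2 (mod 3)` -/
private theorem rho_two {p : ℕ} (hp : p.Prime) (h2 : p % 3 = 2) (r : ℕ) : ¬ p ∣ r ^ 2 + r + 1 := by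
  intro h
  haveI : Fact p.Prime := ⟨hp⟩
  have h1 : ((r : ZMod p)) ^ 2 + r + 1 = 0 := by
    have h3 := (ZMod.natCast_eq_zero_iff (r ^ 2 + r + 1) p).2 h
    push_cast at h3
    exact h3
  have h3 : (r : ZMod p) ^ 3 = 1 := by
    have h4 : (r : ZMod p) ^ 3 - 1 = (r - 1) * ((r : ZMod p) ^ 2 + r + 1) := by ring
    rw [h1, mul_zero] at h4
    exact sub_eq_zero.1 h4
  have h4 : (r : ZMod p) ≠ 1 := by
    intro h5
    rw [h5] at h1
    have h6 : (3 : ZMod p) = 0 := by
      have : (1 : ZMod p) ^ 2 + 1 + 1 = 3 := by norm_num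
      rw [← this]
      exact h1
    have h7 : ((3 : ℕ) : ZMod p) = 0 := by
      push_cast
      exact h6
    rw [ZMod.natCast_eq_zero_iff] at h7
    have h8 := Nat.le_of_dvd (by norm_num) h7
    have h9 := hp.two_le
    interval_cases p
    · omega
    · omega
  have h5 : orderOf (r : ZMod p) = 3 := orderOf_eq_prime h3 h4
  have h0 : (r : ZMod p) ≠ 0 := by
    intro h6
    rw [h6] at h3
    norm_num at h3
  have h6 : (r : ZMod p) ^ (p - 1) = 1 := ZMod.pow_card_sub_one_eq_one h0
  have h7 : 3 ∣ p - 1 := by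
    rw [← h5]
    exact orderOf_dvd_of_pow_eq_one h6
  have h8 := hp.two_le
  omega

private theorem rho_nine (r : ℕ) : ¬ 9 ∣ r ^ 2 + r + 1 := by
  intro h
  have h1 := rho_mod h
  have h2 : r % 9 < 9 := Nat.mod_lt _ (by norm_num)
  generalize r % 9 = t at h1 h2
  interval_cases t <;> omega

/-- at most two roots modulo a power of `p ≠ 3` -/
private theorem rho_pow {p k : ℕ} (hp : p.Prime) (h3 : p ≠ 3) : (rts (p ^ k)).card ≤ 2 := by
  rcases (rts (p ^ k)).eq_empty_or_nonempty with h0 | ⟨r, hr⟩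
  · rw [h0, card_empty]
    omega
  · have hsub : rts (p ^ k) ⊆ {r, p ^ k - 1 - r} := by
      intro s hs
      rw [rho_mem] at hr hs
      rw [mem_insert, mem_singleton]
      have h1 : ((p ^ k : ℕ) : ℤ) ∣ ((s : ℤ) - r) * ((s : ℤ) + r + 1) := by
        have h2 : ((p ^ k : ℕ) : ℤ) ∣ ((s ^ 2 + s + 1 : ℕ) : ℤ) := Int.natCast_dvd_natCast.2 hs.2
        have h4 : ((p ^ k : ℕ) : ℤ) ∣ ((r ^ 2 + r + 1 : ℕ) : ℤ) := Int.natCast_dvd_natCast.2 hr.2
        have h5 := dvd_sub h2 h4
        refine h5.trans (dvd_of_eq ?_)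
        push_cast
        ring
      rcases Nat.eq_zero_or_pos k with hk | hk
      · left
        have h2 := hs.1
        have h4 := hr.1
        rw [hk, pow_zero] at h2 h4
        omega
      have hpk : p ∣ p ^ k := dvd_pow_self p (by omega)
      have hpz : Prime (p : ℤ) := Nat.prime_iff_prime_int.1 hp
      have hnot : ¬ ((p : ℤ) ∣ (s : ℤ) - r ∧ (p : ℤ) ∣ (s : ℤ) + r + 1) := by
        rintro ⟨h2, h4⟩
        have h5 : (p : ℤ) ∣ 2 * (r : ℤ) + 1 := by
          have h6 := dvd_sub h4 h2
          refine h6.trans (dvd_of_eq ?_)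
          ring
        have h6 : (p : ℤ) ∣ ((r ^ 2 + r + 1 : ℕ) : ℤ) := Int.natCast_dvd_natCast.2 (hpk.trans hr.2)
        have h7 : (p : ℤ) ∣ 3 := by
          have h8 := dvd_sub (Dvd.dvd.mul_left h6 4) (Dvd.dvd.mul_left h5 (2 * (r : ℤ) + 1))
          refine h8.trans (dvd_of_eq ?_)
          push_cast
          ring
        have h8 : p ∣ 3 := by exact_mod_cast h7
        exact h3 ((Nat.prime_dvd_prime_iff_eq hp Nat.prime_three).1 h8)
      have hcop : ∀ x : ℤ, ¬ (p : ℤ) ∣ x → IsCoprime ((p ^ k : ℕ) : ℤ) x := by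
        intro x hx
        push_cast
        exact IsCoprime.pow_left ((Prime.coprime_iff_not_dvd hpz).2 hx)
      by_cases hd : (p : ℤ) ∣ (s : ℤ) - r
      · left
        have h2 : ¬ (p : ℤ) ∣ (s : ℤ) + r + 1 := fun h4 => hnot ⟨hd, h4⟩
        have h4 : ((p ^ k : ℕ) : ℤ) ∣ (s : ℤ) - r := (hcop _ h2).dvd_of_dvd_mul_right h1
        have h5 := hs.1
        have h6 := hr.1
        have h7 : (s : ℤ) - r = 0 := by
          refine Int.eq_zero_of_abs_lt_dvd h4 ?_
          rw [abs_lt]
          constructor <;> omega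
        omega
      · right
        have h4 : ((p ^ k : ℕ) : ℤ) ∣ (s : ℤ) + r + 1 := (hcop _ hd).dvd_of_dvd_mul_left h1
        have h5 := hs.1
        have h6 := hr.1
        have h7 : (p ^ k) ∣ s + r + 1 := by exact_mod_cast h4
        obtain ⟨t, ht⟩ := h7
        have ht1 : t = 1 := by
          have h8 : t ≠ 0 := by
            rintro rfl
            omega
          have h9 : t < 2 := by
            by_contra h10
            have h11 : p ^ k * 2 ≤ p ^ k * t := Nat.mul_le_mul_left _ (by omega)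
            omega
          omega
        rw [ht1, mul_one] at ht
        omega
    refine (card_le_card hsub).trans ?_
    exact card_le_two

/-- bound for the number of roots modulo powers of `p` -/
private def nu (p : ℕ) : ℕ := if p % 3 = 1 then 2 else if p = 3 then 3 else 0

private theorem rho_nu {p k : ℕ} (hp : p.Prime) (hk : 0 < k) : (rts (p ^ k)).card ≤ nu p := by
  unfold nu
  split_ifs with h1 h2
  · exact rho_pow hp (by rintro rfl; omega)
  · subst h2
    by_cases hk1 : k = 1
    · rw [hk1, pow_one]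
      refine (card_filter_le _ _).trans ?_
      rw [card_range]
    · have h3 : rts (3 ^ k) = ∅ := by
        rw [eq_empty_iff_forall_notMem]
        intro r hr
        rw [rho_mem] at hr
        have h4 : 9 ∣ 3 ^ k := by
          have h5 : 3 ^ 2 ∣ 3 ^ k := pow_dvd_pow 3 (by omega)
          exact h5
        exact rho_nine r (h4.trans hr.2)
      rw [h3, card_empty]
      omega
  · have h3 : p % 3 = 2 := by
      have h4 : p % 3 ≠ 0 := by
        intro h4
        have h5 : 3 ∣ p := Nat.dvd_of_mod_eq_zero h4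
        exact h2 ((Nat.prime_dvd_prime_iff_eq Nat.prime_three hp).1 h5).symm
      omega
    have h4 : rts (p ^ k) = ∅ := by
      rw [eq_empty_iff_forall_notMem]
      intro r hr
      rw [rho_mem] at hr
      exact rho_two hp h3 r ((dvd_pow_self p (by omega)).trans hr.2)
    rw [h4, card_empty]

private theorem rho_prod (u : ℕ) (hu : 1 ≤ u) : (rts u).card ≤ ∏ p ∈ u.primeFactors, nu p := by
  induction u using Nat.recOnPosPrimePosCoprime with
  | prime_pow p k hp hk =>
    rw [Nat.primeFactors_prime_pow (by omega) hp, prod_singleton]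
    exact rho_nu hp hk
  | zero => omega
  | one =>
    rw [Nat.primeFactors_one, prod_empty]
    refine (card_filter_le _ _).trans ?_
    rw [card_range]
  | coprime a b ha hb hab iha ihb =>
    rw [hab.primeFactors_mul, prod_union hab.disjoint_primeFactors]
    refine (rho_mul (by omega) (by omega) hab).trans ?_
    exact Nat.mul_le_mul (iha (by omega)) (ihb (by omega))

theorem rts_le (u : ℕ) (hu : 1 ≤ u) : ((rts u).card : ℝ) * hh u ≤ G u := by
  have h1 : ((rts u).card : ℝ) ≤ ∏ p ∈ u.primeFactors, (nu p : ℝ) := by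
    have h2 := rho_prod u hu
    exact_mod_cast h2
  have h2 : hh u = ∏ p ∈ u.primeFactors, (if p % 3 = 1 then Real.exp (2 / (p : ℝ)) else 1) := by
    unfold hh
    rw [Real.exp_sum, prod_filter]
  have h3 : 0 ≤ hh u := zero_le_one.trans (hh_ge u)
  calc ((rts u).card : ℝ) * hh u ≤ (∏ p ∈ u.primeFactors, (nu p : ℝ)) * hh u := mul_le_mul_of_nonneg_right h1 h3
    _ = ∏ p ∈ u.primeFactors, ((nu p : ℝ) * (if p % 3 = 1 then Real.exp (2 / (p : ℝ)) else 1)) := by
        rw [h2, prod_mul_distrib]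
    _ = G u := by
        unfold G
        refine prod_congr rfl fun p _ => ?_
        unfold nu gg
        split_ifs with h4 h5
        · push_cast
          rfl
        · push_cast
          ring
        · push_cast
          ring

end Pool.Agent.H37.OH
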