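import Pool.Agent.H37.OH.Sv
import Pool.Agent.H37.OH.Rho

/-!
PROJECT OH (MP_5bfab0_co), module OneU: the number of `n` with `n² + n + 1 = u w`, `w` prime, for a fixed `u`.
-/

set_option autoImplicit false

namespace Pool.Agent.H37.OH.OneUP

open Finset
open Pool.Agent.H37.PPC (pr mem_pr)
open Pool.Agent.H12.FO

private theorem mod_mem_rts (n u w : ℕ) (hu : 1 ≤ u) (h : u * w = n ^ 2 + n + 1) : n % u ∈ rts u := by
  unfold rts
  rw [mem_filter, mem_range]
  refine ⟨Nat.mod_lt _ hu, ?_⟩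
  have h1 : (n % u) ≡ n [MOD u] := Nat.mod_modEq n u
  have h2 : (n % u) ^ 2 + (n % u) + 1 ≡ n ^ 2 + n + 1 [MOD u] := ((h1.pow 2).add h1).add_right 1
  exact (Nat.ModEq.dvd_iff h2 dvd_rfl).2 (Dvd.intro _ h)

private theorem big (n z u w : ℕ) (huz : u ≤ z) (hzn : z ≤ n) (h : u * w = n ^ 2 + n + 1) : z < w := by
  by_contra hc
  have h1 : w ≤ z := not_lt.1 hc
  have h2 : u * w ≤ z * z := Nat.mul_le_mul huz h1
  have h3 : z * z ≤ n * n := Nat.mul_le_mul hzn hzn
  have h4 : n ^ 2 = n * n := sq n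
  omega

private theorem not_dvd_of_sym (s : ℤ) (u p : ℕ) (hp : p.Prime) (h : jacobiSym (s * u) p = -1) : ¬ p ∣ u := by
  intro hd
  have : NeZero p := ⟨hp.ne_zero⟩
  have h0 : jacobiSym (s * u) p = 0 := by
    rw [jacobiSym.eq_zero_iff_not_coprime]
    intro h1
    have h2 : (p : ℤ) ∣ s * (u : ℤ) := Dvd.dvd.mul_left (Int.natCast_dvd_natCast.2 hd) s
    have h3 : p ∣ Int.gcd (s * (u : ℤ)) (p : ℤ) := by
      have := Int.dvd_gcd h2 (dvd_refl (p : ℤ))
      simpa using this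
    rw [h1] at h3
    exact hp.one_lt.ne' (Nat.dvd_one.1 h3)
  rw [h0] at h
  norm_num at h

theorem one_u : ∃ C : ℝ, 0 < C ∧ ∃ k : ℕ, 2 ≤ k ∧ ∀ (s : ℤ) (J L z u : ℕ), (s = 1 ∨ s = -1) → 5 ≤ L → L ≤ z →
    z ^ k ≤ 2 ^ J → 1 ≤ u → u ≤ z → ∀ P : Finset ℕ, P ⊆ NR s L z u → ∀ S : Finset ℕ,
    (∀ n ∈ S, z ≤ n ∧ n < 2 ^ J ∧ ∃ w, WP s n u w) →
    (S.card : ℝ) ≤ C * 2 ^ J * (G u / u) * (Real.exp (-(∑ p ∈ P, (1 : ℝ) / p)) / Real.log z + 1 / L) := by
  obtain ⟨C0, hC0, k0, hk0, h0⟩ := sv3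
  refine ⟨2 * C0, by positivity, k0 + 1, by omega, ?_⟩
  intro s J L z u _ hL hLz hk hu huz P hP S hS
  have hz5 : 5 ≤ z := hL.trans hLz
  have hu0 : (0 : ℝ) < u := by exact_mod_cast hu
  have hupos : 0 < u := hu
  have hmaps : ∀ n ∈ S, n % u ∈ rts u := by
    intro n hn
    obtain ⟨_, _, w, hw⟩ := hS n hn
    exact mod_mem_rts n u w hu hw.1
  have hcard : (S.card : ℝ) = ∑ r ∈ rts u, ((S.filter (fun n => n % u = r)).card : ℝ) := by
    rw [← Nat.cast_sum, card_eq_sum_card_fiberwise (f := fun n => n % u) (t := rts u) hmaps]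
  have hPm : ∀ p ∈ P, p ∈ pr L (z + 1) ∧ jacobiSym (s * u) p = -1 := by
    intro p hp
    exact mem_filter.1 (hP hp)
  have hX : z ^ k0 ≤ 2 ^ J / u + 1 := by
    refine le_trans ?_ (Nat.le_succ _)
    rw [Nat.le_div_iff_mul_le hupos]
    exact le_trans (Nat.mul_le_mul_left _ huz) (le_trans (le_of_eq (pow_succ z k0).symm) hk)
  have hone : (1 : ℝ) ≤ 2 ^ J / u := by
    rw [one_le_div hu0]
    have h1 : u ≤ 2 ^ J := by
      refine le_trans huz (le_trans ?_ hk)
      exact Nat.le_self_pow (by omega) z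
    exact_mod_cast h1
  have hXr : ((2 ^ J / u + 1 : ℕ) : ℝ) ≤ 2 * (2 ^ J / u) := by
    have h1 : ((2 ^ J / u : ℕ) : ℝ) ≤ 2 ^ J / u := by
      have := Nat.cast_div_le (α := ℝ) (m := 2 ^ J) (n := u)
      push_cast at this
      exact this
    push_cast
    linarith
  have hclass : ∀ r ∈ rts u, ((S.filter (fun n => n % u = r)).card : ℝ) ≤
      C0 * ((2 ^ J / u + 1 : ℕ) : ℝ) *
        (hh u * Real.exp (-(∑ p ∈ P, (1 : ℝ) / p)) / Real.log z + 1 / L) := by
    intro r _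
    refine h0 (2 ^ J / u + 1) z L u r hL hLz hX hu P (fun p hp => (hPm p hp).1) ?_
      (S.filter (fun n => n % u = r)) ?_
    · intro p hp
      exact not_dvd_of_sym s u p (mem_pr.1 (hPm p hp).1).2 (hPm p hp).2
    · intro n hn
      rw [mem_filter] at hn
      obtain ⟨hzn, hnJ, w, hw1, hw2, hw3⟩ := hS n hn.1
      refine ⟨hn.2, lt_of_lt_of_le hnJ (Nat.lt_mul_div_succ _ hupos).le, ?_, ?_⟩
      · intro p hp hpu hpd
        have hpp := (mem_pr.1 hp).2
        have hpz := (mem_pr.1 hp).1.2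
        rw [← hw1] at hpd
        rcases (hpp.dvd_mul).1 hpd with h1 | h1
        · exact hpu h1
        · have h2 : p = w := (Nat.prime_dvd_prime_iff_eq hpp hw2).1 h1
          have h3 := big n z u w huz hzn hw1
          omega
      · intro p hp hpn
        have hpp := (mem_pr.1 (hPm p hp).1).2
        have hpL := (mem_pr.1 (hPm p hp).1).1.1
        exact hw3 p hpp (hL.trans hpL) (hPm p hp).2 hpn
  set E : ℝ := Real.exp (-(∑ p ∈ P, (1 : ℝ) / p)) with hE
  have hEpos : 0 < E := Real.exp_pos _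
  have hlog : 0 < Real.log z := Real.log_pos (by exact_mod_cast (by omega : 1 < z))
  have hLpos : (0 : ℝ) < L := by exact_mod_cast (by omega : 0 < L)
  have hR1 := rts_le u hu
  have hR2 : ((rts u).card : ℝ) ≤ G u := by
    refine le_trans ?_ hR1
    have h1 := hh_ge u
    have h2 : (0 : ℝ) ≤ ((rts u).card : ℝ) := Nat.cast_nonneg _
    nlinarith
  have hG := G_nonneg u
  calc (S.card : ℝ) = ∑ r ∈ rts u, ((S.filter (fun n => n % u = r)).card : ℝ) := hcard
    _ ≤ ∑ r ∈ rts u, C0 * ((2 ^ J / u + 1 : ℕ) : ℝ) * (hh u * E / Real.log z + 1 / L) :=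
        sum_le_sum hclass
    _ = C0 * ((2 ^ J / u + 1 : ℕ) : ℝ) *
          ((((rts u).card : ℝ) * hh u) * (E / Real.log z) + ((rts u).card : ℝ) * (1 / L)) := by
        rw [sum_const, nsmul_eq_mul]
        ring
    _ ≤ C0 * (2 * (2 ^ J / u)) * (G u * (E / Real.log z) + G u * (1 / L)) := by
        have hb : (((rts u).card : ℝ) * hh u) * (E / Real.log z) + ((rts u).card : ℝ) * (1 / L) ≤
            G u * (E / Real.log z) + G u * (1 / L) :=
          add_le_add (mul_le_mul_of_nonneg_right hR1 (by positivity))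
            (mul_le_mul_of_nonneg_right hR2 (by positivity))
        have hb0 : 0 ≤ (((rts u).card : ℝ) * hh u) * (E / Real.log z) + ((rts u).card : ℝ) * (1 / L) := by
          have := hh_ge u
          have h3 : 0 ≤ hh u := by linarith
          positivity
        exact mul_le_mul (mul_le_mul_of_nonneg_left hXr hC0.le) hb hb0 (by positivity)
    _ = 2 * C0 * 2 ^ J * (G u / u) * (E / Real.log z + 1 / L) := by ring

end Pool.Agent.H37.OH.OneUP
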