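import Pool.Agent.H37.OH.Defs

/-!
PROJECT OH: statements of the modules (all `sorry`).
-/

set_option autoImplicit false

namespace Pool.Agent.H37.OH

open Finset
open Pool.Agent.H37.PPC (pr mem_pr)
open Pool.Agent.H12.FO

/-! ### Nsq -/
theorem ex_nsq (a : ℤ) (ha : ¬ IsSquare a) : ∃ b : ℕ, Odd b ∧ jacobiSym a b = -1 := sorry

/-! ### Mass (uses ex_nsq) -/
theorem one_mass : ∃ C : ℝ, 0 < C ∧ ∀ (s : ℤ) (a M z : ℕ), (s = 1 ∨ s = -1) → 1 ≤ a → (4 * a) ^ 8 ≤ M → M ≤ z →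
    ¬ IsSquare (s * (a : ℤ)) →
    Real.exp (-(∑ p ∈ NR s M z a, (1 : ℝ) / p)) ≤ C * Real.sqrt (Real.log M / Real.log z) := sorry

theorem two_mass : ∃ C : ℝ, 0 < C ∧ ∀ (s : ℤ) (L U M z a : ℕ), (s = 1 ∨ s = -1) → 3 ≤ L → L ≤ U → U < M →
    (4 * a) ^ 8 ≤ M → M ≤ z → 1 ≤ a → a < 2 ^ L → ¬ IsSquare (s * (a : ℤ)) → FS s L U a ≤ 1 →
    Real.exp (-(∑ p ∈ NR s L U a ∪ NR s M z a, (1 : ℝ) / p)) ≤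
      C * (Real.sqrt (Real.log L / Real.log U) * Real.sqrt (Real.log M / Real.log z)) := sorry

/-! ### One -/
theorem one5 : ∃ C : ℝ, 0 < C ∧ ∃ s : ℕ, 2 ≤ s ∧ ∀ X z L q : ℕ, 3 ≤ L → L ≤ z → z ^ s ≤ X → q.Prime → q ≠ 2 →
    ∀ P : Finset ℕ, P ⊆ NR (sg q) L z q →
    Cnt (q * X) (fun n q' => q' = q ∧ BadQ n q') ≤
      C * X * (Real.exp (-(∑ p ∈ P, (1 : ℝ) / p)) + 1 / L) := sorry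

/-! ### Blk (uses one5, two_mass) -/
theorem blk : ∃ C : ℝ, 0 < C ∧ ∃ k : ℕ, 8 ≤ k ∧ ∀ L a i : ℕ, 3 ≤ L → L ^ k ≤ 2 ^ a → a + 1 ≤ L → k * a ≤ i →
    Cnt (2 ^ (a + i)) (fun n q => 2 ^ a ≤ q ∧ q < 2 ^ (a + 1) ∧ BadQ n q) ≤
      C * 2 ^ (a + i) * (1 / L + 1 / a * Real.sqrt (Real.log L / i)) := sorry

/-! ### Sml (uses one5, one_mass) -/
theorem sml5 : ∃ C : ℝ, 0 < C ∧ ∃ k : ℕ, 8 ≤ k ∧ ∀ J Q : ℕ, 3 ≤ J → J ≤ Q → Q ^ k ≤ 2 ^ J →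
    Cnt (2 ^ J) (fun n q => q < Q ∧ BadQ n q) ≤
      C * 2 ^ J * ((Real.log (Real.log Q) + 1) * Real.sqrt (Real.log Q / J)) := sorry

/-! ### Low (uses blk, sml5) -/
theorem low : ∃ C : ℝ, 0 < C ∧ ∃ K : ℕ, 2 ≤ K ∧ ∀ J : ℕ, 3 ≤ J →
    Cnt (2 ^ J) (fun n q => q < 2 ^ (J / K) ∧ BadQ n q) ≤
      C * 2 ^ J * (Real.log J * Real.sqrt (Real.log J / J)) := sorry

/-! ### Mid (from H80/FO/MidU, H12/FO/Blq, H12/FO/Trv) -/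
theorem midK (K : ℕ) (hK : 2 ≤ K) : ∃ C : ℝ, 0 < C ∧ ∀ J : ℕ, 3 ≤ J →
    Cnt (2 ^ J) (fun n q => 2 ^ (J / K) ≤ q ∧ BadP n q) ≤ C * 2 ^ J * Real.sqrt (Real.log J / J) := sorry

/-! ### Rho -/
theorem rts_le (u : ℕ) (hu : 1 ≤ u) : ((rts u).card : ℝ) * hh u ≤ G u := sorry

/-! ### Eul -/
theorem G_sums : ∃ C : ℝ, 0 < C ∧ ∃ A : ℕ,
    (∀ V : ℕ, 2 ≤ V → ∑ u ∈ Icc 1 V, G u / u ≤ C * Real.log V) ∧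
    (∀ a : ℕ, 1 ≤ a → ∑ u ∈ Ico (2 ^ a) (2 ^ (a + 1)), G u ^ 2 ≤ C * 2 ^ a * (a : ℝ) ^ A) ∧
    (∀ V : ℕ, ∑ k ∈ Icc 1 V, G k / (k : ℝ) ^ 2 ≤ C) := sorry

/-! ### Sv -/
theorem sv3 : ∃ C : ℝ, 0 < C ∧ ∃ s : ℕ, 2 ≤ s ∧ ∀ X z L u r : ℕ, 5 ≤ L → L ≤ z → z ^ s ≤ X → 1 ≤ u →
    ∀ P : Finset ℕ, P ⊆ pr L (z + 1) → (∀ p ∈ P, ¬ p ∣ u) → ∀ S : Finset ℕ,
    (∀ n ∈ S, n % u = r ∧ n < u * X ∧ (∀ p ∈ pr 5 (z + 1), ¬ p ∣ u → ¬ p ∣ n ^ 2 + n + 1) ∧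
      ∀ p ∈ P, p ∣ n → p ^ 2 ∣ n) →
    (S.card : ℝ) ≤ C * X * (hh u * Real.exp (-(∑ p ∈ P, (1 : ℝ) / p)) / Real.log z + 1 / L) := sorry

/-! ### OneU (uses sv3, rts_le) -/
theorem one_u : ∃ C : ℝ, 0 < C ∧ ∃ k : ℕ, 2 ≤ k ∧ ∀ (s : ℤ) (J L z u : ℕ), (s = 1 ∨ s = -1) → 5 ≤ L → L ≤ z →
    z ^ k ≤ 2 ^ J → 1 ≤ u → u ≤ z → ∀ P : Finset ℕ, P ⊆ NR s L z u → ∀ S : Finset ℕ,
    (∀ n ∈ S, z ≤ n ∧ n < 2 ^ J ∧ ∃ w, WP s n u w) →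
    (S.card : ℝ) ≤ C * 2 ^ J * (G u / u) * (Real.exp (-(∑ p ∈ P, (1 : ℝ) / p)) / Real.log z + 1 / L) := sorry

/-! ### Wps (uses one_u, G_sums, one_mass, two_mass) -/
theorem wps : ∃ C : ℝ, 0 < C ∧ ∃ K : ℕ, 2 ≤ K ∧ ∀ (s : ℤ) (J : ℕ), (s = 1 ∨ s = -1) → 3 ≤ J → ∀ S : Finset ℕ,
    (∀ n ∈ S, 1 ≤ n ∧ n < 2 ^ J ∧ ∃ u w : ℕ, u ≤ 2 ^ (J / K) ∧ WP s n u w) →
    (S.card : ℝ) ≤ C * 2 ^ J * Real.sqrt (Real.log J / J) := sorry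

end Pool.Agent.H37.OH
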