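import Pool.Agent.H37.OH.Defs
import Pool.Agent.H37.PPC.Sv
import Pool.Agent.H37.PPC.TS

/-!
PROJECT OH, module Sv: the sieve for `n = r + u t`, `t < X`, of dimension `3/2`: `n² + n + 1` has no prime factor `p ≤ z`, `p ≥ 5`, `p ∤ u`
(two classes for `p ≡ 1 mod 3`), and no `p ∈ P` divides `n` exactly once.
-/

set_option autoImplicit false

namespace Pool.Agent.H37.OH

open Finset
open Pool.Agent.H37.PPC (pr mem_pr)
open Pool.Agent.H12.FO

/-- numbers in a class mod `m` below `m X` divisible by `p²` -/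
private theorem Sv_sq (X m r p : ℕ) (hp : p.Prime) (hpm : ¬ p ∣ m) (S : Finset ℕ)
    (hS : ∀ n ∈ S, n % m = r ∧ n < m * X ∧ p ^ 2 ∣ n) : S.card ≤ X / p ^ 2 + 1 := by
  have hp2 : 0 < p ^ 2 := pow_pos hp.pos 2
  rw [← card_range (X / p ^ 2 + 1)]
  refine card_le_card_of_injOn (fun n => n / m / p ^ 2) ?_ ?_
  · intro n hn
    obtain ⟨h1, h2, h3⟩ := hS n hn
    have h4 : n / m < X := Nat.div_lt_of_lt_mul h2
    rw [mem_coe, mem_range]
    exact Nat.lt_succ_of_le (Nat.div_le_div_right h4.le)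
  · intro a ha b hb hab
    obtain ⟨h1, h2, h3⟩ := hS a ha
    obtain ⟨h4, h5, h6⟩ := hS b hb
    have e1 := Nat.div_add_mod a m
    have e2 := Nat.div_add_mod b m
    have e3 := Nat.div_add_mod (a / m) (p ^ 2)
    have e4 := Nat.div_add_mod (b / m) (p ^ 2)
    have hcop : Nat.Coprime (p ^ 2) m :=
      Nat.Coprime.pow_left 2 ((Nat.Prime.coprime_iff_not_dvd hp).2 hpm)
    have hmod : a / m ≡ b / m [MOD p ^ 2] := by
      have h7 : m * (a / m) + r ≡ m * (b / m) + r [MOD p ^ 2] := by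
        rw [← h1, e1, h1, ← h4, e2]
        exact ((Nat.modEq_zero_iff_dvd.2 h3).trans (Nat.modEq_zero_iff_dvd.2 h6).symm)
      exact Nat.ModEq.cancel_left_of_coprime hcop (Nat.ModEq.add_right_cancel' r h7)
    have h8 : a / m % p ^ 2 = b / m % p ^ 2 := hmod
    simp only at hab
    have h9 : a / m = b / m := by rw [← e3, ← e4, hab, h8]
    rw [← e1, ← e2, h1, h4, h9]

/-- the number of roots -/
private theorem Sv_roots {q : ℕ} (hq : q.Prime) (h3 : q % 3 = 1) :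
    ((range q).filter (fun r => q ∣ r ^ 2 + r + 1)).card = 2 := by
  classical
  have hqf : Fact q.Prime := ⟨hq⟩
  have hdvd : 3 ∣ Fintype.card (ZMod q)ˣ := by
    rw [ZMod.card_units_eq_totient, Nat.totient_prime hq]
    omega
  have h3f : Fact (Nat.Prime 3) := ⟨Nat.prime_three⟩
  obtain ⟨u, hu⟩ := exists_prime_orderOf_dvd_card 3 hdvd
  have hu3 : u ^ 3 = 1 := by
    rw [← hu]
    exact pow_orderOf_eq_one u
  have hu1 : u ≠ 1 := by
    intro h
    rw [h, orderOf_one] at hu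
    omega
  obtain ⟨w, hw⟩ : ∃ w : ZMod q, w = (u : ZMod q) := ⟨_, rfl⟩
  have hw3 : w ^ 3 = 1 := by
    rw [hw, ← Units.val_pow_eq_pow_val, hu3, Units.val_one]
  have hw1 : w ≠ 1 := by
    intro h
    apply hu1
    apply Units.ext
    rw [Units.val_one, ← hw]
    exact h
  have hw0 : w ≠ 0 := by
    rw [hw]
    exact u.ne_zero
  have hww : w ^ 2 + w + 1 = 0 := by
    have h : (w - 1) * (w ^ 2 + w + 1) = 0 := by
      have : (w - 1) * (w ^ 2 + w + 1) = w ^ 3 - 1 := by ring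
      rw [this, hw3, sub_self]
    rcases mul_eq_zero.1 h with h | h
    · exact absurd (sub_eq_zero.1 h) hw1
    · exact h
  have hne : w ≠ w ^ 2 := by
    intro h
    apply hw1
    have h2 : w * (w - 1) = 0 := by
      have : w * (w - 1) = w ^ 2 - w := by ring
      rw [this, ← h, sub_self]
    rcases mul_eq_zero.1 h2 with h | h
    · exact absurd h hw0
    · exact sub_eq_zero.1 h
  have hfil : (range q).filter (fun r => q ∣ r ^ 2 + r + 1) = {w.val, (w ^ 2).val} := by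
    ext r
    rw [mem_filter, mem_range, mem_insert, mem_singleton]
    constructor
    · rintro ⟨hr, hd⟩
      have h1 : ((r ^ 2 + r + 1 : ℕ) : ZMod q) = 0 := (ZMod.natCast_eq_zero_iff _ q).2 hd
      push_cast at h1
      have h2 : ((r : ZMod q) - w) * ((r : ZMod q) - w ^ 2) = 0 := by
        have : ((r : ZMod q) - w) * ((r : ZMod q) - w ^ 2)
            = ((r : ZMod q) ^ 2 + (r : ZMod q) + 1) - (r : ZMod q) * (w ^ 2 + w + 1)
              + (w ^ 3 - 1) := by ring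
        rw [this, h1, hww, hw3]
        ring
      rcases mul_eq_zero.1 h2 with h | h
      · left
        rw [← sub_eq_zero.1 h, ZMod.val_natCast, Nat.mod_eq_of_lt hr]
      · right
        rw [← sub_eq_zero.1 h, ZMod.val_natCast, Nat.mod_eq_of_lt hr]
    · rintro (h | h)
      · refine ⟨by rw [h]; exact ZMod.val_lt _, ?_⟩
        apply (ZMod.natCast_eq_zero_iff _ q).1
        push_cast
        rw [h, ZMod.natCast_val, ZMod.cast_id]
        exact hww
      · refine ⟨by rw [h]; exact ZMod.val_lt _, ?_⟩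
        apply (ZMod.natCast_eq_zero_iff _ q).1
        push_cast
        rw [h, ZMod.natCast_val, ZMod.cast_id]
        have : (w ^ 2) ^ 2 + w ^ 2 + 1 = (w ^ 2 + w + 1) + w * (w ^ 3 - 1) := by ring
        rw [this, hww, hw3]
        ring
  rw [hfil]
  apply card_pair
  intro h
  exact hne (ZMod.val_injective q h)

/-- the class of `t` for which `r + u (t - 1) = c` -/
private noncomputable def Sv_psi (u r l c : ℕ) : ℕ :=
  ((1 + ((c : ZMod l) - (r : ZMod l)) * (u : ZMod l)⁻¹ : ZMod l)).val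

private theorem Sv_psi_lt (u r c : ℕ) {l : ℕ} (hl : l.Prime) : Sv_psi u r l c < l := by
  have : NeZero l := ⟨hl.ne_zero⟩
  exact ZMod.val_lt _

private theorem Sv_psi_inj (r : ℕ) {u l : ℕ} (hl : l.Prime) (hu : ¬ l ∣ u) {c c' : ℕ}
    (hc : c < l) (hc' : c' < l) (h : Sv_psi u r l c = Sv_psi u r l c') : c = c' := by
  have hlf : Fact l.Prime := ⟨hl⟩
  have hu0 : (u : ZMod l) ≠ 0 := by
    rw [Ne, ZMod.natCast_eq_zero_iff]
    exact hu
  have h1 := ZMod.val_injective l h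
  have h2 : ((c : ZMod l) - (r : ZMod l)) * (u : ZMod l)⁻¹ =
      ((c' : ZMod l) - (r : ZMod l)) * (u : ZMod l)⁻¹ := add_left_cancel h1
  have h3 := mul_right_cancel₀ (inv_ne_zero hu0) h2
  have h4 : (c : ZMod l) = (c' : ZMod l) := sub_left_injective h3
  rw [ZMod.natCast_eq_natCast_iff'] at h4
  rw [Nat.mod_eq_of_lt hc, Nat.mod_eq_of_lt hc'] at h4
  exact h4

private theorem Sv_psi_key {u r l c n : ℕ} (hl : l.Prime) (hu : ¬ l ∣ u) (hn : n % u = r)
    (h : (n / u + 1) % l = Sv_psi u r l c) : (n : ZMod l) = (c : ZMod l) := by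
  have hlf : Fact l.Prime := ⟨hl⟩
  have hlz : NeZero l := ⟨hl.ne_zero⟩
  have hu0 : (u : ZMod l) ≠ 0 := by
    rw [Ne, ZMod.natCast_eq_zero_iff]
    exact hu
  have h2 : ((n / u + 1 : ℕ) : ZMod l) = 1 + ((c : ZMod l) - (r : ZMod l)) * (u : ZMod l)⁻¹ := by
    rw [← ZMod.natCast_mod (n / u + 1) l, h]
    unfold Sv_psi
    rw [ZMod.natCast_zmod_val]
  have h4 := Nat.div_add_mod n u
  rw [hn] at h4
  have h5 : (n : ZMod l) = u * ((n / u : ℕ) : ZMod l) + r := by
    rw [← Nat.cast_mul, ← Nat.cast_add, h4]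
  have h6 : ((n / u : ℕ) : ZMod l) = ((c : ZMod l) - (r : ZMod l)) * (u : ZMod l)⁻¹ := by
    push_cast at h2
    linear_combination h2
  rw [h5, h6]
  field_simp
  ring

/-- the removed classes -/
private noncomputable def Sv_Om (u r : ℕ) (P Zq : Finset ℕ) (l : ℕ) : Finset ℕ :=
  (if l ∈ P then {Sv_psi u r l 0} else ∅) ∪
    (if l ∈ Zq then ((range l).filter (fun c => l ∣ c ^ 2 + c + 1)).image (Sv_psi u r l) else ∅)

private theorem Sv_mem_Om {u r : ℕ} {P Zq : Finset ℕ} {l a : ℕ} :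
    a ∈ Sv_Om u r P Zq l ↔ (l ∈ P ∧ a = Sv_psi u r l 0) ∨
      (l ∈ Zq ∧ ∃ c, (c < l ∧ l ∣ c ^ 2 + c + 1) ∧ Sv_psi u r l c = a) := by
  unfold Sv_Om
  rw [mem_union]
  refine or_congr ?_ ?_
  · split_ifs with h
    · rw [mem_singleton]
      exact ⟨fun h' => ⟨h, h'⟩, fun h' => h'.2⟩
    · exact ⟨fun h' => absurd h' (notMem_empty _), fun h' => absurd h'.1 h⟩
  · split_ifs with h
    · rw [mem_image]
      constructor
      · rintro ⟨c, hc, hca⟩
        rw [mem_filter, mem_range] at hc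
        exact ⟨h, c, hc, hca⟩
      · rintro ⟨_, c, hc, hca⟩
        exact ⟨c, by rw [mem_filter, mem_range]; exact hc, hca⟩
    · exact ⟨fun h' => absurd h' (notMem_empty _), fun h' => absurd h'.1 h⟩

private theorem Sv_Om_card (u r : ℕ) (P Zq : Finset ℕ) (l : ℕ) (hl : l.Prime)
    (hZ : l ∈ Zq → l % 3 = 1 ∧ ¬ l ∣ u) :
    (Sv_Om u r P Zq l).card = (if l ∈ P then 1 else 0) + (if l ∈ Zq then 2 else 0) := by
  have h2 : ((if l ∈ P then {Sv_psi u r l 0} else ∅ : Finset ℕ)).card =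
      (if l ∈ P then 1 else 0) := by
    split_ifs
    · exact card_singleton _
    · exact card_empty
  have h3 : ((if l ∈ Zq then ((range l).filter (fun c => l ∣ c ^ 2 + c + 1)).image
      (Sv_psi u r l) else ∅ : Finset ℕ)).card = (if l ∈ Zq then 2 else 0) := by
    split_ifs with h
    · have h4 := hZ h
      rw [card_image_of_injOn, Sv_roots hl h4.1]
      intro a ha b hb hab
      rw [mem_coe, mem_filter, mem_range] at ha hb
      exact Sv_psi_inj r hl h4.2 ha.1 hb.1 hab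
    · exact card_empty
  unfold Sv_Om
  rw [card_union_of_disjoint, h2, h3]
  rw [disjoint_left]
  intro a ha hb
  by_cases h5 : l ∈ Zq
  · by_cases h4 : l ∈ P
    · rw [if_pos h4, mem_singleton] at ha
      rw [if_pos h5, mem_image] at hb
      obtain ⟨c, hc, hca⟩ := hb
      rw [mem_filter, mem_range] at hc
      have h7 := Sv_psi_inj r hl (hZ h5).2 hc.1 hl.pos (hca.trans ha)
      rw [h7] at hc
      have h8 : l ∣ 1 := by simpa using hc.2
      exact hl.one_lt.ne' (Nat.dvd_one.1 h8)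
    · rw [if_neg h4] at ha
      exact notMem_empty _ ha
  · rw [if_neg h5] at hb
    exact notMem_empty _ hb

/-- the mass of the primes `1 mod 3` -/
private theorem Sv_mass : ∃ C : ℝ, ∀ z u : ℕ, 5 ≤ z → 1 ≤ u →
    Real.log (Real.log z) - C - ∑ p ∈ u.primeFactors.filter (fun p => p % 3 = 1), 2 / (p : ℝ) ≤
      2 * ∑ l ∈ (pr 5 (z + 1)).filter (fun l => l % 3 = 1 ∧ ¬ l ∣ u), (1 : ℝ) / l := by
  obtain ⟨C1, hC1, hM⟩ := Pool.Agent.H37.PPC.mertens_two
  obtain ⟨C2, hC2, hT⟩ := Pool.Agent.H37.PPC.chi3_sum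
  refine ⟨Real.log (Real.log (5 : ℕ)) + C1 + C2, fun z u hz hu => ?_⟩
  have h1 := (abs_le.1 (hM 5 (z + 1) (by norm_num) (by omega))).1
  have h2 := hT 5 (z + 1) (by norm_num) (by omega)
  have hz5 : (5 : ℝ) ≤ z := by exact_mod_cast hz
  have h3 : Real.log (Real.log z) ≤ Real.log (Real.log ((z + 1 : ℕ) : ℝ)) := by
    refine Real.log_le_log (Real.log_pos (by linarith)) ?_
    refine Real.log_le_log (by linarith) ?_
    push_cast
    linarith
  have h4 : ∑ l ∈ pr 5 (z + 1), (1 : ℝ) / l + ∑ l ∈ pr 5 (z + 1), Pool.Agent.H37.PPC.chi3 l / l ≤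
      ∑ l ∈ pr 5 (z + 1), ((if l % 3 = 1 ∧ ¬ l ∣ u then 2 * ((1 : ℝ) / l) else 0) +
        (if l % 3 = 1 ∧ l ∣ u then 2 / (l : ℝ) else 0)) := by
    rw [← sum_add_distrib]
    refine sum_le_sum fun l hl => ?_
    rw [mem_pr] at hl
    have hl0 : (0 : ℝ) < l := by exact_mod_cast hl.2.pos
    have hl3 : l % 3 ≠ 0 := by
      intro h
      have h5 : 3 ∣ l := Nat.dvd_of_mod_eq_zero h
      have h6 := (Nat.prime_dvd_prime_iff_eq Nat.prime_three hl.2).1 h5
      omega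
    unfold Pool.Agent.H37.PPC.chi3
    by_cases h : l % 3 = 1
    · by_cases hd : l ∣ u
      · rw [if_pos h, if_neg (fun h' => h'.2 hd), if_pos ⟨h, hd⟩]
        have : (1 : ℝ) / l + 1 / l = 0 + 2 / l := by ring
        exact le_of_eq this
      · rw [if_pos h, if_pos ⟨h, hd⟩, if_neg (fun h' => hd h'.2)]
        have : (1 : ℝ) / l + 1 / l = 2 * (1 / l) + 0 := by ring
        exact le_of_eq this
    · have h7 : l % 3 = 2 := by omega
      rw [if_neg h, if_pos h7, if_neg (fun h' => h h'.1), if_neg (fun h' => h h'.1)]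
      have : (1 : ℝ) / l + -1 / l = 0 + 0 := by ring
      exact le_of_eq this
  rw [sum_add_distrib, ← sum_filter, ← sum_filter, ← mul_sum] at h4
  have h5 : ∑ l ∈ (pr 5 (z + 1)).filter (fun l => l % 3 = 1 ∧ l ∣ u), 2 / (l : ℝ) ≤
      ∑ p ∈ u.primeFactors.filter (fun p => p % 3 = 1), 2 / (p : ℝ) := by
    refine sum_le_sum_of_subset_of_nonneg ?_ fun p _ _ => by positivity
    intro l hl
    rw [mem_filter, mem_pr] at hl
    rw [mem_filter, Nat.mem_primeFactors]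
    exact ⟨⟨hl.1.2, hl.2.2, by omega⟩, hl.2.1⟩
  linarith

/-! ### Sv -/
theorem sv3 : ∃ C : ℝ, 0 < C ∧ ∃ s : ℕ, 2 ≤ s ∧ ∀ X z L u r : ℕ, 5 ≤ L → L ≤ z → z ^ s ≤ X → 1 ≤ u →
    ∀ P : Finset ℕ, P ⊆ pr L (z + 1) → (∀ p ∈ P, ¬ p ∣ u) → ∀ S : Finset ℕ,
    (∀ n ∈ S, n % u = r ∧ n < u * X ∧ (∀ p ∈ pr 5 (z + 1), ¬ p ∣ u → ¬ p ∣ n ^ 2 + n + 1) ∧
      ∀ p ∈ P, p ∣ n → p ^ 2 ∣ n) →
    (S.card : ℝ) ≤ C * X * (hh u * Real.exp (-(∑ p ∈ P, (1 : ℝ) / p)) / Real.log z + 1 / L) := by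
  classical
  obtain ⟨C, hC, s, hs, hsv⟩ := Pool.Agent.H37.PPC.sieve 3
  obtain ⟨C', hmass⟩ := Sv_mass
  refine ⟨C * Real.exp C' + 3, by positivity, s + 2, by omega, ?_⟩
  intro X z L m r hL hLz hzX hm P hP hPm S hS
  have hz5 : 5 ≤ z := hL.trans hLz
  have hz2 : 2 ≤ z := by omega
  have hzs : z ^ s ≤ X := (Nat.pow_le_pow_right (by omega) (by omega)).trans hzX
  have hzz : z * L ≤ X := by
    calc z * L ≤ z * z := Nat.mul_le_mul_left z hLz
      _ = z ^ 2 := by ring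
      _ ≤ z ^ (s + 2) := Nat.pow_le_pow_right (by omega) (by omega)
      _ ≤ X := hzX
  have hL0 : (0 : ℝ) < L := by exact_mod_cast (by omega : 0 < L)
  have hX0 : (0 : ℝ) ≤ X := Nat.cast_nonneg X
  set S1 := S.filter (fun n => ∀ p ∈ P, ¬ p ∣ n) with hS1
  set S2 := S.filter (fun n => ¬ ∀ p ∈ P, ¬ p ∣ n) with hS2
  have hcard : S.card = S1.card + S2.card := by
    rw [hS1, hS2, card_filter_add_card_filter_not]
  -- the sieve
  obtain ⟨Zq, hZq⟩ : ∃ Zq : Finset ℕ, Zq = (pr 5 (z + 1)).filter (fun l => l % 3 = 1 ∧ ¬ l ∣ m) :=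
    ⟨_, rfl⟩
  have memZq : ∀ l, l ∈ Zq ↔ (l ∈ pr 5 (z + 1) ∧ l % 3 = 1 ∧ ¬ l ∣ m) := by
    intro l
    rw [hZq, mem_filter]
  have hΩc := fun l hl => Sv_Om_card m r P Zq l hl (fun h => ((memZq l).1 h).2)
  have hinj : Set.InjOn (fun n => n / m + 1) (S1 : Set ℕ) := by
    intro a ha b hb hab
    have h1 := (hS a (mem_filter.1 ha).1).1
    have h2 := (hS b (mem_filter.1 hb).1).1
    have h3 : a / m = b / m := by
      have : a / m + 1 = b / m + 1 := hab
      omega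
    rw [← Nat.div_add_mod a m, ← Nat.div_add_mod b m, h1, h2, h3]
  have h1 := hsv X z hz2 hzs (Sv_Om m r P Zq) (by
    intro l hl
    refine ⟨?_, ?_, ?_⟩
    · intro a ha
      rw [Sv_mem_Om] at ha
      rw [mem_range]
      rcases ha with ⟨_, ha⟩ | ⟨_, c, _, hc⟩
      · rw [ha]
        exact Sv_psi_lt _ _ _ hl
      · rw [← hc]
        exact Sv_psi_lt _ _ _ hl
    · rw [hΩc l hl]
      by_cases h3 : l ∈ Zq
      · have h4 := mem_pr.1 ((memZq l).1 h3).1
        split_ifs <;> omega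
      · rw [if_neg h3]
        have := hl.two_le
        split_ifs <;> omega
    · rw [hΩc l hl]
      split_ifs <;> omega) (S1.image (fun n => n / m + 1)) (by
    intro a ha
    rw [mem_image] at ha
    obtain ⟨n, hn, rfl⟩ := ha
    have h2 := (hS n (mem_filter.1 hn).1).2.1
    have h4 : n / m < X := Nat.div_lt_of_lt_mul h2
    exact ⟨Nat.le_add_left 1 _, h4⟩) (by
    intro a ha l hl hin
    rw [mem_image] at ha
    obtain ⟨n, hn, rfl⟩ := ha
    obtain ⟨hn1, hn2⟩ := mem_filter.1 hn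
    obtain ⟨g1, g2, g3, g4⟩ := hS n hn1
    rw [Sv_mem_Om] at hin
    rcases hin with ⟨h, hin⟩ | ⟨h, c, hc, hca⟩
    · have h3 := Sv_psi_key hl (hPm l h) g1 hin
      rw [Nat.cast_zero, ZMod.natCast_eq_zero_iff] at h3
      exact hn2 l h h3
    · have h4 := (memZq l).1 h
      have h3 := Sv_psi_key hl h4.2.2 g1 hca.symm
      apply g3 l h4.1 h4.2.2
      rw [← ZMod.natCast_eq_zero_iff]
      have h5 : ((c ^ 2 + c + 1 : ℕ) : ZMod l) = 0 := (ZMod.natCast_eq_zero_iff _ l).2 hc.2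
      push_cast at h5 ⊢
      rw [h3]
      exact h5)
  rw [card_image_of_injOn hinj] at h1
  have hsum : ∑ l ∈ pr 2 (z + 1), ((Sv_Om m r P Zq l).card : ℝ) / l =
      ∑ p ∈ P, (1 : ℝ) / p + 2 * ∑ l ∈ Zq, (1 : ℝ) / l := by
    have h2 : ∀ l ∈ pr 2 (z + 1), ((Sv_Om m r P Zq l).card : ℝ) / l = (if l ∈ P then (1 : ℝ) / l else 0) +
        (if l ∈ Zq then 2 * ((1 : ℝ) / l) else 0) := by
      intro l hl
      rw [hΩc l (mem_pr.1 hl).2]
      split_ifs <;> push_cast <;> ring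
    rw [sum_congr rfl h2, sum_add_distrib, ← sum_filter, ← sum_filter, mul_sum]
    have e1 : (pr 2 (z + 1)).filter (fun l => l ∈ P) = P := by
      ext l
      rw [mem_filter]
      refine ⟨fun h => h.2, fun h => ⟨?_, h⟩⟩
      have h3 := mem_pr.1 (hP h)
      exact mem_pr.2 ⟨⟨by omega, h3.1.2⟩, h3.2⟩
    have e2 : (pr 2 (z + 1)).filter (fun l => l ∈ Zq) = Zq := by
      ext l
      rw [mem_filter]
      refine ⟨fun h => h.2, fun h => ⟨?_, h⟩⟩
      have h3 := mem_pr.1 ((memZq l).1 h).1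
      exact mem_pr.2 ⟨⟨by omega, h3.1.2⟩, h3.2⟩
    rw [e1, e2]
  rw [hsum] at h1
  -- the mass
  have hz5' : (5 : ℝ) ≤ z := by exact_mod_cast hz5
  have hlz : 0 < Real.log z := Real.log_pos (by linarith)
  have hE : Real.exp (-(∑ p ∈ P, (1 : ℝ) / p + 2 * ∑ l ∈ Zq, (1 : ℝ) / l)) ≤
      Real.exp C' * (hh m * Real.exp (-(∑ p ∈ P, (1 : ℝ) / p)) / Real.log z) := by
    have h2 := hmass z m hz5 hm
    rw [← hZq] at h2
    have h3 : Real.exp C' * (hh m * Real.exp (-(∑ p ∈ P, (1 : ℝ) / p)) / Real.log z) =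
        Real.exp (C' + (∑ p ∈ m.primeFactors.filter (fun p => p % 3 = 1), 2 / (p : ℝ) +
          -(∑ p ∈ P, (1 : ℝ) / p)) - Real.log (Real.log z)) := by
      rw [Real.exp_sub, Real.exp_add, Real.exp_add, Real.exp_log hlz]
      unfold hh
      ring
    rw [h3]
    apply Real.exp_le_exp.2
    linarith
  -- the squares
  have h2 : (S2.card : ℝ) ≤ 3 * X * (1 / L) := by
    have a1 : S2 ⊆ P.biUnion (fun p => S.filter (fun n => p ^ 2 ∣ n)) := by
      intro n hn
      rw [hS2, mem_filter] at hn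
      obtain ⟨hn1, hn2⟩ := hn
      push Not at hn2
      obtain ⟨p, hp, hpn⟩ := hn2
      rw [mem_biUnion]
      exact ⟨p, hp, mem_filter.2 ⟨hn1, (hS n hn1).2.2.2 p hp hpn⟩⟩
    have a2 : (S2.card : ℝ) ≤ ∑ p ∈ P, ((X : ℝ) * ((p : ℝ) ^ 2)⁻¹ + 1) := by
      have b1 : S2.card ≤ ∑ p ∈ P, (S.filter (fun n => p ^ 2 ∣ n)).card :=
        (card_le_card a1).trans card_biUnion_le
      have b2 : (S2.card : ℝ) ≤ ∑ p ∈ P, ((S.filter (fun n => p ^ 2 ∣ n)).card : ℝ) := by
        exact_mod_cast b1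
      refine b2.trans (sum_le_sum fun p hp => ?_)
      have hpp := (mem_pr.1 (hP hp)).2
      have b3 := Sv_sq X m r p hpp (hPm p hp) (S.filter (fun n => p ^ 2 ∣ n)) (fun n hn =>
        ⟨(hS n (mem_filter.1 hn).1).1, (hS n (mem_filter.1 hn).1).2.1, (mem_filter.1 hn).2⟩)
      have b4 : ((X / p ^ 2 : ℕ) : ℝ) ≤ (X : ℝ) * ((p : ℝ) ^ 2)⁻¹ := by
        have := Nat.cast_div_le (m := X) (n := p ^ 2) (α := ℝ)
        push_cast at this
        rwa [div_eq_mul_inv] at this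
      calc ((S.filter (fun n => p ^ 2 ∣ n)).card : ℝ) ≤ ((X / p ^ 2 + 1 : ℕ) : ℝ) := by
            exact_mod_cast b3
        _ = ((X / p ^ 2 : ℕ) : ℝ) + 1 := by push_cast; ring
        _ ≤ _ := by linarith
    have a3 : P ⊆ Ioo (L - 1) (z + 1) := by
      intro p hp
      have h3 := mem_pr.1 (hP hp)
      rw [mem_Ioo]
      omega
    have a4 : ∑ p ∈ P, ((p : ℝ) ^ 2)⁻¹ ≤ 2 / L := by
      have h3 := sum_Ioo_inv_sq_le (α := ℝ) (L - 1) (z + 1)
      have h4 : (((L - 1 : ℕ) : ℝ) + 1) = L := by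
        have : L - 1 + 1 = L := by omega
        exact_mod_cast this
      rw [h4] at h3
      exact (sum_le_sum_of_subset_of_nonneg a3 (fun i _ _ => by positivity)).trans h3
    have a5 : (P.card : ℝ) ≤ X * (1 / L) := by
      have h3 : P.card ≤ z := by
        have h4 := card_le_card a3
        rw [Nat.card_Ioo] at h4
        omega
      have h4 : (P.card : ℝ) * L ≤ X := by
        have : P.card * L ≤ X := (Nat.mul_le_mul_right L h3).trans hzz
        exact_mod_cast this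
      rw [mul_one_div, le_div_iff₀ hL0]
      exact h4
    calc (S2.card : ℝ) ≤ ∑ p ∈ P, ((X : ℝ) * ((p : ℝ) ^ 2)⁻¹ + 1) := a2
      _ = X * ∑ p ∈ P, ((p : ℝ) ^ 2)⁻¹ + P.card := by
          rw [sum_add_distrib, ← mul_sum, sum_const, nsmul_eq_mul, mul_one]
      _ ≤ X * (2 / L) + X * (1 / L) := by
          have := mul_le_mul_of_nonneg_left a4 hX0
          linarith
      _ = 3 * X * (1 / L) := by ring
  have hc : (S.card : ℝ) = S1.card + S2.card := by exact_mod_cast hcard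
  obtain ⟨A, hA⟩ : ∃ A : ℝ, A = hh m * Real.exp (-(∑ p ∈ P, (1 : ℝ) / p)) / Real.log z := ⟨_, rfl⟩
  have hA0 : 0 ≤ A := by
    rw [hA]
    have := hh_ge m
    positivity
  rw [← hA] at hE ⊢
  have h5 : C * X * Real.exp (-(∑ p ∈ P, (1 : ℝ) / p + 2 * ∑ l ∈ Zq, (1 : ℝ) / l)) ≤
      C * X * (Real.exp C' * A) := mul_le_mul_of_nonneg_left hE (by positivity)
  have h6 : 0 ≤ C * Real.exp C' * X * (1 / L) := by positivity
  have h7 : 0 ≤ (X : ℝ) * A := by positivity
  calc (S.card : ℝ) = S1.card + S2.card := hc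
    _ ≤ C * X * (Real.exp C' * A) + 3 * X * (1 / L) := add_le_add (h1.trans h5) h2
    _ ≤ (C * Real.exp C' + 3) * X * (A + 1 / L) := by
        have e : (C * Real.exp C' + 3) * X * (A + 1 / L) = C * X * (Real.exp C' * A) +
          3 * X * (1 / L) + (C * Real.exp C' * X * (1 / L) + 3 * (X * A)) := by ring
        rw [e]
        linarith

end Pool.Agent.H37.OH
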